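import Pool.Agent.Lib.Pf720po.Base

/-!
# Polynomial decay of correlations implies summability along polynomial families

The summand is bounded, with `l` the position of the largest coordinate of `m`, by
`∏ j, (m j + 1) ^ (-1 - a)` (when the vector `ev p m` is large compared with `m l + 1`) plus
`(1 + |ev p m (i l)|) ^ (-2) * ∏ j ≠ l, (m j + 1) ^ (-1 - b)`; the second family is summed over `m l` first,
since a nonconstant polynomial takes each value only boundedly often.
-/

set_option autoImplicit false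
set_option linter.unusedSectionVars false

open MeasureTheory Filter Topology ProbabilityTheory
open scoped ENNReal

namespace Pool.Agent.Lib.Pf720po

open Pool.Agent.Lib.Pf720ae
open Pool.Agent.Lib.Pf720pp (PV ev)

namespace Decay

/-- the weight `(1 + |n|)⁻²` -/
noncomputable def ph (n : ℤ) : ℝ := ((1 + |(n : ℝ)|) ^ 2)⁻¹

lemma ph_nonneg (n : ℤ) : 0 ≤ ph n := by unfold ph; positivity

lemma ph_summable : Summable ph := by
  have h : Summable fun n : ℕ => ((1 + (n : ℝ)) ^ 2)⁻¹ := by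
    have h1 := (summable_nat_add_iff 1).2 (Real.summable_one_div_nat_pow.2 (by norm_num : 1 < 2))
    refine h1.congr fun n => ?_
    push_cast
    rw [one_div, add_comm]
  rw [summable_int_iff_summable_nat_and_neg]
  constructor
  · refine h.congr fun n => ?_
    simp [ph]
  · refine h.congr fun n => ?_
    simp [ph]

lemma summable_pi {κ : Type} [Fintype κ] {g : ℕ → ℝ} (h0 : ∀ t, 0 ≤ g t)
    (hg : Summable g) : Summable fun m : κ → ℕ => ∏ j, g (m j) := by
  classical
  refine summable_of_sum_le (c := (∑' t, g t) ^ Fintype.card κ)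
    (fun m => Finset.prod_nonneg fun j _ => h0 _) fun s => ?_
  have hs : s ⊆ Fintype.piFinset fun j : κ => s.image fun m => m j := by
    intro m hm
    simp only [Fintype.mem_piFinset, Finset.mem_image]
    exact fun j => ⟨m, hm, rfl⟩
  calc ∑ m ∈ s, ∏ j, g (m j)
      ≤ ∑ m ∈ Fintype.piFinset fun j : κ => s.image fun m => m j, ∏ j, g (m j) :=
        Finset.sum_le_sum_of_subset_of_nonneg hs fun m _ _ => Finset.prod_nonneg fun j _ => h0 _
    _ = ∏ j, ∑ t ∈ s.image (fun m : κ → ℕ => m j), g t := (Finset.prod_univ_sum _ _).symm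
    _ ≤ ∏ _j : κ, ∑' t, g t :=
        Finset.prod_le_prod (fun j _ => Finset.sum_nonneg fun t _ => h0 t)
          fun j _ => hg.sum_le_tsum _ fun t _ => h0 t
    _ = _ := by simp [Finset.prod_const, Finset.card_univ]

/-- every value is taken at most `natDegree P` times -/
lemma sum_ph_le {P : Polynomial ℤ} (hP : 0 < P.natDegree) (c : ℤ) (s : Finset ℕ) :
    ∑ t ∈ s, ph (P.eval (t : ℤ) + c) ≤ P.natDegree * ∑' n, ph n := by
  classical
  set f : ℕ → ℤ := fun t => P.eval (t : ℤ) + c with hf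
  have hcard : ∀ n : ℤ, (s.filter fun t => f t = n).card ≤ P.natDegree := by
    intro n
    set Q : Polynomial ℤ := P - Polynomial.C (n - c) with hQ
    have hQd : Q.natDegree = P.natDegree := Polynomial.natDegree_sub_C
    have hQ0 : Q ≠ 0 := by
      intro h
      rw [h, Polynomial.natDegree_zero] at hQd
      omega
    have h1 : ((s.filter fun t => f t = n).image fun t : ℕ => (t : ℤ)) ⊆ Q.roots.toFinset := by
      intro z hz
      simp only [Finset.mem_image, Finset.mem_filter] at hz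
      obtain ⟨t, ⟨_, ht⟩, rfl⟩ := hz
      rw [Multiset.mem_toFinset, Polynomial.mem_roots hQ0]
      simp only [hQ, Polynomial.IsRoot.def, Polynomial.eval_sub, Polynomial.eval_C]
      simp only [hf] at ht
      omega
    calc (s.filter fun t => f t = n).card
        = ((s.filter fun t => f t = n).image fun t : ℕ => (t : ℤ)).card :=
          (Finset.card_image_of_injective _ Nat.cast_injective).symm
      _ ≤ Q.roots.toFinset.card := Finset.card_le_card h1
      _ ≤ Q.roots.card := Multiset.toFinset_card_le _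
      _ ≤ Q.natDegree := Polynomial.card_roots' Q
      _ = P.natDegree := hQd
  have h2 := Finset.sum_comp (s := s) ph f
  calc ∑ t ∈ s, ph (P.eval (t : ℤ) + c) = ∑ t ∈ s, ph (f t) := rfl
    _ = ∑ b ∈ s.image f, (s.filter fun a => f a = b).card • ph b := h2
    _ ≤ ∑ b ∈ s.image f, (P.natDegree : ℝ) * ph b := by
        refine Finset.sum_le_sum fun b _ => ?_
        rw [nsmul_eq_mul]
        exact mul_le_mul_of_nonneg_right (by exact_mod_cast hcard b) (ph_nonneg b)
    _ = (P.natDegree : ℝ) * ∑ b ∈ s.image f, ph b := by rw [Finset.mul_sum]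
    _ ≤ P.natDegree * ∑' n, ph n :=
        mul_le_mul_of_nonneg_left (ph_summable.sum_le_tsum _ fun b _ => ph_nonneg b) (by positivity)

lemma summable_ph {P : Polynomial ℤ} (hP : 0 < P.natDegree) (c : ℤ) :
    Summable fun t : ℕ => ph (P.eval (t : ℤ) + c) :=
  summable_of_sum_le (fun _ => ph_nonneg _) (sum_ph_le hP c)

lemma tsum_ph_le {P : Polynomial ℤ} (hP : 0 < P.natDegree) (c : ℤ) :
    ∑' t : ℕ, ph (P.eval (t : ℤ) + c) ≤ P.natDegree * ∑' n, ph n :=
  Real.tsum_le_of_sum_le (fun _ => ph_nonneg _) (sum_ph_le hP c)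

/-- `(m + 1) ^ (-1 - a)` -/
noncomputable def pw (a : ℝ) (t : ℕ) : ℝ := ((t : ℝ) + 1) ^ (-a) / ((t : ℝ) + 1)

lemma pw_nonneg (a : ℝ) (t : ℕ) : 0 ≤ pw a t := by unfold pw; positivity

lemma pw_summable {a : ℝ} (ha : 0 < a) : Summable (pw a) := by
  have h1 := (summable_nat_add_iff 1).2 (Real.summable_one_div_nat_rpow.2 (by linarith : 1 < 1 + a))
  refine h1.congr fun t => ?_
  have h0 : (0 : ℝ) < (t : ℝ) + 1 := by positivity
  push_cast
  rw [pw, Real.rpow_neg h0.le, Real.rpow_add h0, Real.rpow_one]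
  field_simp

/-- the family summed over `m l` first is summable -/
lemma summable_T {k d : ℕ} (p : Fin k → PV d) (l : Fin k) (i : Fin d)
    (hi : 0 < (p l i).natDegree) {a : ℝ} (ha : 0 < a) :
    Summable fun m : Fin k → ℕ => ph (ev p m i) * ∏ j, (if j = l then 1 else pw a (m j)) := by
  set c : ({j : Fin k // j ≠ l} → ℕ) → ℤ := fun r => ∑ j, (p j.1 i).eval ((r j : ℕ) : ℤ) with hc
  set G : ({j : Fin k // j ≠ l} → ℕ) → ℝ := fun r => ∏ j, pw a (r j) with hG
  set F : ({j : Fin k // j ≠ l} → ℕ) × ℕ → ℝ :=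
    fun q => ph ((p l i).eval (q.2 : ℤ) + c q.1) * G q.1 with hF
  have hG0 : ∀ r, 0 ≤ G r := fun r => Finset.prod_nonneg fun j _ => pw_nonneg _ _
  have hFs : Summable F := by
    rw [summable_prod_of_nonneg fun q => mul_nonneg (ph_nonneg _) (hG0 _)]
    constructor
    · intro r
      exact (summable_ph hi (c r)).mul_right (G r)
    · refine Summable.of_nonneg_of_le
        (fun r => tsum_nonneg fun t => mul_nonneg (ph_nonneg _) (hG0 _)) (fun r => ?_)
        ((summable_pi (κ := {j : Fin k // j ≠ l}) (pw_nonneg a) (pw_summable ha)).mul_left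
          ((p l i).natDegree * ∑' n, ph n))
      simp only [hF]
      rw [tsum_mul_right]
      exact mul_le_mul_of_nonneg_right (tsum_ph_le hi (c r)) (hG0 r)
  set e : (Fin k → ℕ) ≃ ({j : Fin k // j ≠ l} → ℕ) × ℕ :=
    (Equiv.funSplitAt l ℕ).trans (Equiv.prodComm _ _) with he
  have h1 := (Equiv.summable_iff e).2 hFs
  refine h1.congr fun m => ?_
  have he1 : (e m).1 = fun j => m j.1 := by
    funext j
    simp [he, Equiv.funSplitAt]
  have he2 : (e m).2 = m l := by simp [he, Equiv.funSplitAt]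
  simp only [Function.comp, hF, hc, hG, he1, he2]
  congr 1
  · congr 1
    exact (Fintype.sum_eq_add_sum_subtype_ne (fun j => (p j i).eval ((m j : ℕ) : ℤ)) l).symm
  · rw [Fintype.prod_eq_mul_prod_subtype_ne (fun j => if j = l then 1 else pw a (m j)) l]
    rw [if_pos rfl, one_mul]
    exact Finset.prod_congr rfl fun j _ => by rw [if_neg j.2]

/-- the numerical inequality -/
lemma num {x x' y δ : ℝ} (hδ : 0 < δ) (hx' : 1 ≤ x') (hx : x' ≤ x) (hy : 1 ≤ y) :
    x ^ (-δ) ≤ y ^ (-(δ / 4)) + (x' ^ 2)⁻¹ * y ^ (1 / 2 : ℝ) := by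
  have hy0 : 0 < y := by linarith
  have hx0 : 0 < x' := by linarith
  rcases le_or_gt (y ^ (1 / 4 : ℝ)) x' with h | h
  · have h1 : x ^ (-δ) ≤ (y ^ (1 / 4 : ℝ)) ^ (-δ) :=
      Real.rpow_le_rpow_of_nonpos (by positivity) (h.trans hx) (by linarith)
    rw [← Real.rpow_mul hy0.le] at h1
    have h2 : (1 / 4 : ℝ) * -δ = -(δ / 4) := by ring
    rw [h2] at h1
    have h3 : 0 ≤ (x' ^ 2)⁻¹ * y ^ (1 / 2 : ℝ) := by positivity
    linarith
  · have h1 : x ^ (-δ) ≤ 1 := Real.rpow_le_one_of_one_le_of_nonpos (hx'.trans hx) (by linarith)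
    have h2 : x' ^ 2 ≤ y ^ (1 / 2 : ℝ) := by
      have h3 : x' ^ 2 ≤ (y ^ (1 / 4 : ℝ)) ^ 2 := pow_le_pow_left₀ hx0.le h.le 2
      rw [← Real.rpow_natCast, ← Real.rpow_natCast, ← Real.rpow_mul hy0.le] at h3
      norm_num at h3 ⊢
      exact h3
    have h3 : 1 ≤ (x' ^ 2)⁻¹ * y ^ (1 / 2 : ℝ) := by
      rw [inv_mul_eq_div, one_le_div (by positivity)]
      exact h2
    have h4 : 0 ≤ y ^ (-(δ / 4)) := by positivity
    linarith

/-- the bound for the summand, `l` the position of the largest coordinate -/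
lemma bound {k : ℕ} (m : Fin k → ℕ) (l : Fin k) (hl : ∀ j, m j ≤ m l) {x x' δ : ℝ} (hδ : 0 < δ)
    (hx' : 1 ≤ x') (hx : x' ≤ x) :
    x ^ (-δ) / ∏ j, ((m j : ℝ) + 1) ≤
      ∏ j, pw (δ / 4 / k) (m j) +
        (x' ^ 2)⁻¹ * ∏ j, (if j = l then 1 else pw (1 / 2 / k) (m j)) := by
  have hk : 0 < k := l.pos
  have hk' : (0 : ℝ) < k := by exact_mod_cast hk
  set y : ℝ := (m l : ℝ) + 1 with hy
  have hy1 : 1 ≤ y := by simp [hy]
  have hy0 : 0 < y := by linarith
  have hmy : ∀ j, (m j : ℝ) + 1 ≤ y := fun j => by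
    have : (m j : ℝ) ≤ m l := by exact_mod_cast hl j
    linarith
  have hm0 : ∀ j, (0 : ℝ) < (m j : ℝ) + 1 := fun j => by positivity
  have hprod : 0 < ∏ j, ((m j : ℝ) + 1) := Finset.prod_pos fun j _ => hm0 j
  have hpow : ∀ a : ℝ, y ^ (-a) = ∏ _j : Fin k, y ^ (-(a / k)) := by
    intro a
    rw [Finset.prod_const, Finset.card_univ, Fintype.card_fin, ← Real.rpow_natCast,
      ← Real.rpow_mul hy0.le]
    congr 1
    field_simp
  have hA : ∀ a : ℝ, 0 < a → ∀ j, y ^ (-(a / k)) ≤ ((m j : ℝ) + 1) ^ (-(a / k)) := fun a ha j =>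
    Real.rpow_le_rpow_of_nonpos (hm0 j) (hmy j) (by
      have : 0 < a / k := by positivity
      linarith)
  have h1 : y ^ (-(δ / 4)) / ∏ j, ((m j : ℝ) + 1) ≤ ∏ j, pw (δ / 4 / k) (m j) := by
    rw [hpow, ← Finset.prod_div_distrib]
    refine Finset.prod_le_prod (fun j _ => ?_) fun j _ => ?_
    · have := hm0 j
      positivity
    · exact div_le_div_of_nonneg_right (hA _ (by positivity) j) (hm0 j).le
  have h2 : y ^ (1 / 2 : ℝ) / ∏ j, ((m j : ℝ) + 1) ≤
      ∏ j, (if j = l then 1 else pw (1 / 2 / k) (m j)) := by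
    have h3 : y ^ (1 / 2 : ℝ) = (∏ j : Fin k, if j = l then y else 1) * y ^ (-(1 / 2 : ℝ)) := by
      rw [Finset.prod_ite_eq' Finset.univ l fun _ => y, if_pos (Finset.mem_univ _)]
      nth_rw 2 [← Real.rpow_one y]
      rw [← Real.rpow_add hy0]
      norm_num
    rw [h3, hpow, ← Finset.prod_mul_distrib, ← Finset.prod_div_distrib]
    refine Finset.prod_le_prod (fun j _ => ?_) fun j _ => ?_
    · have := hm0 j
      split_ifs <;> positivity
    · by_cases hj : j = l
      · subst hj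
        rw [if_pos rfl, if_pos rfl, div_le_one (hm0 j)]
        have h4 : y ^ (-(1 / 2 / (k : ℝ))) ≤ 1 := Real.rpow_le_one_of_one_le_of_nonpos hy1 (by
          have : 0 < 1 / 2 / (k : ℝ) := by positivity
          linarith)
        calc y * y ^ (-(1 / 2 / (k : ℝ))) ≤ y * 1 := mul_le_mul_of_nonneg_left h4 hy0.le
          _ = _ := by rw [mul_one, hy]
      · rw [if_neg hj, if_neg hj, one_mul]
        exact div_le_div_of_nonneg_right (hA _ (by norm_num) j) (hm0 j).le
  calc x ^ (-δ) / ∏ j, ((m j : ℝ) + 1)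
      ≤ (y ^ (-(δ / 4)) + (x' ^ 2)⁻¹ * y ^ (1 / 2 : ℝ)) / ∏ j, ((m j : ℝ) + 1) :=
        div_le_div_of_nonneg_right (num hδ hx' hx hy1) hprod.le
    _ = y ^ (-(δ / 4)) / ∏ j, ((m j : ℝ) + 1) +
        (x' ^ 2)⁻¹ * (y ^ (1 / 2 : ℝ) / ∏ j, ((m j : ℝ) + 1)) := by ring
    _ ≤ _ := add_le_add h1 (mul_le_mul_of_nonneg_left h2 (by positivity))

theorem main {k d : ℕ} (p : Fin k → PV d) (hp : ∀ l, ∃ i, 0 < (p l i).natDegree) {δ : ℝ}
    (hδ : 0 < δ) :
    Summable fun m : Fin k → ℕ => (1 + ‖ev p m‖) ^ (-δ) / ∏ l, ((m l : ℝ) + 1) := by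
  rcases Nat.eq_zero_or_pos k with rfl | hk
  · exact summable_of_finite_support (Set.toFinite _)
  have hk' : (0 : ℝ) < k := by exact_mod_cast hk
  haveI : Nonempty (Fin k) := ⟨⟨0, hk⟩⟩
  choose i hi using hp
  have hU : Summable fun m : Fin k → ℕ => ∏ j, pw (δ / 4 / k) (m j) :=
    summable_pi (pw_nonneg _) (pw_summable (by positivity))
  have hT : Summable fun m : Fin k → ℕ =>
      ∑ l, ph (ev p m (i l)) * ∏ j, (if j = l then 1 else pw (1 / 2 / k) (m j)) :=
    summable_sum fun l _ => summable_T p l (i l) (hi l) (by positivity)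
  refine Summable.of_nonneg_of_le (fun m => ?_) (fun m => ?_) (hU.add hT)
  · have : 0 ≤ 1 + ‖ev p m‖ := by positivity
    positivity
  · obtain ⟨l, hl⟩ := Finite.exists_max m
    have hx : 1 + |((ev p m (i l) : ℤ) : ℝ)| ≤ 1 + ‖ev p m‖ := by
      have h1 := norm_le_pi_norm (ev p m) (i l)
      rw [Int.norm_eq_abs] at h1
      linarith
    have hx1 : 1 ≤ 1 + |((ev p m (i l) : ℤ) : ℝ)| := by
      have := abs_nonneg ((ev p m (i l) : ℤ) : ℝ)
      linarith
    refine (bound m l hl hδ hx1 hx).trans ?_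
    refine add_le_add le_rfl ?_
    refine Finset.single_le_sum (f := fun l => ph (ev p m (i l)) *
      ∏ j, (if j = l then 1 else pw (1 / 2 / k) (m j))) (fun l' _ => ?_) (Finset.mem_univ l)
    refine mul_nonneg (ph_nonneg _) (Finset.prod_nonneg fun j _ => ?_)
    split_ifs
    · exact zero_le_one
    · exact pw_nonneg _ _

end Decay

theorem ret_of_decay {Y : Type} {mY : MeasurableSpace Y} {ν : Measure Y} {d : ℕ}
    (R : MAct (Fin d → ℤ) Y ν) {B : Set Y} {C δ : ℝ} (hδ : 0 < δ)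
    (h : ∀ w : Fin d → ℤ, ν.real (B ∩ (R.S w) ⁻¹' B) ≤ C * (1 + ‖w‖) ^ (-δ)) : Ret R B := by
  intro k p hp
  refine Summable.of_nonneg_of_le (fun m => by positivity) (fun m => ?_)
    ((Decay.main p hp (half_pos hδ)).mul_left (Real.sqrt C))
  have h0 : (0 : ℝ) < 1 + ‖ev p m‖ := by positivity
  have h1 : Real.sqrt (ν.real (B ∩ (R.S (ev p m)) ⁻¹' B)) ≤
      Real.sqrt C * (1 + ‖ev p m‖) ^ (-(δ / 2)) := by
    refine (Real.sqrt_le_sqrt (h _)).trans ?_
    rw [Real.sqrt_mul' _ (by positivity), Real.sqrt_eq_rpow ((1 + ‖ev p m‖) ^ (-δ)),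
      ← Real.rpow_mul h0.le]
    refine le_of_eq ?_
    congr 2
    ring
  rw [← mul_div_assoc]
  exact div_le_div_of_nonneg_right h1 (by positivity)

end Pool.Agent.Lib.Pf720po
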