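import Pool.Agent.Lib.Pf720gs.PFinal

/-!
# Poisson random measures: definitions
-/

set_option autoImplicit false
set_option linter.unusedSectionVars false

open MeasureTheory Filter Topology ProbabilityTheory
open scoped ENNReal

namespace Pool.Agent.Lib.Pf720po

open Pool.Agent.Lib.Pf720ae Pool.Agent.Lib.Pf720gs
open Pool.Agent.Lib.Pf720pp (PV ev)

section defs

variable {X Y : Type} [MeasurableSpace X] [MeasurableSpace Y]

/-- `N` is a Poisson random measure with intensity `ν` -/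
def IsPoisson (μ : Measure X) (ν : Measure Y) (N : X → Measure Y) : Prop :=
  Measurable N ∧ ∀ (n : ℕ) (B : Fin n → Set Y), (∀ i, MeasurableSet (B i)) →
    (∀ i, ν (B i) < ⊤) → (∀ i j, i ≠ j → Disjoint (B i) (B j)) → ∀ k : Fin n → ℕ,
    μ.real {x | ∀ i, N x (B i) = k i} =
      ∏ i, (Real.exp (-ν.real (B i)) * ν.real (B i) ^ k i / (k i).factorial)

/-- measurable functions with finitely many values and support of finite measure -/
structure Simp {E : Type} [Zero E] [MeasurableSpace E] (ν : Measure Y) (h : Y → E) : Prop where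
  meas : Measurable h
  fin : (Set.range h).Finite
  supp : ν (Function.support h) < ⊤

/-- the multiplicative functional `∏_{y ∈ N x} u(y)` -/
noncomputable def mf (N : X → Measure Y) (u : Y → ℝ) (x : X) : ℝ :=
  Real.exp (∫ y, Real.log (u y) ∂(N x))

/-- functions with finitely many values in `[1 - ε, 1]`, equal to `1` off `B` -/
structure Amp (ε : ℝ) (B : Set Y) (u : Y → ℝ) : Prop where
  meas : Measurable u
  fin : (Set.range u).Finite
  lb : ∀ y, 1 - ε ≤ u y
  ub : ∀ y, u y ≤ 1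
  off : ∀ y, y ∉ B → u y = 1

/-- the amplified function `1 + (n + 1) (u - 1)` -/
def lift (n : ℕ) (u : Y → ℝ) (y : Y) : ℝ := 1 + (n + 1) * (u y - 1)

/-- the function `1 + ∑_a (u_a ∘ σ_a - 1)` -/
noncomputable def mix {A : Type} [Fintype A] (u : A → Y → ℝ) (σ : A → Y → Y) (y : Y) : ℝ :=
  1 + ∑ a, (u a (σ a y) - 1)

/-- weighted version of `CS` -/
def CSw {κ : Type} [Fintype κ] [DecidableEq κ] (c k : (κ → ℕ) → ℝ) : Prop :=
  Cvg (fun m => c m * Real.cos (k m)) ∧ Cvg (fun m => c m * Real.sin (k m))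

/-- the variables of the decoupled Gaussian system -/
noncomputable def aG {V : Type} [AddCommGroup V] [Module ℝ V] {κ : Type} [Fintype κ] {d : ℕ}
    {J : Type} [Fintype J] (S : (Fin d → ℤ) → V →ₗ[ℝ] V) (q : J → κ → PV d) (h : J → V)
    (m : κ → ℕ) : J ⊕ (J × J) → V := Sum.elim
  (fun j => Real.sqrt (Fintype.card J) • S (ev (q j) m) (h j))
  (fun p => Real.sqrt (1 / 2) • (S (ev (q p.2) m - ev (q p.1) m) (h p.2) + h p.1))

/-- summability of the return correlations of `B` along polynomial families -/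
def Ret {ν : Measure Y} {d : ℕ} (R : MAct (Fin d → ℤ) Y ν) (B : Set Y) : Prop :=
  ∀ (k : ℕ) (p : Fin k → PV d), (∀ l, ∃ i, 0 < (p l i).natDegree) →
    Summable fun m : Fin k → ℕ =>
      Real.sqrt (ν.real (B ∩ (R.S (ev p m)) ⁻¹' B)) / ∏ l, ((m l : ℝ) + 1)

end defs

variable {X Y : Type} {mX : MeasurableSpace X} {mY : MeasurableSpace Y}

lemma mf_pos (N : X → Measure Y) (u : Y → ℝ) (x : X) : 0 < mf N u x := Real.exp_pos _

lemma mf_le_one (N : X → Measure Y) {u : Y → ℝ} (h0 : ∀ y, 0 ≤ u y) (h1 : ∀ y, u y ≤ 1) (x : X) :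
    mf N u x ≤ 1 := by
  unfold mf
  rw [Real.exp_le_one_iff]
  exact integral_nonpos fun y => Real.log_nonpos (h0 y) (h1 y)

lemma mf_map {N : X → Measure Y} {τ : X → X} {σ : Y → Y} (hσ : Measurable σ)
    (h : ∀ x, N (τ x) = (N x).map σ) {u : Y → ℝ} (hu : Measurable u) (x : X) :
    mf N u (τ x) = mf N (fun y => u (σ y)) x := by
  have hm : Measurable fun y => Real.log (u y) := Real.measurable_log.comp hu
  unfold mf
  rw [h, integral_map hσ.aemeasurable hm.aestronglyMeasurable]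

lemma mf_one (N : X → Measure Y) (x : X) : mf N (fun _ => 1) x = 1 := by
  simp [mf]

namespace Amp

variable {ε : ℝ} {B : Set Y} {u : Y → ℝ}

lemma pos (h : Amp ε B u) (hε : ε < 1) (y : Y) : 0 < u y := by
  have := h.lb y
  linarith

lemma mono (h : Amp ε B u) {ε' : ℝ} {B' : Set Y} (hε : ε ≤ ε') (hB : B ⊆ B') : Amp ε' B' u :=
  ⟨h.meas, h.fin, fun y => by have := h.lb y; linarith, h.ub, fun y hy => h.off y fun hy' => hy (hB hy')⟩

lemma comp (h : Amp ε B u) {σ : Y → Y} (hσ : Measurable σ) :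
    Amp ε (σ ⁻¹' B) (fun y => u (σ y)) :=
  ⟨h.meas.comp hσ, h.fin.subset (by rintro _ ⟨y, rfl⟩; exact ⟨σ y, rfl⟩), fun y => h.lb _,
    fun y => h.ub _, fun y hy => h.off _ hy⟩

lemma one (hε : 0 ≤ ε) : Amp ε B (fun _ : Y => (1 : ℝ)) :=
  ⟨measurable_const, Set.finite_singleton (1 : ℝ) |>.subset (by rintro _ ⟨y, rfl⟩; rfl),
    fun y => by linarith, fun y => le_rfl, fun y _ => rfl⟩

lemma log_simp (h : Amp ε B u) {ν : Measure Y} (hB : ν B < ⊤) : Simp ν (fun y => Real.log (u y)) := by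
  refine ⟨Real.measurable_log.comp h.meas, ?_, ?_⟩
  · refine (h.fin.image Real.log).subset ?_
    rintro _ ⟨y, rfl⟩
    exact ⟨u y, ⟨y, rfl⟩, rfl⟩
  · refine (measure_mono fun y hy => ?_).trans_lt hB
    by_contra hyB
    exact hy (by simp only [h.off y hyB, Real.log_one])

end Amp

end Pool.Agent.Lib.Pf720po
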