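import Pool.Agent.Lib.Pf720po.Base

/-!
# The characteristic functional of a Poisson random measure

MODULE Char (needs only `IsPoisson`, `Simp`, `Amp`, `mf`, `Amp.log_simp`, `Amp.pos` of Base.lean and
Mathlib). Proofs.

* `exists_nat`: `IsPoisson` with `n = 1` gives `μ.real {x | N x A = k} = e^{-λ} λ^k / k!`,
  `λ = ν.real A`; these events are disjoint and the numbers add up to `1` (`Real.exp` series,
  `NormedSpace.expSeries_div_hasSum_exp` / `Real.hasSum_exp`..., or the mass one of Mathlib's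
  `poissonMeasure`), so `μ {x | ∃ k : ℕ, N x A = k} = 1`.
* `ae_lt_top` follows. `measure_ne_zero_le`: `μ.real {N x A = 0} = e^{-λ}`, so
  `μ.real {N x A ≠ 0} = 1 - e^{-λ} ≤ λ` (`Real.add_one_le_exp`).
* `measurable_integral_fin`: for `h : Y → ℂ` measurable with finite range `F`,
  `∫ h dN x = if ∀ v ∈ F \ {0}, N x (h⁻¹{v}) < ⊤ then ∑_{v ∈ F} (N x).real (h⁻¹{v}) • v else 0`
  (`h` is a finite sum of indicators; if some `N x (h⁻¹{v}) = ⊤`, `v ≠ 0`, then `h` is not
  integrable). The condition defines a measurable set (`Measure.measurable_coe`) and the sum is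
  measurable. The real version follows from `integral_ofReal` by taking real parts.
* `char`: let `z_1, …, z_n` be the nonzero values of `h`, `B_i = h⁻¹{z_i}` (disjoint, measurable,
  of finite `ν` measure since contained in the support), `λ_i = ν.real (B_i)`,
  `K x i = ⌊(N x (B_i)).toReal⌋₊`. By `exists_nat`, a.e. `x` satisfies `N x (B_i) = K x i` for all `i`, so
  `μ.real {K = k} = ∏ e^{-λ_i} λ_i^{k_i} / k_i!` and `μ.map K = Measure.pi (Poisson λ_i)` (equality on
  singletons of the countable space `Fin n → ℕ`; `Measure.pi_singleton`, `Measure.ext_iff_singleton`).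
  A.e. `∫ h dN x = ∑ z_i K x i`, hence `∫ exp(∫ h dN x) dμ = ∫ ∏ exp(z_i k_i) d(pi Poisson) =
  ∏ ∑_k e^{-λ_i} (λ_i e^{z_i})^k / k! = ∏ exp(λ_i (e^{z_i} - 1))`
  (`integral_fintype_prod_eq_prod`, `integral_countable'` or `poissonMeasure` lemmas, the complex
  exponential series) and `∫ (e^h - 1) dν = ∑ λ_i (e^{z_i} - 1)` since `e^h - 1` is the finite sum of
  the indicators of `B_i` times `e^{z_i} - 1`.
* `char_mf`: apply `char` to `y ↦ log (v y) + i ∑_{h ∈ s} t_h h(y)` (a `Simp` function: finite range,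
  support in `B ∪ ⋃ supports`; real part `log v ≤ 0`); a.e. all the supports and `B` have finite
  `N x` measure, so the integral `∫ (log v + i ∑ t_h h) dN x` splits
  (`integral_add`, `integral_finset_sum`, `integral_ofReal`), `mf N v x = exp (∫ log v dN x)` by definition
  and `exp (log v + i H) = v e^{iH}`.
-/

set_option autoImplicit false
set_option linter.unusedSectionVars false

open MeasureTheory Filter Topology ProbabilityTheory
open scoped ENNReal

namespace Pool.Agent.Lib.Pf720po

variable {X Y : Type} {mX : MeasurableSpace X} {mY : MeasurableSpace Y}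

namespace CharAux

section gen

variable {E F : Type} [NormedAddCommGroup E] [NormedSpace ℝ E] [CompleteSpace E]
  [MeasurableSpace E] [BorelSpace E] [NormedAddCommGroup F] [NormedSpace ℝ F] [CompleteSpace F]

/-- a measurable function with finite range, as a simple function -/
noncomputable def sf {h : Y → E} (hm : Measurable h) (hf : (Set.range h).Finite) : SimpleFunc Y E :=
  ⟨h, fun v => hm (measurableSet_singleton v), hf⟩

lemma sf_integrable (M : Measure Y) {h : Y → E} (hm : Measurable h) (hf : (Set.range h).Finite)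
    (hM : ∀ v, v ≠ 0 → M (h ⁻¹' {v}) < ⊤) : Integrable (sf hm hf) M :=
  SimpleFunc.integrable_iff.2 hM

lemma integral_map_fin (M : Measure Y) {h : Y → E} (hm : Measurable h)
    (hf : (Set.range h).Finite) (hM : ∀ v, v ≠ 0 → M (h ⁻¹' {v}) < ⊤) (g : E → F) (hg : g 0 = 0) :
    Integrable (fun y => g (h y)) M ∧
      ∫ y, g (h y) ∂M = ∑ v ∈ hf.toFinset, M.real (h ⁻¹' {v}) • g v := by
  have hi := sf_integrable M hm hf hM
  have h1 : Integrable ((sf hm hf).map g) M :=
    SimpleFunc.integrable_iff_finMeasSupp.2 ((SimpleFunc.integrable_iff_finMeasSupp.1 hi).map hg)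
  refine ⟨h1, ?_⟩
  have h2 := SimpleFunc.map_integral (sf hm hf) g hi hg
  rw [SimpleFunc.integral_eq_integral _ h1] at h2
  exact h2

lemma integral_fin (M : Measure Y) {h : Y → E} (hm : Measurable h)
    (hf : (Set.range h).Finite) (hM : ∀ v, v ≠ 0 → M (h ⁻¹' {v}) < ⊤) :
    ∫ y, h y ∂M = ∑ v ∈ hf.toFinset, M.real (h ⁻¹' {v}) • v :=
  (integral_map_fin M hm hf hM (fun v => v) rfl).2

lemma fiber_lt_top (M : Measure Y) {h : Y → E} (hf : (Set.range h).Finite)
    (hM : ∀ v ∈ hf.toFinset, v ≠ 0 → M (h ⁻¹' {v}) < ⊤) : ∀ v, v ≠ 0 → M (h ⁻¹' {v}) < ⊤ := by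
  intro v hv
  by_cases hvF : v ∈ hf.toFinset
  · exact hM v hvF hv
  · have : h ⁻¹' {v} = ∅ := by
      ext y
      simp only [Set.mem_preimage, Set.mem_singleton_iff, Set.mem_empty_iff_false, iff_false]
      intro hy
      apply hvF
      rw [Set.Finite.mem_toFinset]
      exact ⟨y, hy⟩
    rw [this, measure_empty]
    exact ENNReal.zero_lt_top

lemma measurable_N {N : X → Measure Y} (hN : Measurable N) {A : Set Y} (hA : MeasurableSet A) :
    Measurable fun x => N x A := (Measure.measurable_coe hA).comp hN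

lemma measurable_int {N : X → Measure Y} (hN : Measurable N) {h : Y → E}
    [SecondCountableTopology E]
    (hm : Measurable h) (hf : (Set.range h).Finite) : Measurable fun x => ∫ y, h y ∂(N x) := by
  classical
  have hS : MeasurableSet {x | ∀ v ∈ hf.toFinset, v ≠ 0 → N x (h ⁻¹' {v}) < ⊤} := by
    have : {x | ∀ v ∈ hf.toFinset, v ≠ 0 → N x (h ⁻¹' {v}) < ⊤} =
        ⋂ v ∈ hf.toFinset, {x | v ≠ 0 → N x (h ⁻¹' {v}) < ⊤} := by
      ext x
      simp
    rw [this]
    refine Finset.measurableSet_biInter _ fun v _ => ?_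
    by_cases hv : v = 0
    · have : {x | v ≠ 0 → N x (h ⁻¹' {v}) < ⊤} = Set.univ := by
        ext x
        simp [hv]
      rw [this]
      exact MeasurableSet.univ
    · have : {x | v ≠ 0 → N x (h ⁻¹' {v}) < ⊤} = {x | N x (h ⁻¹' {v}) < ⊤} := by
        ext x
        simp [hv]
      rw [this]
      exact measurableSet_lt (measurable_N hN (hm (measurableSet_singleton v))) measurable_const
  have key : (fun x => ∫ y, h y ∂(N x)) = fun x =>
      if x ∈ {x | ∀ v ∈ hf.toFinset, v ≠ 0 → N x (h ⁻¹' {v}) < ⊤} then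
        ∑ v ∈ hf.toFinset, (N x).real (h ⁻¹' {v}) • v else 0 := by
    funext x
    by_cases hx : x ∈ {x | ∀ v ∈ hf.toFinset, v ≠ 0 → N x (h ⁻¹' {v}) < ⊤}
    · rw [if_pos hx]
      exact integral_fin (N x) hm hf (fiber_lt_top (N x) hf hx)
    · rw [if_neg hx]
      apply integral_undef
      intro hi
      apply hx
      intro v _ hv
      have hi' : Integrable (sf hm hf) (N x) := hi
      exact SimpleFunc.integrable_iff.1 hi' v hv
  rw [key]
  refine Measurable.ite hS ?_ measurable_const
  refine Finset.measurable_sum _ fun v _ => ?_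
  exact ((measurable_N hN (hm (measurableSet_singleton v))).ennreal_toReal).smul_const v

end gen

section poi

variable {μ : Measure X} [IsProbabilityMeasure μ] {ν : Measure Y} {N : X → Measure Y}

lemma poisson_fintype (hN : IsPoisson μ ν N) {ι : Type} [Fintype ι] (B : ι → Set Y)
    (hB : ∀ i, MeasurableSet (B i)) (hfin : ∀ i, ν (B i) < ⊤)
    (hd : ∀ i j, i ≠ j → Disjoint (B i) (B j)) (k : ι → ℕ) :
    μ.real {x | ∀ i, N x (B i) = k i} =
      ∏ i, (Real.exp (-ν.real (B i)) * ν.real (B i) ^ k i / (k i).factorial) := by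
  have h1 := hN.2 (Fintype.card ι) (fun j => B ((Fintype.equivFin ι).symm j)) (fun j => hB _)
    (fun j => hfin _) (fun i j hij => hd _ _ fun h => hij ((Fintype.equivFin ι).symm.injective h))
    (fun j => k ((Fintype.equivFin ι).symm j))
  have h2 : {x | ∀ i, N x (B i) = k i} = {x | ∀ j : Fin (Fintype.card ι),
      N x (B ((Fintype.equivFin ι).symm j)) = k ((Fintype.equivFin ι).symm j)} := by
    ext x
    constructor
    · intro hx j
      exact hx _
    · intro hx i
      have h3 := hx (Fintype.equivFin ι i)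
      rwa [Equiv.symm_apply_apply] at h3
  rw [h2, h1]
  exact (Fintype.equivFin ι).symm.prod_comp
    (fun i => Real.exp (-ν.real (B i)) * ν.real (B i) ^ k i / (k i).factorial)

lemma measurableSet_eq (hN : Measurable N) {A : Set Y} (hA : MeasurableSet A) (c : ℝ≥0∞) :
    MeasurableSet {x | N x A = c} := measurable_N hN hA (measurableSet_singleton c)

lemma exists_nat (hN : IsPoisson μ ν N) {A : Set Y} (hA : MeasurableSet A)
    (hνA : ν A < ⊤) : ∀ᵐ x ∂μ, ∃ k : ℕ, N x A = k := by
  have h1 : ∀ k : ℕ, μ {x | N x A = k} =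
      ENNReal.ofReal (Real.exp (-ν.real A) * ν.real A ^ k / k.factorial) := by
    intro k
    have h2 := poisson_fintype hN (fun _ : Unit => A) (fun _ => hA) (fun _ => hνA)
      (fun i j hij => absurd (Subsingleton.elim i j) hij) (fun _ => k)
    rw [Finset.prod_const, Finset.card_univ, Fintype.card_unit, pow_one] at h2
    rw [← h2, ofReal_measureReal]
    congr 1
    ext x
    simp
  have h2 : μ (⋃ k : ℕ, {x | N x A = k}) = 1 := by
    rw [measure_iUnion]
    · simp only [h1]
      have h3 := hasSum_one_poissonMeasure (ν.real A).toNNReal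
      rw [Real.coe_toNNReal _ measureReal_nonneg] at h3
      rw [← ENNReal.ofReal_tsum_of_nonneg (fun k => by positivity) h3.summable, h3.tsum_eq,
        ENNReal.ofReal_one]
    · intro i j hij
      rw [Function.onFun, Set.disjoint_left]
      intro x hx hx'
      apply hij
      have e1 : N x A = i := hx
      have e2 : N x A = j := hx'
      have h4 : ((i : ℕ) : ℝ≥0∞) = j := by rw [← e1, ← e2]
      exact_mod_cast h4
    · exact fun k => measurableSet_eq hN.1 hA k
  have h3 : MeasurableSet (⋃ k : ℕ, {x | N x A = k}) :=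
    MeasurableSet.iUnion fun k => measurableSet_eq hN.1 hA k
  have h4 := (prob_compl_eq_zero_iff h3).2 h2
  rw [ae_iff]
  convert h4 using 2
  ext x
  simp

/-- The law of the values of a Poisson random measure. -/
lemma law (hN : IsPoisson μ ν N) {ι : Type} [Fintype ι] (B : ι → Set Y)
    (hB : ∀ i, MeasurableSet (B i)) (hfin : ∀ i, ν (B i) < ⊤)
    (hd : ∀ i j, i ≠ j → Disjoint (B i) (B j)) :
    (∀ᵐ x ∂μ, ∀ i, N x (B i) = (⌊(N x (B i)).toReal⌋₊ : ℕ)) ∧
    (Measurable fun x => fun i => ⌊(N x (B i)).toReal⌋₊) ∧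
    μ.map (fun x => fun i => ⌊(N x (B i)).toReal⌋₊) =
      Measure.pi fun i => poissonMeasure (ν.real (B i)).toNNReal := by
  have h1 : ∀ᵐ x ∂μ, ∀ i, N x (B i) = (⌊(N x (B i)).toReal⌋₊ : ℕ) := by
    rw [ae_all_iff]
    intro i
    filter_upwards [exists_nat hN (hB i) (hfin i)] with x hx
    obtain ⟨k, hk⟩ := hx
    rw [hk, ENNReal.toReal_natCast, Nat.floor_natCast]
  have h2 : Measurable fun x => fun i => ⌊(N x (B i)).toReal⌋₊ :=
    measurable_pi_lambda _ fun i => (measurable_N hN.1 (hB i)).ennreal_toReal.nat_floor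
  refine ⟨h1, h2, ?_⟩
  apply Measure.ext_of_singleton
  intro k
  rw [Measure.map_apply h2 (measurableSet_singleton k), Measure.pi_singleton]
  have h3 : μ ((fun x => fun i => ⌊(N x (B i)).toReal⌋₊) ⁻¹' {k}) =
      μ {x | ∀ i, N x (B i) = k i} := by
    apply measure_congr
    filter_upwards [h1] with x hx
    apply propext
    constructor
    · intro h4 i
      have h5 : (fun i => ⌊(N x (B i)).toReal⌋₊) = k := h4
      rw [hx i, ← h5]
    · intro h4
      show (fun i => ⌊(N x (B i)).toReal⌋₊) = k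
      funext i
      rw [h4 i, ENNReal.toReal_natCast, Nat.floor_natCast]
  rw [h3, ← ofReal_measureReal, poisson_fintype hN B hB hfin hd k,
    ENNReal.ofReal_prod_of_nonneg (fun i _ => by positivity)]
  refine Finset.prod_congr rfl fun i _ => ?_
  rw [poissonMeasure_singleton, Real.coe_toNNReal _ measureReal_nonneg]

lemma integral_exp_poisson (r : NNReal) (z : ℂ) :
    ∫ k : ℕ, Complex.exp ((k : ℂ) * z) ∂(poissonMeasure r) =
      Complex.exp ((r : ℂ) * (Complex.exp z - 1)) := by
  rw [integral_poissonMeasure r]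
  calc ∑' a : ℕ, (Real.exp (-r) * r ^ a / a.factorial : ℝ) • Complex.exp ((a : ℂ) * z)
      = ∑' a : ℕ, (Real.exp (-r) : ℂ) * (((r : ℂ) * Complex.exp z) ^ a / a.factorial) := by
        congr with a
        rw [Complex.real_smul]
        push_cast
        rw [mul_pow, ← Complex.exp_nat_mul]
        ring
    _ = (Real.exp (-r) : ℂ) * ∑' a : ℕ, (((r : ℂ) * Complex.exp z) ^ a / a.factorial) :=
        tsum_mul_left
    _ = (Real.exp (-r) : ℂ) * Complex.exp ((r : ℂ) * Complex.exp z) := by
        rw [(NormedSpace.expSeries_div_hasSum_exp ((r : ℂ) * Complex.exp z)).tsum_eq,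
          Complex.exp_eq_exp_ℂ]
    _ = _ := by
        rw [Complex.ofReal_exp, ← Complex.exp_add]
        push_cast
        ring_nf

lemma char (hN : IsPoisson μ ν N) {h : Y → ℂ} (hh : Simp ν h) :
    ∫ x, Complex.exp (∫ y, h y ∂(N x)) ∂μ = Complex.exp (∫ y, (Complex.exp (h y) - 1) ∂ν) := by
  classical
  let Z : Finset ℂ := hh.fin.toFinset.erase 0
  let B : Z → Set Y := fun i => h ⁻¹' {i.1}
  have hZ : ∀ i : Z, i.1 ≠ 0 := fun i => (Finset.mem_erase.1 i.2).1
  have hBm : ∀ i, MeasurableSet (B i) := fun i => hh.meas (measurableSet_singleton _)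
  have hBs : ∀ i : Z, B i ⊆ Function.support h := by
    intro i y hy
    have : h y = i.1 := hy
    rw [Function.mem_support, this]
    exact hZ i
  have hBf : ∀ i, ν (B i) < ⊤ := fun i => (measure_mono (hBs i)).trans_lt hh.supp
  have hBd : ∀ i j, i ≠ j → Disjoint (B i) (B j) := by
    intro i j hij
    rw [Set.disjoint_left]
    intro y hy hy'
    apply hij
    apply Subtype.ext
    have h1 : h y = i.1 := hy
    have h2 : h y = j.1 := hy'
    rw [← h1, ← h2]
  obtain ⟨hl1, hl2, hl3⟩ := law hN B hBm hBf hBd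
  have hsum : ∀ (M : Measure Y) (g : ℂ → ℂ), g 0 = 0 →
      ∑ v ∈ hh.fin.toFinset, M.real (h ⁻¹' {v}) • g v = ∑ i : Z, (M.real (B i) : ℂ) * g i.1 := by
    intro M g hg
    have h1 : ∑ v ∈ hh.fin.toFinset, M.real (h ⁻¹' {v}) • g v =
        ∑ v ∈ Z, M.real (h ⁻¹' {v}) • g v := by
      symm
      apply Finset.sum_subset (Finset.erase_subset _ _)
      intro v hv hv'
      have : v = 0 := by
        by_contra h0
        exact hv' (Finset.mem_erase.2 ⟨h0, hv⟩)
      rw [this, hg, smul_zero]
    rw [h1, ← Finset.sum_coe_sort Z]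
    refine Finset.sum_congr rfl fun i _ => ?_
    rw [Complex.real_smul]
  have hL : ∀ᵐ x ∂μ, Complex.exp (∫ y, h y ∂(N x)) =
      ∏ i : Z, Complex.exp (((⌊(N x (B i)).toReal⌋₊ : ℕ) : ℂ) * i.1) := by
    filter_upwards [hl1] with x hx
    rw [← Complex.exp_sum]
    congr 1
    have h1 : ∀ v ∈ hh.fin.toFinset, v ≠ 0 → N x (h ⁻¹' {v}) < ⊤ := by
      intro v hv hv0
      have h2 := hx ⟨v, Finset.mem_erase.2 ⟨hv0, hv⟩⟩
      have h3 : N x (h ⁻¹' {v}) = (⌊(N x (h ⁻¹' {v})).toReal⌋₊ : ℕ) := h2
      rw [h3]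
      exact ENNReal.natCast_lt_top _
    rw [(integral_map_fin (N x) hh.meas hh.fin (fiber_lt_top (N x) hh.fin h1) (fun v => v) rfl).2,
      hsum (N x) (fun v => v) rfl]
    refine Finset.sum_congr rfl fun i _ => ?_
    congr 1
    have h4 := hx i
    rw [measureReal_def, h4, ENNReal.toReal_natCast]
    simp
  rw [integral_congr_ae hL]
  have hI : ∫ x, ∏ i : Z, Complex.exp (((⌊(N x (B i)).toReal⌋₊ : ℕ) : ℂ) * i.1) ∂μ =
      ∫ k : Z → ℕ, ∏ i : Z, Complex.exp ((k i : ℂ) * i.1)
        ∂(μ.map (fun x => fun i => ⌊(N x (B i)).toReal⌋₊)) := by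
    rw [integral_map hl2.aemeasurable (Measurable.of_discrete).aestronglyMeasurable]
  rw [hI, hl3]
  have hF := integral_fintype_prod_eq_prod (𝕜 := ℂ) (ι := Z)
    (fun (i : Z) (k : ℕ) => Complex.exp ((k : ℂ) * i.1))
    (μ := fun i => poissonMeasure (ν.real (B i)).toNNReal)
  rw [hF]
  simp only [integral_exp_poisson]
  rw [← Complex.exp_sum]
  congr 1
  have h5 : ∀ v, v ≠ 0 → ν (h ⁻¹' {v}) < ⊤ := by
    apply fiber_lt_top ν hh.fin
    intro v hv hv0
    exact hBf ⟨v, Finset.mem_erase.2 ⟨hv0, hv⟩⟩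
  rw [(integral_map_fin ν hh.meas hh.fin h5 (fun v => Complex.exp v - 1) (by simp)).2,
    hsum ν (fun v => Complex.exp v - 1) (by simp)]
  refine Finset.sum_congr rfl fun i _ => ?_
  rw [Real.coe_toNNReal _ measureReal_nonneg]

end poi

end CharAux

theorem measurable_integral_fin {N : X → Measure Y} (hN : Measurable N) {h : Y → ℂ}
    (hm : Measurable h) (hf : (Set.range h).Finite) : Measurable fun x => ∫ y, h y ∂(N x) :=
  CharAux.measurable_int hN hm hf

theorem measurable_integral_fin_real {N : X → Measure Y} (hN : Measurable N) {h : Y → ℝ}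
    (hm : Measurable h) (hf : (Set.range h).Finite) : Measurable fun x => ∫ y, h y ∂(N x) :=
  CharAux.measurable_int hN hm hf

variable {μ : Measure X} [IsProbabilityMeasure μ] {ν : Measure Y} {N : X → Measure Y}

theorem IsPoisson.exists_nat (hN : IsPoisson μ ν N) {A : Set Y} (hA : MeasurableSet A)
    (hνA : ν A < ⊤) : ∀ᵐ x ∂μ, ∃ k : ℕ, N x A = k :=
  CharAux.exists_nat hN hA hνA

theorem IsPoisson.ae_lt_top (hN : IsPoisson μ ν N) {A : Set Y} (hA : MeasurableSet A)
    (hνA : ν A < ⊤) : ∀ᵐ x ∂μ, N x A < ⊤ := by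
  filter_upwards [hN.exists_nat hA hνA] with x hx
  obtain ⟨k, hk⟩ := hx
  rw [hk]
  exact ENNReal.natCast_lt_top k

theorem IsPoisson.measure_ne_zero_le (hN : IsPoisson μ ν N) {A : Set Y} (hA : MeasurableSet A)
    (hνA : ν A < ⊤) : μ {x | N x A ≠ 0} ≤ ν A := by
  have h2 := CharAux.poisson_fintype hN (fun _ : Unit => A) (fun _ => hA) (fun _ => hνA)
    (fun i j hij => absurd (Subsingleton.elim i j) hij) (fun _ => 0)
  rw [Finset.prod_const, Finset.card_univ, Fintype.card_unit, pow_one] at h2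
  have h3 : {x | ∀ _ : Unit, N x A = ((0 : ℕ) : ℝ≥0∞)} = {x | N x A = 0} := by
    ext x
    simp
  rw [h3, pow_zero, mul_one, Nat.factorial_zero, Nat.cast_one, div_one] at h2
  have h4 : MeasurableSet {x | N x A = 0} := CharAux.measurableSet_eq hN.1 hA 0
  have h5 : μ.real {x | N x A ≠ 0} = 1 - Real.exp (-ν.real A) := by
    have : {x | N x A ≠ 0} = {x | N x A = 0}ᶜ := rfl
    rw [this, probReal_compl_eq_one_sub h4, h2]
  have h6 : μ.real {x | N x A ≠ 0} ≤ ν.real A := by
    rw [h5]
    have := Real.add_one_le_exp (-ν.real A)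
    linarith
  rw [← ofReal_measureReal (μ := μ) (s := {x | N x A ≠ 0}), ← ofReal_measureReal (h := hνA.ne)]
  exact ENNReal.ofReal_le_ofReal h6

theorem IsPoisson.char (hN : IsPoisson μ ν N) {h : Y → ℂ} (hh : Simp ν h)
    (hre : ∀ y, (h y).re ≤ 0) :
    ∫ x, Complex.exp (∫ y, h y ∂(N x)) ∂μ = Complex.exp (∫ y, (Complex.exp (h y) - 1) ∂ν) :=
  CharAux.char hN hh

namespace CharAux

lemma simp_add {M : Measure Y} {f g : Y → ℂ} (hf : Simp M f) (hg : Simp M g) :
    Simp M (fun y => f y + g y) := by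
  refine ⟨hf.meas.add hg.meas, ?_, ?_⟩
  · refine (hf.fin.image2 (fun a b => a + b) hg.fin).subset ?_
    rintro _ ⟨y, rfl⟩
    exact ⟨f y, ⟨y, rfl⟩, g y, ⟨y, rfl⟩, rfl⟩
  · refine (measure_mono ?_).trans_lt
      ((measure_union_le (Function.support f) (Function.support g)).trans_lt
        (ENNReal.add_lt_top.2 ⟨hf.supp, hg.supp⟩))
    intro y hy
    by_contra hc
    rw [Set.mem_union, not_or, Function.notMem_support, Function.notMem_support] at hc
    rw [Function.mem_support, hc.1, hc.2, add_zero] at hy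
    exact hy rfl

lemma simp_comp {M : Measure Y} {f : Y → ℝ} (hf : Simp M f) {g : ℝ → ℂ} (hg : Measurable g)
    (h0 : g 0 = 0) : Simp M (fun y => g (f y)) := by
  refine ⟨hg.comp hf.meas, ?_, ?_⟩
  · refine (hf.fin.image g).subset ?_
    rintro _ ⟨y, rfl⟩
    exact ⟨f y, ⟨y, rfl⟩, rfl⟩
  · refine (measure_mono ?_).trans_lt hf.supp
    intro y hy hc
    apply hy
    show g (f y) = 0
    rw [hc, h0]

lemma simp_zero {M : Measure Y} : Simp M (fun _ : Y => (0 : ℂ)) := by
  refine ⟨measurable_const, (Set.finite_singleton (0 : ℂ)).subset ?_, ?_⟩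
  · rintro _ ⟨y, rfl⟩
    rfl
  · have : Function.support (fun _ : Y => (0 : ℂ)) = ∅ := Function.support_fun_zero
    rw [this, measure_empty]
    exact ENNReal.zero_lt_top

lemma simp_sum {M : Measure Y} {ι : Type} (s : Finset ι) (f : ι → Y → ℂ)
    (hf : ∀ i ∈ s, Simp M (f i)) : Simp M (fun y => ∑ i ∈ s, f i y) := by
  classical
  induction s using Finset.induction_on with
  | empty =>
    simp only [Finset.sum_empty]
    exact simp_zero
  | insert i s hi ih =>
    simp only [Finset.sum_insert hi]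
    exact simp_add (hf i (Finset.mem_insert_self i s))
      (ih fun j hj => hf j (Finset.mem_insert_of_mem hj))

lemma simp_integrable {E : Type} [NormedAddCommGroup E] [NormedSpace ℝ E] [CompleteSpace E]
    [MeasurableSpace E] [BorelSpace E] {M : Measure Y} {f : Y → E} (hf : Simp M f) :
    Integrable f M := by
  refine sf_integrable M hf.meas hf.fin fun v hv => ?_
  refine (measure_mono ?_).trans_lt hf.supp
  intro y hy hc
  apply hv
  have : f y = v := hy
  rw [← this]
  exact hc

/-- the exponent -/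
noncomputable def ex (v : Y → ℝ) {M : Measure Y} (s : Finset {h : Y → ℝ // Simp M h})
    (t : {h : Y → ℝ // Simp M h} → ℝ) (y : Y) : ℂ :=
  (Real.log (v y) : ℂ) + ∑ h ∈ s, ((t h * h.1 y : ℝ) : ℂ) * Complex.I

lemma measurable_g (t : ℝ) : Measurable fun r : ℝ => ((t * r : ℝ) : ℂ) * Complex.I :=
  (Complex.measurable_ofReal.comp (measurable_const.mul measurable_id)).mul_const _

end CharAux

open CharAux in
theorem IsPoisson.char_mf (hN : IsPoisson μ ν N) {B : Set Y} (hB : MeasurableSet B)
    (hνB : ν B < ⊤) {v : Y → ℝ} (hv : Amp (1 / 2) B v)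
    (s : Finset {h : Y → ℝ // Simp ν h}) (t : {h : Y → ℝ // Simp ν h} → ℝ) :
    ∫ x, (mf N v x : ℂ) *
      Complex.exp (((∑ h ∈ s, t h * ∫ y, h.1 y ∂(N x) : ℝ) : ℂ) * Complex.I) ∂μ =
      Complex.exp (∫ y, ((v y : ℂ) *
        Complex.exp (((∑ h ∈ s, t h * h.1 y : ℝ) : ℂ) * Complex.I) - 1) ∂ν) := by
  have hlog : Simp ν (fun y => Real.log (v y)) := hv.log_simp hνB
  have hex : Simp ν (ex v s t) := simp_add (simp_comp hlog Complex.measurable_ofReal (by simp))
    (simp_sum s _ fun h _ => simp_comp h.2 (measurable_g (t h)) (by simp))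
  have hR : ∀ y, (v y : ℂ) * Complex.exp (((∑ h ∈ s, t h * h.1 y : ℝ) : ℂ) * Complex.I) =
      Complex.exp (ex v s t y) := by
    intro y
    unfold ex
    rw [Complex.exp_add, ← Complex.ofReal_exp, Real.exp_log (hv.pos (by norm_num) y)]
    congr 2
    push_cast
    rw [Finset.sum_mul]
  simp only [hR]
  rw [← CharAux.char hN hex]
  apply integral_congr_ae
  have hae1 : ∀ᵐ x ∂μ, N x B < ⊤ := hN.ae_lt_top hB hνB
  have hae2 : ∀ᵐ x ∂μ, ∀ h ∈ s, N x (Function.support h.1) < ⊤ :=
    (Filter.eventually_all_finset s).2 fun h _ =>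
      hN.ae_lt_top (measurableSet_support h.2.meas) h.2.supp
  filter_upwards [hae1, hae2] with x hx1 hx2
  have hlogx : Simp (N x) (fun y => Real.log (v y)) := hv.log_simp hx1
  have hhx : ∀ h ∈ s, Simp (N x) h.1 := fun h hh => ⟨h.2.meas, h.2.fin, hx2 h hh⟩
  have h1 : ∫ y, ex v s t y ∂(N x) = ((∫ y, Real.log (v y) ∂(N x) : ℝ) : ℂ) +
      ∑ h ∈ s, ((t h * ∫ y, h.1 y ∂(N x) : ℝ) : ℂ) * Complex.I := by
    unfold ex
    rw [integral_add]
    · congr 1
      · exact integral_complex_ofReal
      · rw [integral_finsetSum]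
        · refine Finset.sum_congr rfl fun h hh => ?_
          rw [integral_mul_const, integral_complex_ofReal, integral_const_mul]
        · intro h hh
          exact simp_integrable (simp_comp (hhx h hh) (measurable_g (t h)) (by simp))
    · exact simp_integrable (simp_comp hlogx Complex.measurable_ofReal (by simp))
    · exact simp_integrable (simp_sum s _ fun h hh =>
        simp_comp (hhx h hh) (measurable_g (t h)) (by simp))
  rw [h1, Complex.exp_add, ← Complex.ofReal_exp]
  unfold mf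
  congr 2
  push_cast
  rw [Finset.sum_mul]

end Pool.Agent.Lib.Pf720po
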