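import Pool.Agent.Lib.Pf720po.Kron
import Pool.Agent.Lib.Pf720po.Char

/-!
# Collisions have density zero

MODULE Coll (uses `tendsto_avg_zero`, `ae_summable` of Kron.lean, `IsPoisson.measure_ne_zero_le` of Char.lean,
`maxBd_poly`, `MaxBd`, `NS` of Pf720ae/Poly/MaxBd.lean, `glue`, `ev_glue` of Pf720pi, Pf720pp/Base.lean).

Proof of `coll_zero`. Let `p l = q' l - q l` and call `l` visible if `0 < (p l i).natDegree` for some `i`. Let
`κ₁ = {l // visible}` (nonempty), `κ₂ = {l // ¬ visible}`. For `m = glue a b` (`a : κ₁ → ℕ`, `b : κ₂ → ℕ`) one has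
`ev q m = ev q₁ a + ev q₂ b` (`ev_glue`) and `ev q' m - ev q m = ev p₁ a + C` with a constant vector `C`
(the polynomials `p l i`, `l` not visible, have degree `0`); absorb `C` in one of the visible `p l`
(subtracting/adding constants does not change `natDegree > 0`), call the new family `p'`, so
`ev q' m - ev q m = ev p' a`. Then
`(R.S (ev q m))⁻¹' B ∩ (R.S (ev q' m))⁻¹' B = (R.S (ev q m))⁻¹' (D a)`, `D a = B ∩ (R.S (ev p' a))⁻¹' B`, and
`N x ((R.S (ev q m))⁻¹' (D a)) = N (act.S (ev q m) x) (D a)` (`hNR`, `Measure.map_apply`). So the indicator is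
`F a (act.S (ev q₂ b) (act.S (ev q₁ a) x))`, `F a x = if N x (D a) = 0 then 0 else 1`, with
`∫⁻ (F a)^2 dμ = μ {N x (D a) ≠ 0} ≤ ν (D a)`.
Let `S₂ b x = act.S (ev q₂ b) x`. `maxBd_poly` gives a constant `Am` with
`∫⁻ (NS S₂ g)^2 ≤ Am * ∫⁻ g^2`, where `NS S₂ g x` is the supremum over `M₂` of the averages of `g (S₂ b x)`
over boxes with sides `M₂ l + 1`. Put `H a x = NS S₂ (F a) (act.S (ev q₁ a) x)`;
`∫⁻ H a = ∫⁻ NS S₂ (F a) ≤ (∫⁻ (NS S₂ (F a))^2)^{1/2} ≤ (Am * ν (D a))^{1/2}` (Hölder / Cauchy-Schwarz on a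
probability space, `ENNReal.lintegral_mul_le_Lp_mul_Lq`). With `hret` for `Fin k ≃ κ₁` and `p'`:
`∑_a (∫⁻ H a) / ∏ (a l + 1) < ∞`; `ae_summable` and `tendsto_avg_zero` give `avg M₁ (fun a => (H a x).toReal) → 0`
for a.e. `x` (`M₁ : κ₁ → ℕ`). Finally, for `M` with all `M l > 0`, the average over `box M` is the average over
`a ∈ box M₁` of the averages over `b ∈ box M₂` (`Equiv.piEquivPiSubtypeProd`, sums over product boxes), hence
`0 ≤ avg M (indicator) ≤ avg M₁ (fun a => (H a x).toReal)`, where `M₁`, `M₂` are the restrictions of `M`; squeeze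
(`M ↦ M₁` tends to `atTop`).
The measurability of `x ↦ N x (D a)`: `hN.1` and `Measure.measurable_coe`.
-/

set_option autoImplicit false
set_option linter.unusedSectionVars false

open MeasureTheory Filter Topology ProbabilityTheory
open scoped ENNReal

namespace Pool.Agent.Lib.Pf720po

open Pool.Agent.Lib.Pf720ae
open Pool.Agent.Lib.Pf720pp (PV ev ev_glue)
open Pool.Agent.Lib.Pf720pi (glue avg_glue)

variable {X Y : Type} {mX : MeasurableSpace X} {mY : MeasurableSpace Y}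
  {κ : Type} [Fintype κ] [DecidableEq κ] {d : ℕ}

namespace CollAux

lemma lintegral_NS_le {μ : Measure X} [IsProbabilityMeasure μ] {S : (κ → ℕ) → X → X}
    (hS : ∀ m, Measurable (S m)) {A : ℝ≥0∞}
    (hA : ∀ g : X → ℝ≥0∞, Measurable g → ∫⁻ x, (NS S g x) ^ 2 ∂μ ≤ A * ∫⁻ x, (g x) ^ 2 ∂μ)
    {g : X → ℝ≥0∞} (hg : Measurable g) :
    ∫⁻ x, NS S g x ∂μ ≤ (A * ∫⁻ x, (g x) ^ 2 ∂μ) ^ (1 / 2 : ℝ) := by
  have h := ENNReal.lintegral_mul_le_Lp_mul_Lq μ (p := 2) (q := 2) Real.HolderConjugate.two_two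
    (f := NS S g) (g := fun _ => 1) (measurable_NS hS hg).aemeasurable aemeasurable_const
  simp only [Pi.mul_apply, mul_one, ENNReal.one_rpow, lintegral_const, measure_univ] at h
  refine h.trans (ENNReal.rpow_le_rpow ?_ (by norm_num))
  have e : ∀ x, NS S g x ^ (2 : ℝ) = (NS S g x) ^ 2 := fun x => ENNReal.rpow_two _
  simp only [e]
  exact hA g hg

lemma lintegral_ind_sq {μ : Measure X} {P : X → Prop} [DecidablePred P]
    (hP : MeasurableSet {x | ¬ P x}) :
    ∫⁻ x, (ENNReal.ofReal (if P x then (0 : ℝ) else 1)) ^ 2 ∂μ = μ {x | ¬ P x} := by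
  rw [← lintegral_indicator_one hP]
  refine lintegral_congr fun x => ?_
  by_cases h : P x
  · simp [h]
  · simp [h]

lemma rpow_half_le {A v : ℝ≥0∞} (hA : A ≠ ⊤) (hv : v ≠ ⊤) :
    (A * v) ^ (1 / 2 : ℝ) ≤ ENNReal.ofReal (Real.sqrt A.toReal * Real.sqrt v.toReal) := by
  rw [← Real.sqrt_mul ENNReal.toReal_nonneg, ← ENNReal.toReal_mul, Real.sqrt_eq_rpow,
    ENNReal.toReal_rpow, ENNReal.ofReal_toReal]
  exact ENNReal.rpow_ne_top_of_nonneg (by norm_num) (ENNReal.mul_ne_top hA hv)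

lemma summable_reindex {κ' : Type} [Fintype κ'] {ν : Measure Y} (R : MAct (Fin d → ℤ) Y ν) {B : Set Y}
    (hret : Ret R B) (p : κ' → PV d) (hp : ∀ l, ∃ i, 0 < (p l i).natDegree) :
    Summable fun m : κ' → ℕ =>
      Real.sqrt (ν.real (B ∩ (R.S (ev p m)) ⁻¹' B)) / ∏ l, ((m l : ℝ) + 1) := by
  have e := Fintype.equivFin κ'
  have h := hret (Fintype.card κ') (fun j => p (e.symm j)) (fun j => hp _)
  have h2 := ((e.arrowCongr (Equiv.refl ℕ)).summable_iff).2 h
  refine h2.congr fun m => ?_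
  have h3 : ev (fun j => p (e.symm j)) ((e.arrowCongr (Equiv.refl ℕ)) m) = ev p m := by
    funext i
    unfold ev
    exact Equiv.sum_comp e.symm (fun l => (p l i).eval ((m l : ℕ) : ℤ))
  have h4 : ∏ j, ((((e.arrowCongr (Equiv.refl ℕ)) m) j : ℝ) + 1) = ∏ l, ((m l : ℝ) + 1) :=
    Equiv.prod_comp e.symm (fun l => ((m l : ℝ) + 1))
  simp only [Function.comp_def]
  rw [h3, h4]

lemma tendsto_restrict (vis : κ → Prop) :
    Tendsto (fun M : κ → ℕ => fun l : {l // vis l} => M l.1) atTop atTop := by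
  classical
  refine tendsto_atTop_atTop.2 fun b => ⟨fun l => if h : vis l then b ⟨l, h⟩ else 0, fun M hM l => ?_⟩
  have h := hM l.1
  simp only [l.2, dif_pos] at h
  exact h

/-- splitting of the difference of the exponents -/
lemma exists_diff (q q' : κ → PV d) (vis : κ → Prop) [DecidablePred vis]
    (hvis : ∀ l, vis l ↔ ∃ i, 0 < (q' l i - q l i).natDegree) (l₀ : {l // vis l}) :
    ∃ p : {l // vis l} → PV d, (∀ l, ∃ i, 0 < (p l i).natDegree) ∧
      ∀ (a : {l // vis l} → ℕ) (b : {l // ¬ vis l} → ℕ),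
        ev q' (glue vis a b) = ev p a + ev q (glue vis a b) := by
  refine ⟨fun l i => (q' l.1 i - q l.1 i) + if l = l₀ then
    Polynomial.C (∑ l' : {l // ¬ vis l}, (q' l'.1 i - q l'.1 i).eval 0) else 0, fun l => ?_,
    fun a b => ?_⟩
  · obtain ⟨i, hi⟩ := (hvis l.1).1 l.2
    refine ⟨i, ?_⟩
    by_cases h : l = l₀
    · simp only [h, if_true]
      rw [Polynomial.natDegree_add_C]
      rw [h] at hi
      exact hi
    · simp only [h, if_false, add_zero]
      exact hi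
  · rw [ev_glue, ev_glue]
    funext i
    simp only [ev, Pi.add_apply, Polynomial.eval_add, Polynomial.eval_sub]
    rw [Finset.sum_add_distrib, Finset.sum_sub_distrib]
    have h1 : ∑ l : {l // vis l}, (if l = l₀ then
        Polynomial.C (∑ l' : {l // ¬ vis l}, ((q' l'.1 i).eval 0 - (q l'.1 i).eval 0)) else
          (0 : Polynomial ℤ)).eval ((a l : ℕ) : ℤ) =
        ∑ l' : {l // ¬ vis l}, ((q' l'.1 i).eval 0 - (q l'.1 i).eval 0) := by
      rw [Finset.sum_eq_single l₀]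
      · rw [if_pos rfl, Polynomial.eval_C]
      · intro l _ hl
        rw [if_neg hl, Polynomial.eval_zero]
      · intro h
        exact absurd (Finset.mem_univ _) h
    rw [h1]
    have h2 : ∀ l' : {l // ¬ vis l}, (q' l'.1 i).eval 0 - (q l'.1 i).eval 0 =
        (q' l'.1 i).eval ((b l' : ℕ) : ℤ) - (q l'.1 i).eval ((b l' : ℕ) : ℤ) := by
      intro l'
      have h3 : (q' l'.1 i - q l'.1 i).natDegree = 0 := by
        by_contra h
        exact l'.2 ((hvis l'.1).2 ⟨i, Nat.pos_of_ne_zero h⟩)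
      obtain ⟨c, hc⟩ := Polynomial.natDegree_eq_zero.1 h3
      rw [← Polynomial.eval_sub, ← Polynomial.eval_sub, ← hc]
      simp
    rw [Finset.sum_congr rfl fun l' _ => h2 l', Finset.sum_sub_distrib]
    ring

end CollAux

open CollAux

theorem coll_zero {μ : Measure X} [IsProbabilityMeasure μ] {ν : Measure Y} {N : X → Measure Y}
    (hN : IsPoisson μ ν N) (act : MAct (Fin d → ℤ) X μ) (R : MAct (Fin d → ℤ) Y ν)
    (hNR : ∀ w x, N (act.S w x) = (N x).map (R.S w)) {B : Set Y} (hB : MeasurableSet B)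
    (hνB : ν B < ⊤) (hret : Ret R B) (q q' : κ → PV d)
    (hqq' : ∃ l i, 0 < (q' l i - q l i).natDegree) :
    ∀ᵐ x ∂μ, Tendsto (fun M : κ → ℕ => avg M fun m =>
      if N x ((R.S (ev q m)) ⁻¹' B ∩ (R.S (ev q' m)) ⁻¹' B) = 0 then (0 : ℝ) else 1)
      atTop (𝓝 0) := by
  classical
  obtain ⟨vis, hvis⟩ : ∃ vis : κ → Prop, ∀ l, vis l ↔ ∃ i, 0 < (q' l i - q l i).natDegree :=
    ⟨_, fun _ => Iff.rfl⟩
  obtain ⟨l₀, hl₀⟩ := hqq'
  have hv0 : vis l₀ := (hvis l₀).2 hl₀
  have : Nonempty {l // vis l} := ⟨⟨l₀, hv0⟩⟩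
  obtain ⟨p, hp, hev⟩ := exists_diff q q' vis hvis ⟨l₀, hv0⟩
  -- the sets
  obtain ⟨D, hD⟩ : ∃ D : ({l // vis l} → ℕ) → Set Y, ∀ a, D a = B ∩ (R.S (ev p a)) ⁻¹' B :=
    ⟨_, fun _ => rfl⟩
  have hDm : ∀ a, MeasurableSet (D a) := by
    intro a
    rw [hD]
    exact hB.inter ((R.mp _).measurable hB)
  have hDν : ∀ a, ν (D a) < ⊤ := by
    intro a
    rw [hD]
    exact (measure_mono Set.inter_subset_left).trans_lt hνB
  have hset : ∀ a b, (R.S (ev q (glue vis a b))) ⁻¹' B ∩ (R.S (ev q' (glue vis a b))) ⁻¹' B =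
      (R.S (ev q (glue vis a b))) ⁻¹' (D a) := by
    intro a b
    ext y
    simp only [hD, Set.mem_inter_iff, Set.mem_preimage]
    rw [hev a b, R.add]
  have hNx : ∀ a b x, N x ((R.S (ev q (glue vis a b))) ⁻¹' B ∩
      (R.S (ev q' (glue vis a b))) ⁻¹' B) = N (act.S (ev q (glue vis a b)) x) (D a) := by
    intro a b x
    rw [hset, hNR, Measure.map_apply (R.mp _).measurable (hDm a)]
  -- the functions
  obtain ⟨F, hF⟩ : ∃ F : ({l // vis l} → ℕ) → X → ℝ,
      ∀ a x, F a x = if N x (D a) = 0 then 0 else 1 := ⟨_, fun _ _ => rfl⟩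
  have hF0 : ∀ a x, 0 ≤ F a x := by
    intro a x
    rw [hF]
    split_ifs <;> norm_num
  have hmeasN : ∀ a, Measurable fun x => N x (D a) := fun a =>
    (Measure.measurable_coe (hDm a)).comp hN.1
  have hms : ∀ a, MeasurableSet {x | N x (D a) = 0} := fun a =>
    (hmeasN a) (measurableSet_singleton 0)
  have hFm : ∀ a, Measurable (F a) := by
    intro a
    have : F a = fun x => if N x (D a) = 0 then (0 : ℝ) else 1 := funext fun x => hF a x
    rw [this]
    exact Measurable.ite (hms a) measurable_const measurable_const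
  obtain ⟨S₂, hS₂⟩ : ∃ S₂ : ({l // ¬ vis l} → ℕ) → X → X,
      ∀ b x, S₂ b x = act.S (ev (fun l : {l // ¬ vis l} => q l.1) b) x := ⟨_, fun _ _ => rfl⟩
  have hS₂m : ∀ b, Measurable (S₂ b) := by
    intro b
    have : S₂ b = act.S (ev (fun l : {l // ¬ vis l} => q l.1) b) := funext fun x => hS₂ b x
    rw [this]
    exact (act.mp _).measurable
  have hmax : MaxBd μ S₂ := (maxBd_poly act.zero act.add act.mp
    (fun l : {l // ¬ vis l} => q l.1)).congr fun b x => (hS₂ b x).symm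
  obtain ⟨A, hA, hAg⟩ := hmax
  obtain ⟨G, hG⟩ : ∃ G : ({l // vis l} → ℕ) → X → ℝ≥0∞,
      ∀ a, G a = fun x => ENNReal.ofReal (F a x) := ⟨_, fun _ => rfl⟩
  have hGm : ∀ a, Measurable (G a) := by
    intro a
    rw [hG]
    exact (hFm a).ennreal_ofReal
  obtain ⟨H, hH⟩ : ∃ H : ({l // vis l} → ℕ) → X → ℝ≥0∞,
      ∀ a, H a = fun x => NS S₂ (G a) (act.S (ev (fun l : {l // vis l} => q l.1) a) x) :=
    ⟨_, fun _ => rfl⟩
  have hHm : ∀ a, Measurable (H a) := by
    intro a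
    rw [hH]
    exact (measurable_NS hS₂m (hGm a)).comp (act.mp _).measurable
  have hHi : ∀ a, ∫⁻ x, H a x ∂μ ≤
      ENNReal.ofReal (Real.sqrt A.toReal * Real.sqrt (ν.real (D a))) := by
    intro a
    have h1 : ∫⁻ x, H a x ∂μ = ∫⁻ x, NS S₂ (G a) x ∂μ := by
      rw [hH]
      exact (act.mp _).lintegral_comp (measurable_NS hS₂m (hGm a))
    have h2 := lintegral_NS_le hS₂m hAg (hGm a)
    have h3 : ∫⁻ x, (G a x) ^ 2 ∂μ ≤ ν (D a) := by
      have h4 : ∫⁻ x, (G a x) ^ 2 ∂μ = μ {x | ¬ N x (D a) = 0} := by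
        rw [← lintegral_ind_sq (P := fun x => N x (D a) = 0) (hms a).compl]
        refine lintegral_congr fun x => ?_
        rw [hG]
        simp only [hF]
      rw [h4]
      exact hN.measure_ne_zero_le (hDm a) (hDν a)
    rw [h1]
    refine h2.trans ((ENNReal.rpow_le_rpow (mul_le_mul_right h3 A) (by norm_num)).trans ?_)
    exact rpow_half_le hA (hDν a).ne
  have hsum : Summable fun a : {l // vis l} → ℕ =>
      (Real.sqrt A.toReal * Real.sqrt (ν.real (D a))) / ∏ l, ((a l : ℝ) + 1) := by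
    have h1 := (summable_reindex R hret p hp).mul_left (Real.sqrt A.toReal)
    refine h1.congr fun a => ?_
    rw [hD, mul_div_assoc]
  have hae := ae_summable hHm (fun a => by positivity) hHi hsum
  filter_upwards [hae] with x hx
  obtain ⟨hfin, hsx⟩ := hx
  have h1 := (tendsto_avg_zero (fun a => ENNReal.toReal_nonneg) hsx).comp (tendsto_restrict vis)
  refine squeeze_zero' (Eventually.of_forall fun M => avg_nonneg M fun m => ?_) ?_ h1
  · split_ifs <;> norm_num
  · filter_upwards [eventually_pos (κ := κ)] with M hM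
    rw [avg_glue vis]
    refine avg_mono _ fun a => ?_
    have h2 : ∀ b, (if N x ((R.S (ev q (glue vis a b))) ⁻¹' B ∩
        (R.S (ev q' (glue vis a b))) ⁻¹' B) = 0 then (0 : ℝ) else 1) =
        F a (S₂ b (act.S (ev (fun l : {l // vis l} => q l.1) a) x)) := by
      intro b
      rw [hNx, hF, hS₂, ← act.add, ev_glue, add_comm]
    have h3 : ENNReal.ofReal (avg (fun l : {l // ¬ vis l} => M l.1) fun b =>
        F a (S₂ b (act.S (ev (fun l : {l // vis l} => q l.1) a) x))) ≤ H a x := by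
      rw [hH, hG]
      exact ofReal_avg_le_NS (U := S₂) (M := fun l : {l // ¬ vis l} => M l.1) (fun l => hM l.1) (F a)
        (hF0 a) _
    have h4 := (ENNReal.ofReal_le_iff_le_toReal (hfin a).ne).1 h3
    simp only [h2]
    exact h4

end Pool.Agent.Lib.Pf720po
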