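import Pool.Agent.Lib.Pf720po.Orth0

/-!
# Convergence of averages and conditional expectations

MODULE CondCvg (needs the lemma `setIntegral_eq_zero_of_char` of Orth0.lean, `Cvg`, `avg` and Mathlib).

* `cvg_condExp`. Let `dg n = (n, …, n)` and `L ω = limsup_n avg (dg n) (Ψ · ω)`: measurable, `|L| ≤ 1`, and
  for a.e. `ω` the averages `avg M (Ψ · ω)` tend to `L ω` along `atTop` (hypothesis and uniqueness of
  limits; same argument as in the proof of `cvg_of_coord`, file Pf720ae/Osc/Multi.lean, which also has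
  the following suprema). For `n : ℕ` let `W n ω = ⨆ M : {M : κ → ℕ // ∀ l, n ≤ M l}, |avg M (Ψ · ω) - L ω|`
  (countable supremum, measurable, `0 ≤ W n ≤ 2`), which tends to `0` a.e., so `∫ W n → 0` (dominated
  convergence). Let `g n = P[W n | m₀]`, so `∫ g n = ∫ W n → 0`, `0 ≤ g n` a.e. By Fatou
  (`lintegral_liminf_le` for `ENNReal.ofReal ∘ g n`) `liminf g n = 0` a.e. For `M` with `∀ l, n ≤ M l`, a.e.
  `|avg M (fun m => P[Ψ m | m₀] ω) - P[L | m₀] ω| = |P[avg M Ψ - L | m₀] ω| ≤ P[|avg M Ψ - L| | m₀] ω ≤ g n ω`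
  (`condExp_sub`, `condExp_finset_sum`/`condExp_smul`, `condExp_mono`; countably many `M`, `n`). For such `ω`
  with `liminf g n ω = 0`: for every `ε > 0` there is `n` with `g n ω < ε`, hence
  `|avg M (…) - P[L|m₀] ω| < ε` for all `M ≥ (n, …, n)`: the averages converge to `P[L | m₀] ω`.
* `condExp_of_law`. `φ = Ψ - Φ` satisfies the hypothesis of `setIntegral_eq_zero_of_char`, so
  `∫_D Ψ = ∫_D Φ` for all `D` in `⨆ comap (K i)`; `Φ` is measurable for this σ-algebra: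
  `ae_eq_condExp_of_forall_setIntegral_eq`. (`⨆ i, comap (K i) ≤ mΩ` since the `K i` are measurable.)
* `cvg_of_law`. Apply `cvg_condExp` to `c m * Ψ m` and `P[c m * Ψ m | m₀] = c m * P[Ψ m | m₀] = c m * Φ m` a.e.
  for all `m` (countable).
-/

set_option autoImplicit false
set_option linter.unusedSectionVars false

open MeasureTheory Filter Topology ProbabilityTheory
open scoped ENNReal

namespace Pool.Agent.Lib.Pf720po

open Pool.Agent.Lib.Pf720ae

variable {κ : Type} [Fintype κ] [DecidableEq κ]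

theorem cvg_condExp {Ω : Type} {m₀ mΩ : MeasurableSpace Ω} (hm : m₀ ≤ mΩ) (P : Measure Ω)
    [IsProbabilityMeasure P] {Ψ : (κ → ℕ) → Ω → ℝ} (hΨm : ∀ m, Measurable (Ψ m))
    (hΨ : ∀ m ω, |Ψ m ω| ≤ 1) (h : ∀ᵐ ω ∂P, Cvg fun m => Ψ m ω) :
    ∀ᵐ ω ∂P, Cvg fun m => (P[Ψ m | m₀]) ω := by
  -- the limit function
  set dg : ℕ → κ → ℕ := fun n _ => n with hdg
  have hdgt : Tendsto dg atTop atTop :=
    tendsto_atTop.2 fun b => (eventually_ge_atTop (∑ l, b l)).mono fun n hn l =>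
      (Finset.single_le_sum (f := fun l => b l) (fun _ _ => Nat.zero_le _)
        (Finset.mem_univ l)).trans hn
  have hAm : ∀ M : κ → ℕ, Measurable fun ω => avg M (fun m => Ψ m ω) := fun M =>
    (Finset.measurable_fun_sum _ fun m _ => hΨm m).const_mul _
  have hA1 : ∀ (M : κ → ℕ) ω, |avg M (fun m => Ψ m ω)| ≤ 1 := fun M ω =>
    abs_avg_le_of_le zero_le_one fun m => hΨ m ω
  set L : Ω → ℝ := fun ω => limsup (fun n => avg (dg n) (fun m => Ψ m ω)) atTop with hL
  have hLm : Measurable L := Measurable.limsup fun n => hAm (dg n)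
  have hL1 : ∀ ω, |L ω| ≤ 1 := by
    intro ω
    have hbu : IsBoundedUnder (· ≤ ·) atTop (fun n => avg (dg n) (fun m => Ψ m ω)) :=
      ⟨1, eventually_map.2 (Eventually.of_forall fun n => (abs_le.1 (hA1 (dg n) ω)).2)⟩
    have hbl : IsBoundedUnder (· ≥ ·) atTop (fun n => avg (dg n) (fun m => Ψ m ω)) :=
      ⟨-1, eventually_map.2 (Eventually.of_forall fun n => (abs_le.1 (hA1 (dg n) ω)).1)⟩
    rw [abs_le]
    constructor
    · exact le_limsup_of_frequently_le
        (Eventually.frequently (Eventually.of_forall fun n => (abs_le.1 (hA1 (dg n) ω)).1)) hbu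
    · exact limsup_le_of_le hbl.isCoboundedUnder_le
        (Eventually.of_forall fun n => (abs_le.1 (hA1 (dg n) ω)).2)
  have hLlim : ∀ᵐ ω ∂P, Tendsto (fun M : κ → ℕ => avg M (fun m => Ψ m ω)) atTop (𝓝 (L ω)) := by
    filter_upwards [h] with ω hω
    obtain ⟨l, hl⟩ := hω
    have h2 : L ω = l := (hl.comp hdgt).limsup_eq
    rwa [h2]
  -- the deviation
  set W : ℕ → Ω → ℝ := fun N ω => ⨆ M : {M : κ → ℕ // ∀ l, N ≤ M l},
    |avg M.1 (fun m => Ψ m ω) - L ω| with hW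
  have hdev : ∀ (M : κ → ℕ) ω, |avg M (fun m => Ψ m ω) - L ω| ≤ 2 := by
    intro M ω
    have h2 := abs_sub (avg M (fun m => Ψ m ω)) (L ω)
    have h3 := hA1 M ω
    have h4 := hL1 ω
    linarith
  have hbdd : ∀ N ω, BddAbove (Set.range fun M : {M : κ → ℕ // ∀ l, N ≤ M l} =>
      |avg M.1 (fun m => Ψ m ω) - L ω|) := fun N ω => ⟨2, by rintro _ ⟨M, rfl⟩; exact hdev _ _⟩
  have hne : ∀ N, Nonempty {M : κ → ℕ // ∀ l, N ≤ M l} := fun N => ⟨⟨fun _ => N, fun _ => le_rfl⟩⟩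
  have hWm : ∀ N, Measurable (W N) := fun N => Measurable.iSup fun M =>
    continuous_abs.measurable.comp ((hAm M.1).sub hLm)
  have hW0 : ∀ N ω, 0 ≤ W N ω := fun N ω => Real.iSup_nonneg fun M => abs_nonneg _
  have hW2 : ∀ N ω, W N ω ≤ 2 := fun N ω => by
    have := hne N
    exact ciSup_le fun M => hdev _ _
  have hWle : ∀ N ω (M : κ → ℕ), (∀ l, N ≤ M l) → |avg M (fun m => Ψ m ω) - L ω| ≤ W N ω :=
    fun N ω M hM => le_ciSup (hbdd N ω) ⟨M, hM⟩
  have hWlim : ∀ᵐ ω ∂P, Tendsto (fun N => W N ω) atTop (𝓝 0) := by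
    filter_upwards [hLlim] with ω hω
    rw [Metric.tendsto_atTop]
    intro ε hε
    obtain ⟨M₀, hM₀⟩ := ((Metric.tendsto_nhds.1 hω) (ε / 2) (half_pos hε)).exists_forall_of_atTop
    refine ⟨∑ l, M₀ l, fun N hN => ?_⟩
    rw [Real.dist_0_eq_abs, abs_of_nonneg (hW0 N ω)]
    have := hne N
    refine lt_of_le_of_lt (ciSup_le fun M => ?_) (half_lt_self hε)
    have h2 : M₀ ≤ M.1 := fun l =>
      (Finset.single_le_sum (f := fun l => M₀ l) (fun _ _ => Nat.zero_le _)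
        (Finset.mem_univ l)).trans (hN.trans (M.2 l))
    have h3 := hM₀ M.1 h2
    rw [Real.dist_eq] at h3
    exact h3.le
  have hWi : ∀ N, Integrable (W N) P := fun N =>
    Integrable.of_bound (hWm N).aestronglyMeasurable 2 (Eventually.of_forall fun ω => by
      rw [Real.norm_eq_abs, abs_of_nonneg (hW0 N ω)]
      exact hW2 N ω)
  have hΨi : ∀ m, Integrable (Ψ m) P := fun m =>
    Integrable.of_bound (hΨm m).aestronglyMeasurable 1 (Eventually.of_forall fun ω => hΨ m ω)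
  have hLi : Integrable L P :=
    Integrable.of_bound hLm.aestronglyMeasurable 1 (Eventually.of_forall fun ω => hL1 ω)
  have hAi : ∀ M : κ → ℕ, Integrable (fun ω => avg M (fun m => Ψ m ω)) P := fun M =>
    Integrable.of_bound (hAm M).aestronglyMeasurable 1 (Eventually.of_forall fun ω => hA1 M ω)
  have hWint : Tendsto (fun N => ∫ ω, W N ω ∂P) atTop (𝓝 0) := by
    have h2 : Tendsto (fun N => ∫ ω, W N ω ∂P) atTop (𝓝 (∫ _, (0 : ℝ) ∂P)) := by
      refine tendsto_integral_of_dominated_convergence (fun _ => 2)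
        (fun N => (hWm N).aestronglyMeasurable) (integrable_const _) (fun N => ?_) hWlim
      exact Eventually.of_forall fun ω => by
        rw [Real.norm_eq_abs, abs_of_nonneg (hW0 N ω)]
        exact hW2 N ω
    simpa using h2
  -- conditional expectations of the deviation
  set g : ℕ → Ω → ℝ := fun N => P[W N | m₀] with hg
  have hg0 : ∀ᵐ ω ∂P, ∀ N, 0 ≤ g N ω := by
    rw [ae_all_iff]
    intro N
    exact condExp_nonneg (Eventually.of_forall fun ω => hW0 N ω)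
  have hgm : ∀ N, Measurable (g N) := fun N =>
    (stronglyMeasurable_condExp.mono hm).measurable
  have hgint : Tendsto (fun N => ∫⁻ ω, ENNReal.ofReal (g N ω) ∂P) atTop (𝓝 0) := by
    have h2 : ∀ N, ∫⁻ ω, ENNReal.ofReal (g N ω) ∂P = ENNReal.ofReal (∫ ω, W N ω ∂P) := by
      intro N
      rw [← ofReal_integral_eq_lintegral_ofReal integrable_condExp (hg0.mono fun ω hω => hω N),
        integral_condExp hm]
    simp only [h2]
    have h3 := ENNReal.tendsto_ofReal hWint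
    rwa [ENNReal.ofReal_zero] at h3
  have hinf : ∫⁻ ω, liminf (fun N => ENNReal.ofReal (g N ω)) atTop ∂P = 0 := by
    refine le_antisymm ?_ zero_le
    refine (lintegral_liminf_le fun N => (hgm N).ennreal_ofReal).trans ?_
    rw [hgint.liminf_eq]
  rw [lintegral_eq_zero_iff (Measurable.liminf fun N => (hgm N).ennreal_ofReal)] at hinf
  -- the main bound
  have hbd : ∀ᵐ ω ∂P, ∀ (N : ℕ) (M : κ → ℕ), (∀ l, N ≤ M l) →
      |avg M (fun m => (P[Ψ m | m₀]) ω) - (P[L | m₀]) ω| ≤ g N ω := by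
    rw [ae_all_iff]
    intro N
    rw [ae_all_iff]
    intro M
    by_cases hM : ∀ l, N ≤ M l
    · -- conditional expectation of the average
      have e1 : (fun ω => avg M (fun m => Ψ m ω)) =
          (∏ l, (M l : ℝ))⁻¹ • ∑ m ∈ box M, Ψ m := by
        funext ω
        simp [avg]
      have e2 : P[fun ω => avg M (fun m => Ψ m ω) | m₀] =ᵐ[P]
          fun ω => avg M (fun m => (P[Ψ m | m₀]) ω) := by
        rw [e1]
        refine (condExp_smul _ _ _).trans ?_
        filter_upwards [condExp_finsetSum (s := box M) (f := Ψ) (fun m _ => hΨi m) m₀] with ω hω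
        simp only [Pi.smul_apply, hω, avg, Finset.sum_apply, smul_eq_mul]
      have e3 : P[(fun ω => avg M (fun m => Ψ m ω)) - L | m₀] =ᵐ[P]
          P[fun ω => avg M (fun m => Ψ m ω) | m₀] - P[L | m₀] := condExp_sub (hAi M) hLi m₀
      have i1 : Integrable ((fun ω => avg M (fun m => Ψ m ω)) - L) P := (hAi M).sub hLi
      have e4 : P[(fun ω => avg M (fun m => Ψ m ω)) - L | m₀] ≤ᵐ[P] g N :=
        condExp_mono i1 (hWi N) (Eventually.of_forall fun ω =>
          (le_abs_self _).trans (hWle N ω M hM))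
      have e5 : P[-((fun ω => avg M (fun m => Ψ m ω)) - L) | m₀] ≤ᵐ[P] g N :=
        condExp_mono i1.neg (hWi N) (Eventually.of_forall fun ω =>
          (neg_le_abs _).trans (hWle N ω M hM))
      have e6 := condExp_neg (μ := P) ((fun ω => avg M (fun m => Ψ m ω)) - L) m₀
      filter_upwards [e2, e3, e4, e5, e6] with ω h2 h3 h4 h5 h6
      intro _
      simp only [Pi.sub_apply, Pi.neg_apply] at h3 h6
      rw [h3, h2] at h4
      rw [h6, h3, h2] at h5
      rw [abs_le]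
      constructor <;> linarith
    · exact Eventually.of_forall fun ω hc => absurd hc hM
  filter_upwards [hg0, hinf, hbd] with ω h0 hi hb
  refine ⟨(P[L | m₀]) ω, ?_⟩
  rw [Metric.tendsto_nhds]
  intro ε hε
  have h2 : liminf (fun N => ENNReal.ofReal (g N ω)) atTop < ENNReal.ofReal ε := by
    have h3 : liminf (fun N => ENNReal.ofReal (g N ω)) atTop = 0 := hi
    rw [h3]
    exact ENNReal.ofReal_pos.2 hε
  obtain ⟨N, hN⟩ := (frequently_lt_of_liminf_lt (by isBoundedDefault) h2).exists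
  have h3 : g N ω < ε := (ENNReal.ofReal_lt_ofReal_iff hε).1 hN
  filter_upwards [eventually_ge N] with M hM
  rw [Real.dist_eq]
  exact (hb N M hM).trans_lt h3

theorem condExp_of_law {Ω ι : Type} {mΩ : MeasurableSpace Ω} (P : Measure Ω)
    [IsProbabilityMeasure P] {K : ι → Ω → ℝ} (hK : ∀ i, Measurable (K i)) {Ψ Φ : Ω → ℝ}
    (hΨm : Measurable Ψ) (hΨ : ∀ ω, |Ψ ω| ≤ 1)
    (hΦm : Measurable[⨆ i, MeasurableSpace.comap (K i) (borel ℝ)] Φ) (hΦ : ∀ ω, |Φ ω| ≤ 1)
    (hlaw : ∀ (s : Finset ι) (t : ι → ℝ),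
      ∫ ω, (Ψ ω : ℂ) * Complex.exp (((∑ i ∈ s, t i * K i ω : ℝ) : ℂ) * Complex.I) ∂P =
      ∫ ω, (Φ ω : ℂ) * Complex.exp (((∑ i ∈ s, t i * K i ω : ℝ) : ℂ) * Complex.I) ∂P) :
    P[Ψ | ⨆ i, MeasurableSpace.comap (K i) (borel ℝ)] =ᵐ[P] Φ := by
  have hm : (⨆ i, MeasurableSpace.comap (K i) (borel ℝ)) ≤ mΩ := by
    refine iSup_le fun i => ?_
    have h1 := (hK i).comap_le
    rwa [BorelSpace.measurable_eq (α := ℝ)] at h1
  have hΦm' : Measurable Φ := hΦm.mono hm le_rfl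
  have hΨi : Integrable Ψ P :=
    Integrable.of_bound hΨm.aestronglyMeasurable 1 (Eventually.of_forall fun ω => hΨ ω)
  have hΦi : Integrable Φ P :=
    Integrable.of_bound hΦm'.aestronglyMeasurable 1 (Eventually.of_forall fun ω => hΦ ω)
  have hφi : Integrable (fun ω => Ψ ω - Φ ω) P := hΨi.sub hΦi
  have hφ : ∀ (s : Finset ι) (t : ι → ℝ),
      ∫ ω, ((Ψ ω - Φ ω : ℝ) : ℂ) * Complex.exp (((∑ i ∈ s, t i * K i ω : ℝ) : ℂ) * Complex.I) ∂P
        = 0 := by
    intro s t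
    have hem : Measurable fun ω => Complex.exp (((∑ i ∈ s, t i * K i ω : ℝ) : ℂ) * Complex.I) := by
      have h1 : Measurable fun x => ∑ i ∈ s, t i * K i x :=
        Finset.measurable_fun_sum _ fun i _ => (hK i).const_mul _
      fun_prop
    have hi : ∀ {F : Ω → ℝ}, Measurable F → (∀ ω, |F ω| ≤ 1) → Integrable (fun ω => (F ω : ℂ) *
        Complex.exp (((∑ i ∈ s, t i * K i ω : ℝ) : ℂ) * Complex.I)) P := by
      intro F hF hF1
      have hFm : Measurable fun ω => (F ω : ℂ) := Complex.measurable_ofReal.comp hF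
      refine Integrable.of_bound (hFm.mul hem).aestronglyMeasurable 1
        (Eventually.of_forall fun ω => ?_)
      rw [norm_mul, Complex.norm_exp_ofReal_mul_I, mul_one, Complex.norm_real]
      exact hF1 ω
    have h2 : ∀ ω, ((Ψ ω - Φ ω : ℝ) : ℂ) *
        Complex.exp (((∑ i ∈ s, t i * K i ω : ℝ) : ℂ) * Complex.I) =
        (Ψ ω : ℂ) * Complex.exp (((∑ i ∈ s, t i * K i ω : ℝ) : ℂ) * Complex.I) -
        (Φ ω : ℂ) * Complex.exp (((∑ i ∈ s, t i * K i ω : ℝ) : ℂ) * Complex.I) := by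
      intro ω
      rw [Complex.ofReal_sub, sub_mul]
    simp only [h2]
    rw [integral_sub (hi hΨm hΨ) (hi hΦm' hΦ), hlaw s t, sub_self]
  symm
  refine ae_eq_condExp_of_forall_setIntegral_eq hm hΨi (fun D _ _ => hΦi.integrableOn) ?_
    hΦm.aestronglyMeasurable
  intro D hD _
  have h3 := setIntegral_eq_zero_of_char hK hφi hφ hD
  rw [integral_sub hΨi.integrableOn hΦi.integrableOn] at h3
  linarith

theorem cvg_of_law {Ω ι : Type} {mΩ : MeasurableSpace Ω} (P : Measure Ω)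
    [IsProbabilityMeasure P] {K : ι → Ω → ℝ} (hK : ∀ i, Measurable (K i))
    {Ψ Φ : (κ → ℕ) → Ω → ℝ}
    (hΨm : ∀ m, Measurable (Ψ m)) (hΨ : ∀ m ω, |Ψ m ω| ≤ 1)
    (hΦm : ∀ m, Measurable[⨆ i, MeasurableSpace.comap (K i) (borel ℝ)] (Φ m))
    (hΦ : ∀ m ω, |Φ m ω| ≤ 1)
    (hlaw : ∀ (m : κ → ℕ) (s : Finset ι) (t : ι → ℝ),
      ∫ ω, (Ψ m ω : ℂ) * Complex.exp (((∑ i ∈ s, t i * K i ω : ℝ) : ℂ) * Complex.I) ∂P =
      ∫ ω, (Φ m ω : ℂ) * Complex.exp (((∑ i ∈ s, t i * K i ω : ℝ) : ℂ) * Complex.I) ∂P)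
    (c : (κ → ℕ) → ℝ) (hc : ∀ m, |c m| ≤ 1) (h : ∀ᵐ ω ∂P, Cvg fun m => c m * Ψ m ω) :
    ∀ᵐ ω ∂P, Cvg fun m => c m * Φ m ω := by
  have hm : (⨆ i, MeasurableSpace.comap (K i) (borel ℝ)) ≤ mΩ := by
    refine iSup_le fun i => ?_
    have h1 := (hK i).comap_le
    rwa [BorelSpace.measurable_eq (α := ℝ)] at h1
  have h1 := cvg_condExp hm P (Ψ := fun m ω => c m * Ψ m ω) (fun m => (hΨm m).const_mul _)
    (fun m ω => by
      rw [abs_mul]
      exact mul_le_one₀ (hc m) (abs_nonneg _) (hΨ m ω)) h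
  have h2 : ∀ᵐ ω ∂P, ∀ m, (P[Ψ m | ⨆ i, MeasurableSpace.comap (K i) (borel ℝ)]) ω = Φ m ω := by
    rw [ae_all_iff]
    intro m
    exact condExp_of_law P hK (hΨm m) (hΨ m) (hΦm m) (hΦ m) (hlaw m)
  have h3 : ∀ᵐ ω ∂P, ∀ m, (P[fun ω => c m * Ψ m ω | ⨆ i, MeasurableSpace.comap (K i) (borel ℝ)]) ω
      = c m * (P[Ψ m | ⨆ i, MeasurableSpace.comap (K i) (borel ℝ)]) ω := by
    rw [ae_all_iff]
    intro m
    exact condExp_smul (c m) (Ψ m) _
  filter_upwards [h1, h2, h3] with ω w1 w2 w3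
  exact w1.congr fun m => by rw [w3 m, w2 m]

end Pool.Agent.Lib.Pf720po
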