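import Pool.Agent.Lib.Pf720po.Char
import Pool.Agent.Lib.Pf720po.CondCvg

/-!
# Random coloring of a Poisson process

MODULE Color (uses `IsPoisson.char_mf`, `measurable_integral_fin_real` of Char.lean, `cvg_of_law` of
CondCvg.lean and the definitions of Base.lean; both imports are black boxes).

Proof of `poisson_step`. `n = card A`, `ε = 1 / (2 (n+1))`. For every `m` let `σ a = R.S (w a m)`,
`u⁺ a = fun y => lift n (u a) (σ a y)`, `U m = mix u (fun a => R.S (w a m))`. With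
`B' = ⋃ a, (σ a)⁻¹' B` (measurable, finite `ν`-measure as the `σ a` preserve `ν`): `u⁺ a` and `U m` are in
`Amp (1/2) B'` (finite ranges: images of finite sets; `U ≥ 1 - n ε`), and
`(n+1) * U m y = 1 + ∑ a, u⁺ a y`.
Space `Ω = X × (A → X)`, `P = μ.prod (Measure.pi fun _ => μ)`. Index type
`ι = {h : Y → ℝ // Simp ν h}`, `K h ω = ∫ h d(N ω.1) + ∑ a, ∫ h d(N (ω.2 a))` (measurable by
`measurable_integral_fin_real`). `Ψ m ω = ∏ a, mf N (u⁺ a) (ω.2 a)`,
`Φ m ω = mf N (U m) ω.1 * ∏ a, mf N (U m) (ω.2 a)`. All in `[0, 1]` (`mf_pos`, `mf_le_one`), `Φ m` is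
`Real.exp (K ⟨log ∘ U m, _⟩ ω)` (`Real.exp_add`, `Real.exp_sum`, `Amp.log_simp`), hence measurable for
`⨆ h, comap (K h)`.
Equality of the twisted integrals: `e^{i ∑ t_h K_h ω}` is the product of `e^{i ∑ t_h ∫ h dN ω.1}` and of
`e^{i ∑ t_h ∫ h dN (ω.2 a)}`; by `integral_prod_mul`, `integral_fintype_prod_eq_prod` and `char_mf`
(with `v = 1`, `v = u⁺ a`, `v = U m`), writing `E y = e^{i ∑ t_h h y}`,
left side `= exp (∫ (E - 1) dν + ∑ a, ∫ (u⁺ a * E - 1) dν)`, right side
`= exp ((n+1) ∫ (U m * E - 1) dν)`; equal because of the identity above (all the functions vanish off a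
set of finite measure and are bounded, so they are integrable).
`cvg_of_law` gives `Cvg (fun m => c m * Φ m ω)` for `P`-a.e. `ω` (the hypothesis `h` transfers to `P` by
`Measure.quasiMeasurePreserving_snd`). By `Measure.ae_ae_of_ae_prod`, for `μ`-a.e. `x`, for a.e. `ω'`,
`Cvg (fun m => c m * (mf N (U m) x * ∏ a, mf N (U m) (ω' a)))`. Integrate over `ω'` (dominated convergence,
copy the argument `key` in `CS_of_ae_prod`, Pf720gs/GExp.lean):
`∫ ∏ a, mf N (U m) (ω' a) = ∏ a, exp (∫ (U m - 1) dν)` (`char_mf` with `s = ∅`)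
`= exp (n ∑ a, ∫ (u a - 1) dν) =: Kc > 0`, which does not depend on `m` since `R.S (w a m)` preserves `ν`
(`integral_map`/`MeasurePreserving.integral_comp'`). So `Cvg (fun m => c m * mf N (U m) x * Kc)`.
-/

set_option autoImplicit false
set_option linter.unusedSectionVars false

open MeasureTheory Filter Topology ProbabilityTheory
open scoped ENNReal

namespace Pool.Agent.Lib.Pf720po

open Pool.Agent.Lib.Pf720ae

variable {X Y : Type} {mX : MeasurableSpace X} {mY : MeasurableSpace Y}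
  {κ : Type} [Fintype κ] [DecidableEq κ] {d : ℕ}

namespace ColorAux

lemma cvg_of_ae {Ω : Type} [MeasurableSpace Ω] {P : Measure Ω} [IsProbabilityMeasure P]
    {k : (κ → ℕ) → ℝ} {r : (κ → ℕ) → Ω → ℝ} (hr : ∀ m, Measurable (r m))
    (hb : ∀ m ω, |k m * r m ω| ≤ 1) {C : ℝ} (hC : C ≠ 0)
    (hint : ∀ m, ∫ ω, r m ω ∂P = C)
    (h : ∀ᵐ ω ∂P, Cvg fun m => k m * r m ω) : Cvg k := by
  have hint' : ∀ (M : κ → ℕ),
      ∫ ω, (avg M fun m => k m * r m ω) ∂P = avg M fun m => C * k m := by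
    intro M
    unfold avg
    rw [integral_const_mul, integral_finsetSum]
    · congr 1
      refine Finset.sum_congr rfl fun m _ => ?_
      rw [integral_const_mul, hint]
      ring
    intro m _
    exact Integrable.of_bound ((hr m).const_mul _).aestronglyMeasurable 1
      (Eventually.of_forall fun ω => hb m ω)
  have hmeas : ∀ (M : κ → ℕ), Measurable fun ω => avg M fun m => k m * r m ω := by
    intro M
    unfold avg
    exact Measurable.const_mul (Finset.measurable_fun_sum _ fun m _ => (hr m).const_mul _) _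
  obtain ⟨L, hL⟩ : ∃ L : Ω → ℝ, ∀ᵐ ω ∂P,
      Tendsto (fun M : κ → ℕ => avg M fun m => k m * r m ω) atTop (𝓝 (L ω)) := by
    classical
    refine ⟨fun ω => if hω : Cvg (fun m => k m * r m ω) then hω.choose else 0, ?_⟩
    filter_upwards [h] with ω hω
    rw [dif_pos hω]
    exact hω.choose_spec
  have h1 := tendsto_integral_filter_of_dominated_convergence (μ := P) (fun _ => (1 : ℝ))
    (Eventually.of_forall fun M : κ → ℕ => (hmeas M).aestronglyMeasurable)
    (Eventually.of_forall fun M : κ → ℕ => Eventually.of_forall fun ω => by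
      rw [Real.norm_eq_abs]
      exact abs_avg_le_of_le zero_le_one fun m => hb m ω) (integrable_const _) hL
  simp only [hint'] at h1
  have h2 : Cvg fun m => C * k m := ⟨_, h1⟩
  refine (h2.smul C⁻¹).congr fun m => ?_
  rw [← mul_assoc, inv_mul_cancel₀ hC, one_mul]

variable {ν : Measure Y} {N : X → Measure Y}

lemma measurable_mf (hN : Measurable N) {ε : ℝ} {B : Set Y} {v : Y → ℝ} (hv : Amp ε B v) :
    Measurable (mf N v) := by
  unfold mf
  refine Real.measurable_exp.comp (measurable_integral_fin_real hN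
    (Real.measurable_log.comp hv.meas) ?_)
  refine (hv.fin.image Real.log).subset ?_
  rintro _ ⟨y, rfl⟩
  exact ⟨v y, ⟨y, rfl⟩, rfl⟩

/-- the exponential twist on the base space -/
noncomputable def tw (s : Finset {h : Y → ℝ // Simp ν h}) (t : {h : Y → ℝ // Simp ν h} → ℝ)
    (y : Y) : ℂ := Complex.exp (((∑ h ∈ s, t h * h.1 y : ℝ) : ℂ) * Complex.I)

lemma measurable_tw (s : Finset {h : Y → ℝ // Simp ν h}) (t : {h : Y → ℝ // Simp ν h} → ℝ) :
    Measurable (tw s t) := by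
  unfold tw
  refine Complex.measurable_exp.comp (Measurable.mul_const (Complex.measurable_ofReal.comp ?_) _)
  exact Finset.measurable_sum _ fun h _ => h.2.meas.const_mul _

lemma norm_tw (s : Finset {h : Y → ℝ // Simp ν h}) (t : {h : Y → ℝ // Simp ν h} → ℝ) (y : Y) :
    ‖tw s t y‖ = 1 := by
  unfold tw
  exact Complex.norm_exp_ofReal_mul_I _

lemma integrable_tw {B : Set Y} (hνB : ν B < ⊤) {v : Y → ℝ} (hv : Amp (1 / 2) B v)
    (s : Finset {h : Y → ℝ // Simp ν h}) (t : {h : Y → ℝ // Simp ν h} → ℝ) :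
    Integrable (fun y => (v y : ℂ) * tw s t y - 1) ν := by
  set D : Set Y := B ∪ ⋃ h ∈ s, Function.support h.1 with hD
  have hνD : ν (toMeasurable ν D) < ⊤ := by
    rw [measure_toMeasurable]
    refine (measure_union_le _ _).trans_lt (ENNReal.add_lt_top.2 ⟨hνB, ?_⟩)
    refine (measure_biUnion_finset_le s _).trans_lt ?_
    exact ENNReal.sum_lt_top.2 fun h _ => h.2.supp
  have hsupp : Function.support (fun y => (v y : ℂ) * tw s t y - 1) ⊆ toMeasurable ν D := by
    intro y hy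
    refine subset_toMeasurable ν D ?_
    by_contra hyD
    rw [hD, Set.mem_union, not_or] at hyD
    obtain ⟨h1, h2⟩ := hyD
    apply hy
    have h3 : ∀ h ∈ s, h.1 y = 0 := by
      intro h hs
      by_contra h4
      exact h2 (Set.mem_biUnion (show h ∈ (s : Set _) from hs) h4)
    have h4 : tw s t y = 1 := by
      unfold tw
      rw [Finset.sum_eq_zero fun h hs => by rw [h3 h hs, mul_zero]]
      simp
    show (v y : ℂ) * tw s t y - 1 = 0
    rw [h4, hv.off y h1]
    simp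
  rw [← integrableOn_iff_integrable_of_support_subset hsupp]
  have : IsFiniteMeasure (ν.restrict (toMeasurable ν D)) :=
    ⟨by rw [Measure.restrict_apply_univ]; exact hνD⟩
  refine Integrable.of_bound
    (((Complex.measurable_ofReal.comp hv.meas).mul (measurable_tw s t)).sub_const
      1).aestronglyMeasurable 2 (Eventually.of_forall fun y => ?_)
  have h1 : ‖(v y : ℂ) * tw s t y‖ ≤ 1 := by
    rw [norm_mul, norm_tw, mul_one, Complex.norm_real, Real.norm_eq_abs, abs_le]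
    have h2 := hv.lb y
    have h3 := hv.ub y
    constructor <;> linarith
  refine (norm_sub_le _ _).trans ?_
  rw [norm_one]
  linarith

/-- the twisted integral over the product space -/
lemma law_aux {μ : Measure X} [IsProbabilityMeasure μ] (hN : IsPoisson μ ν N) {A : Type}
    [Fintype A] {B : Set Y} (hB : MeasurableSet B) (hνB : ν B < ⊤) {v₀ : Y → ℝ} {v : A → Y → ℝ}
    (hv₀ : Amp (1 / 2) B v₀) (hv : ∀ a, Amp (1 / 2) B (v a))
    (s : Finset {h : Y → ℝ // Simp ν h}) (t : {h : Y → ℝ // Simp ν h} → ℝ) :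
    ∫ ω : X × (A → X), ((mf N v₀ ω.1 * ∏ a, mf N (v a) (ω.2 a) : ℝ) : ℂ) *
      Complex.exp (((∑ h ∈ s, t h * (∫ y, h.1 y ∂(N ω.1) + ∑ a, ∫ y, h.1 y ∂(N (ω.2 a))) : ℝ) : ℂ)
        * Complex.I) ∂(μ.prod (Measure.pi fun _ : A => μ)) =
      Complex.exp (∫ y, ((v₀ y : ℂ) * tw s t y - 1) ∂ν +
        ∑ a, ∫ y, ((v a y : ℂ) * tw s t y - 1) ∂ν) := by
  set E : X → ℂ := fun x =>
    Complex.exp (((∑ h ∈ s, t h * ∫ y, h.1 y ∂(N x) : ℝ) : ℂ) * Complex.I) with hE
  have e1 : ∀ ω : X × (A → X), ((mf N v₀ ω.1 * ∏ a, mf N (v a) (ω.2 a) : ℝ) : ℂ) *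
      Complex.exp (((∑ h ∈ s, t h * (∫ y, h.1 y ∂(N ω.1) + ∑ a, ∫ y, h.1 y ∂(N (ω.2 a))) : ℝ) : ℂ)
        * Complex.I) = ((mf N v₀ ω.1 : ℂ) * E ω.1) *
          ∏ a, ((mf N (v a) (ω.2 a) : ℂ) * E (ω.2 a)) := by
    intro ω
    have h1 : (∑ h ∈ s, t h * (∫ y, h.1 y ∂(N ω.1) + ∑ a, ∫ y, h.1 y ∂(N (ω.2 a))) : ℝ) =
        (∑ h ∈ s, t h * ∫ y, h.1 y ∂(N ω.1)) +
          ∑ a, ∑ h ∈ s, t h * ∫ y, h.1 y ∂(N (ω.2 a)) := by
      rw [Finset.sum_comm, ← Finset.sum_add_distrib]
      refine Finset.sum_congr rfl fun h _ => ?_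
      rw [mul_add, Finset.mul_sum]
    have h2 : Complex.exp (((∑ a, ∑ h ∈ s, t h * ∫ y, h.1 y ∂(N (ω.2 a)) : ℝ) : ℂ) * Complex.I) =
        ∏ a, E (ω.2 a) := by
      rw [Complex.ofReal_sum, Finset.sum_mul, Complex.exp_sum]
    rw [h1, Complex.ofReal_add, add_mul, Complex.exp_add, h2, Finset.prod_mul_distrib,
      Complex.ofReal_mul, Complex.ofReal_prod]
    show _ * (E ω.1 * _) = _
    ring
  simp_rw [e1]
  rw [integral_prod_mul (fun x => (mf N v₀ x : ℂ) * E x)
    (fun ω' : A → X => ∏ a, ((mf N (v a) (ω' a) : ℂ) * E (ω' a))),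
    integral_fintype_prod_eq_prod (𝕜 := ℂ) (fun a x => (mf N (v a) x : ℂ) * E x),
    Complex.exp_add, Complex.exp_sum]
  congr 1
  · exact hN.char_mf hB hνB hv₀ s t
  · exact Finset.prod_congr rfl fun a _ => hN.char_mf hB hνB (hv a) s t

end ColorAux

open ColorAux

theorem poisson_step {μ : Measure X} [IsProbabilityMeasure μ] {ν : Measure Y} {N : X → Measure Y}
    (hN : IsPoisson μ ν N) (R : MAct (Fin d → ℤ) Y ν) {A : Type} [Fintype A] {B : Set Y}
    (hB : MeasurableSet B) (hνB : ν B < ⊤) {u : A → Y → ℝ}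
    (hu : ∀ a, Amp (1 / (2 * ((Fintype.card A : ℝ) + 1))) B (u a))
    (w : A → (κ → ℕ) → Fin d → ℤ) (c : (κ → ℕ) → ℝ) (hc : ∀ m, |c m| ≤ 1)
    (h : ∀ᵐ ω ∂(Measure.pi fun _ : A => μ), Cvg fun m : κ → ℕ =>
      c m * ∏ a, mf N (fun y => lift (Fintype.card A) (u a) (R.S (w a m) y)) (ω a)) :
    ∀ᵐ x ∂μ, Cvg fun m : κ → ℕ => c m * mf N (mix u (fun a => R.S (w a m))) x := by
  set n : ℕ := Fintype.card A with hn
  have hn0 : (0 : ℝ) < (n : ℝ) + 1 := by positivity
  set up : (κ → ℕ) → A → Y → ℝ := fun m a y => lift n (u a) (R.S (w a m) y) with hup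
  set U : (κ → ℕ) → Y → ℝ := fun m => mix u (fun a => R.S (w a m)) with hU
  set B' : (κ → ℕ) → Set Y := fun m => ⋃ a, (R.S (w a m)) ⁻¹' B with hB'
  have hB'm : ∀ m, MeasurableSet (B' m) := fun m =>
    MeasurableSet.iUnion fun a => (R.mp (w a m)).measurable hB
  have hνB' : ∀ m, ν (B' m) < ⊤ := by
    intro m
    refine (measure_iUnion_fintype_le ν _).trans_lt (ENNReal.sum_lt_top.2 fun a _ => ?_)
    rw [(R.mp (w a m)).measure_preimage hB.nullMeasurableSet]
    exact hνB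
  have hoff : ∀ m a y, y ∉ B' m → u a (R.S (w a m) y) = 1 := fun m a y hy =>
    (hu a).off _ fun h' => hy (Set.mem_iUnion.2 ⟨a, h'⟩)
  have hupA : ∀ m a, Amp (1 / 2) (B' m) (up m a) := by
    intro m a
    refine ⟨?_, ?_, ?_, ?_, ?_⟩
    · exact ((((hu a).meas.comp (R.mp (w a m)).measurable).sub_const 1).const_mul _).const_add 1
    · refine ((hu a).fin.image fun r : ℝ => 1 + ((n : ℝ) + 1) * (r - 1)).subset ?_
      rintro _ ⟨y, rfl⟩
      exact ⟨u a (R.S (w a m) y), ⟨_, rfl⟩, rfl⟩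
    · intro y
      have h1 := (hu a).lb (R.S (w a m) y)
      have h2 : -(1 / 2) ≤ ((n : ℝ) + 1) * (u a (R.S (w a m) y) - 1) := by
        have h3 : ((n : ℝ) + 1) * (-(1 / (2 * ((n : ℝ) + 1)))) ≤
            ((n : ℝ) + 1) * (u a (R.S (w a m) y) - 1) :=
          mul_le_mul_of_nonneg_left (by linarith) hn0.le
        have h4 : ((n : ℝ) + 1) * (-(1 / (2 * ((n : ℝ) + 1)))) = -(1 / 2) := by
          field_simp
        linarith
      show 1 - 1 / 2 ≤ 1 + ((n : ℝ) + 1) * (u a (R.S (w a m) y) - 1)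
      linarith
    · intro y
      have h1 := (hu a).ub (R.S (w a m) y)
      have h2 : ((n : ℝ) + 1) * (u a (R.S (w a m) y) - 1) ≤ 0 :=
        mul_nonpos_of_nonneg_of_nonpos hn0.le (by linarith)
      show 1 + ((n : ℝ) + 1) * (u a (R.S (w a m) y) - 1) ≤ 1
      linarith
    · intro y hy
      show 1 + ((n : ℝ) + 1) * (u a (R.S (w a m) y) - 1) = 1
      rw [hoff m a y hy]
      ring
  have hUA : ∀ m, Amp (1 / 2) (B' m) (U m) := by
    intro m
    refine ⟨?_, ?_, ?_, ?_, ?_⟩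
    · exact (Finset.measurable_fun_sum _ fun a _ =>
        ((hu a).meas.comp (R.mp (w a m)).measurable).sub_const 1).const_add 1
    · refine ((Set.Finite.pi' (fun a => (hu a).fin)).image
        fun f : A → ℝ => 1 + ∑ a, (f a - 1)).subset ?_
      rintro _ ⟨y, rfl⟩
      exact ⟨fun a => u a (R.S (w a m) y), fun a => ⟨_, rfl⟩, rfl⟩
    · intro y
      have h1 : ∑ a : A, (-(1 / (2 * ((n : ℝ) + 1)))) ≤ ∑ a, (u a (R.S (w a m) y) - 1) :=
        Finset.sum_le_sum fun a _ => by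
          have := (hu a).lb (R.S (w a m) y)
          linarith
      rw [Finset.sum_const, Finset.card_univ, ← hn, nsmul_eq_mul] at h1
      have h2 : -(1 / 2) ≤ (n : ℝ) * (-(1 / (2 * ((n : ℝ) + 1)))) := by
        have h3 : ((n : ℝ) + 1) * (-(1 / (2 * ((n : ℝ) + 1)))) = -(1 / 2) := by
          field_simp
        have h4 : 0 ≤ 1 / (2 * ((n : ℝ) + 1)) := by positivity
        nlinarith
      show 1 - 1 / 2 ≤ 1 + ∑ a, (u a (R.S (w a m) y) - 1)
      linarith
    · intro y
      have h1 : ∑ a, (u a (R.S (w a m) y) - 1) ≤ 0 :=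
        Finset.sum_nonpos fun a _ => by
          have := (hu a).ub (R.S (w a m) y)
          linarith
      show 1 + ∑ a, (u a (R.S (w a m) y) - 1) ≤ 1
      linarith
    · intro y hy
      show 1 + ∑ a, (u a (R.S (w a m) y) - 1) = 1
      rw [Finset.sum_eq_zero fun a _ => by rw [hoff m a y hy, sub_self], add_zero]
  have hid : ∀ m y, ((n : ℝ) + 1) * U m y = 1 + ∑ a, up m a y := by
    intro m y
    show ((n : ℝ) + 1) * (1 + ∑ a, (u a (R.S (w a m) y) - 1)) =
      1 + ∑ a, (1 + ((n : ℝ) + 1) * (u a (R.S (w a m) y) - 1))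
    rw [Finset.sum_add_distrib, ← Finset.mul_sum, Finset.sum_const, Finset.card_univ, ← hn,
      nsmul_eq_mul]
    ring
  have mf01 : ∀ {B₀ : Set Y} {v : Y → ℝ}, Amp (1 / 2) B₀ v → ∀ x, 0 ≤ mf N v x ∧ mf N v x ≤ 1 :=
    fun hv x => ⟨(mf_pos N _ x).le, mf_le_one N (fun y => by have := hv.lb y; linarith) hv.ub x⟩
  -- the product space
  set K : {h : Y → ℝ // Simp ν h} → X × (A → X) → ℝ := fun h ω =>
    ∫ y, h.1 y ∂(N ω.1) + ∑ a, ∫ y, h.1 y ∂(N (ω.2 a)) with hK
  have hKm : ∀ h, Measurable (K h) := by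
    intro h
    have h1 := measurable_integral_fin_real hN.1 h.2.meas h.2.fin
    exact (h1.comp measurable_fst).add (Finset.measurable_fun_sum _ fun a _ =>
      h1.comp ((measurable_pi_apply a).comp measurable_snd))
  set Ψ : (κ → ℕ) → X × (A → X) → ℝ := fun m ω => ∏ a, mf N (up m a) (ω.2 a) with hΨ
  set Φ : (κ → ℕ) → X × (A → X) → ℝ := fun m ω =>
    mf N (U m) ω.1 * ∏ a, mf N (U m) (ω.2 a) with hΦ
  have hΨm : ∀ m, Measurable (Ψ m) := fun m => Finset.measurable_fun_prod _ fun a _ =>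
    (measurable_mf hN.1 (hupA m a)).comp ((measurable_pi_apply a).comp measurable_snd)
  have hΨ1 : ∀ m ω, |Ψ m ω| ≤ 1 := by
    intro m ω
    rw [abs_of_nonneg (Finset.prod_nonneg fun a _ => (mf01 (hupA m a) _).1)]
    exact Finset.prod_le_one (fun a _ => (mf01 (hupA m a) _).1) fun a _ => (mf01 (hupA m a) _).2
  have hprod : ∀ m (ω : A → X), 0 ≤ ∏ a, mf N (U m) (ω a) ∧ ∏ a, mf N (U m) (ω a) ≤ 1 :=
    fun m ω => ⟨Finset.prod_nonneg fun a _ => (mf01 (hUA m) _).1,
      Finset.prod_le_one (fun a _ => (mf01 (hUA m) _).1) fun a _ => (mf01 (hUA m) _).2⟩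
  have hΦ1 : ∀ m ω, |Φ m ω| ≤ 1 := by
    intro m ω
    show |mf N (U m) ω.1 * ∏ a, mf N (U m) (ω.2 a)| ≤ 1
    rw [abs_mul, abs_of_nonneg (mf01 (hUA m) _).1, abs_of_nonneg (hprod m ω.2).1]
    exact mul_le_one₀ (mf01 (hUA m) _).2 (hprod m ω.2).1 (hprod m ω.2).2
  have hΦm : ∀ m, Measurable[⨆ h, MeasurableSpace.comap (K h) (borel ℝ)] (Φ m) := by
    intro m
    set h₀ : {h : Y → ℝ // Simp ν h} := ⟨fun y => Real.log (U m y), (hUA m).log_simp (hνB' m)⟩
      with hh₀
    have h1 : Φ m = Real.exp ∘ K h₀ := by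
      funext ω
      show mf N (U m) ω.1 * ∏ a, mf N (U m) (ω.2 a) = Real.exp (∫ y, h₀.1 y ∂(N ω.1) +
        ∑ a, ∫ y, h₀.1 y ∂(N (ω.2 a)))
      rw [Real.exp_add, Real.exp_sum]
      rfl
    rw [h1]
    have h2 : Measurable[MeasurableSpace.comap (K h₀) (borel ℝ), borel ℝ] (K h₀) :=
      comap_measurable _
    have h3 : Measurable[⨆ h, MeasurableSpace.comap (K h) (borel ℝ), borel ℝ] (K h₀) :=
      h2.mono (le_iSup (fun h => MeasurableSpace.comap (K h) (borel ℝ)) h₀) le_rfl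
    rw [← BorelSpace.measurable_eq (α := ℝ)] at h3 ⊢
    exact Real.measurable_exp.comp h3
  have hlaw : ∀ (m : κ → ℕ) (s : Finset {h : Y → ℝ // Simp ν h})
      (t : {h : Y → ℝ // Simp ν h} → ℝ),
      ∫ ω, (Ψ m ω : ℂ) * Complex.exp (((∑ i ∈ s, t i * K i ω : ℝ) : ℂ) * Complex.I)
        ∂(μ.prod (Measure.pi fun _ : A => μ)) =
      ∫ ω, (Φ m ω : ℂ) * Complex.exp (((∑ i ∈ s, t i * K i ω : ℝ) : ℂ) * Complex.I)
        ∂(μ.prod (Measure.pi fun _ : A => μ)) := by
    intro m s t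
    have hone : Amp (1 / 2) (B' m) (fun _ : Y => (1 : ℝ)) := Amp.one (by norm_num)
    have h1 := law_aux hN (hB'm m) (hνB' m) hone (hupA m) s t
    have h2 := law_aux (A := A) hN (hB'm m) (hνB' m) (hUA m) (fun _ => hUA m) s t
    simp only [mf_one, one_mul] at h1
    refine h1.trans (Eq.trans ?_ h2.symm)
    congr 1
    rw [← integral_finsetSum _ fun a _ => integrable_tw (hνB' m) (hupA m a) s t,
      ← integral_add (integrable_tw (hνB' m) hone s t)
        (integrable_finsetSum _ fun a _ => integrable_tw (hνB' m) (hupA m a) s t),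
      ← integral_finsetSum _ fun a _ => integrable_tw (hνB' m) (hUA m) s t,
      ← integral_add (integrable_tw (hνB' m) (hUA m) s t)
        (integrable_finsetSum _ fun a _ => integrable_tw (hνB' m) (hUA m) s t)]
    refine integral_congr_ae (Eventually.of_forall fun y => ?_)
    have h3 : (((n : ℝ) + 1 : ℝ) : ℂ) * (U m y : ℂ) = 1 + ∑ a, (up m a y : ℂ) := by
      rw [← Complex.ofReal_mul, hid m y]
      push_cast
      ring
    push_cast at h3
    simp only [Finset.sum_sub_distrib, Finset.sum_const, Finset.card_univ, ← hn, nsmul_eq_mul,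
      ← Finset.sum_mul, Complex.ofReal_one]
    linear_combination -(tw s t y) * h3
  have h' : ∀ᵐ ω ∂(μ.prod (Measure.pi fun _ : A => μ)), Cvg fun m => c m * Ψ m ω :=
    Measure.quasiMeasurePreserving_snd.ae h
  have h1 := cvg_of_law (μ.prod (Measure.pi fun _ : A => μ)) hKm hΨm hΨ1 hΦm hΦ1 hlaw c hc h'
  have h2 := Measure.ae_ae_of_ae_prod h1
  -- the constant
  have hint1 : ∀ m, ∫ x, mf N (U m) x ∂μ = Real.exp (∑ a, ∫ y, (u a y - 1) ∂ν) := by
    intro m
    have h3 := hN.char_mf (hB'm m) (hνB' m) (hUA m) ∅ (fun _ => 0)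
    simp only [Finset.sum_empty, Complex.ofReal_zero, zero_mul, Complex.exp_zero, mul_one] at h3
    have h4 : (∫ y, ((U m y : ℂ) - 1) ∂ν) = ((∫ y, (U m y - 1) ∂ν : ℝ) : ℂ) := by
      rw [← integral_complex_ofReal]
      refine integral_congr_ae (Eventually.of_forall fun y => ?_)
      push_cast
      rfl
    rw [h4, integral_complex_ofReal, ← Complex.ofReal_exp] at h3
    rw [Complex.ofReal_injective h3]
    congr 1
    have h5 : ∀ a, Integrable (fun y => u a (R.S (w a m) y) - 1) ν := by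
      intro a
      have h6 := (integrable_tw (ν := ν) (v := fun y => u a (R.S (w a m) y)) (hνB' m)
        ⟨(hu a).meas.comp (R.mp (w a m)).measurable,
          (hu a).fin.subset (by rintro _ ⟨y, rfl⟩; exact ⟨_, rfl⟩), fun y => ?_,
          fun y => (hu a).ub _, fun y hy => hoff m a y hy⟩ ∅ (fun _ => 0)).re
      · refine h6.congr (Eventually.of_forall fun y => ?_)
        simp [tw]
      · have h7 := (hu a).lb (R.S (w a m) y)
        have h8 : 1 / (2 * ((n : ℝ) + 1)) ≤ 1 / 2 := by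
          apply one_div_le_one_div_of_le (by norm_num)
          have : (0 : ℝ) ≤ n := Nat.cast_nonneg n
          linarith
        linarith
    have h9 : (fun y => U m y - 1) = fun y => ∑ a, (u a (R.S (w a m) y) - 1) := by
      funext y
      show 1 + ∑ a, (u a (R.S (w a m) y) - 1) - 1 = _
      ring
    rw [h9, integral_finsetSum _ fun a _ => h5 a]
    refine Finset.sum_congr rfl fun a _ => ?_
    exact R.integral_comp (w a m) (f := fun y => u a y - 1) ((hu a).meas.sub_const 1)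
  filter_upwards [h2] with x hx
  refine cvg_of_ae (P := Measure.pi fun _ : A => μ) (k := fun m => c m * mf N (U m) x)
    (r := fun m ω => ∏ a, mf N (U m) (ω a))
    (C := ∏ _a : A, Real.exp (∑ a, ∫ y, (u a y - 1) ∂ν)) ?_ ?_ ?_ ?_ ?_
  · exact fun m => Finset.measurable_fun_prod _ fun a _ =>
      (measurable_mf hN.1 (hUA m)).comp (measurable_pi_apply a)
  · intro m ω
    rw [abs_mul, abs_mul, abs_of_nonneg (mf01 (hUA m) _).1, abs_of_nonneg (hprod m ω).1]
    exact mul_le_one₀ (mul_le_one₀ (hc m) (mf01 (hUA m) _).1 (mf01 (hUA m) _).2) (hprod m ω).1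
      (hprod m ω).2
  · exact Finset.prod_ne_zero_iff.2 fun a _ => (Real.exp_pos _).ne'
  · intro m
    rw [integral_fintype_prod_eq_prod (𝕜 := ℝ) (fun (_ : A) x => mf N (U m) x)]
    exact Finset.prod_congr rfl fun a _ => hint1 m
  · filter_upwards [hx] with ω hω
    exact hω.congr fun m => by
      show c m * (mf N (U m) x * ∏ a, mf N (U m) (ω a)) = _
      ring

end Pool.Agent.Lib.Pf720po
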