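import Pool.Agent.Lib.Pf720po.Base

/-!
# Weighted recoupling of Gaussian averages

MODULE Recouple. This is `gauss_expP` of Pf720gs/PExp.lean (proof from `set v` on) with deterministic
weights `c`: the decoupled convergence is now a hypothesis. Replace `CS` by `CSw c` everywhere:
* `measurableSet_CSw`: as `measurableSet_CS` (Pf720gs/GExp.lean), also jointly in `(c, k)`.
* `CSw_of_ae_prod`: as `CS_of_ae_prod`: from a.e. convergence of the averages of
  `c m * cos (k m + r m ω)` and `c m * sin (k m + r m ω)`, bounded by `1`, and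
  `∫ cos (k m + r m ω) = C * cos (k m)`, `∫ sin (k m + r m ω) = C * sin (k m)`, `C ≠ 0`.
* `gauss_recouple`: the law identity `hlaw` in `gauss_expP` (it does not involve the weights), then
  `ae_transfer` with the set `{k | CSw c k}`, `Measure.ae_ae_of_ae_prod`, `CSw_of_ae_prod`.
  `aG S q h m` is definitionally the family called `a m` there.
-/

set_option autoImplicit false
set_option linter.unusedSectionVars false

open MeasureTheory Filter Topology ProbabilityTheory
open scoped ENNReal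

namespace Pool.Agent.Lib.Pf720po

open Pool.Agent.Lib.Pf720ae Pool.Agent.Lib.Pf720gs
open Pool.Agent.Lib.Pf720pp (PV ev)

variable {κ : Type} [Fintype κ] [DecidableEq κ]

theorem measurableSet_CSw_prod :
    MeasurableSet {p : ((κ → ℕ) → ℝ) × ((κ → ℕ) → ℝ) | CSw p.1 p.2} := by
  have h1 : ∀ M : κ → ℕ, Measurable fun p : ((κ → ℕ) → ℝ) × ((κ → ℕ) → ℝ) =>
      avg M fun m => p.1 m * Real.cos (p.2 m) := by
    intro M
    unfold avg
    refine Measurable.const_mul (Finset.measurable_fun_sum _ fun m _ => ?_) _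
    exact ((measurable_pi_apply m).comp measurable_fst).mul
      (Real.measurable_cos.comp ((measurable_pi_apply m).comp measurable_snd))
  have h2 : ∀ M : κ → ℕ, Measurable fun p : ((κ → ℕ) → ℝ) × ((κ → ℕ) → ℝ) =>
      avg M fun m => p.1 m * Real.sin (p.2 m) := by
    intro M
    unfold avg
    refine Measurable.const_mul (Finset.measurable_fun_sum _ fun m _ => ?_) _
    exact ((measurable_pi_apply m).comp measurable_fst).mul
      (Real.measurable_sin.comp ((measurable_pi_apply m).comp measurable_snd))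
  exact (measurableSet_exists_tendsto h1).inter (measurableSet_exists_tendsto h2)

theorem measurableSet_CSw (c : (κ → ℕ) → ℝ) : MeasurableSet {k : (κ → ℕ) → ℝ | CSw c k} :=
  (measurable_const.prodMk measurable_id : Measurable fun k : (κ → ℕ) → ℝ => (c, k))
    measurableSet_CSw_prod

theorem CSw_of_ae_prod {Ω : Type} [MeasurableSpace Ω] {P : Measure Ω} [IsProbabilityMeasure P]
    {c : (κ → ℕ) → ℝ} (hc1 : ∀ m, |c m| ≤ 1)
    {k : (κ → ℕ) → ℝ} {r : (κ → ℕ) → Ω → ℝ} (hr : ∀ m, Measurable (r m)) {C : ℝ} (hC : C ≠ 0)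
    (hcos : ∀ m, ∫ ω, Real.cos (k m + r m ω) ∂P = C * Real.cos (k m))
    (hsin : ∀ m, ∫ ω, Real.sin (k m + r m ω) ∂P = C * Real.sin (k m))
    (h : ∀ᵐ ω ∂P, CSw c fun m => k m + r m ω) : CSw c k := by
  have hb : ∀ (T : ℝ → ℝ), (∀ t, |T t| ≤ 1) → ∀ m t, |c m * T t| ≤ 1 := by
    intro T hT1 m t
    rw [abs_mul]
    exact mul_le_one₀ (hc1 m) (abs_nonneg _) (hT1 t)
  have hint : ∀ (M : κ → ℕ) (T : ℝ → ℝ), Measurable T → (∀ t, |T t| ≤ 1) →
      ∫ ω, (avg M fun m => c m * T (k m + r m ω)) ∂P =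
        avg M fun m => c m * ∫ ω, T (k m + r m ω) ∂P := by
    intro M T hT hT1
    unfold avg
    rw [integral_const_mul, integral_finsetSum]
    · congr 1
      exact Finset.sum_congr rfl fun m _ => integral_const_mul _ _
    intro m _
    exact Integrable.of_bound
      ((hT.comp (measurable_const.add (hr m))).const_mul (c m)).aestronglyMeasurable 1
      (Eventually.of_forall fun ω => hb T hT1 m _)
  have hmeas : ∀ (M : κ → ℕ) (T : ℝ → ℝ), Measurable T →
      Measurable fun ω => avg M fun m => c m * T (k m + r m ω) := by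
    intro M T hT
    unfold avg
    exact Measurable.const_mul (Finset.measurable_fun_sum _ fun m _ =>
      (hT.comp (measurable_const.add (hr m))).const_mul (c m)) _
  have key : ∀ (T : ℝ → ℝ), Measurable T → (∀ t, |T t| ≤ 1) →
      (∀ᵐ ω ∂P, Cvg fun m => c m * T (k m + r m ω)) →
      (∀ m, ∫ ω, T (k m + r m ω) ∂P = C * T (k m)) → Cvg fun m => c m * T (k m) := by
    intro T hT hT1 hae hc'
    obtain ⟨L, hL⟩ : ∃ L : Ω → ℝ, ∀ᵐ ω ∂P,
        Tendsto (fun M : κ → ℕ => avg M fun m => c m * T (k m + r m ω)) atTop (𝓝 (L ω)) := by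
      classical
      refine ⟨fun ω => if hω : Cvg (fun m => c m * T (k m + r m ω)) then hω.choose else 0, ?_⟩
      filter_upwards [hae] with ω hω
      rw [dif_pos hω]
      exact hω.choose_spec
    have h1 := tendsto_integral_filter_of_dominated_convergence (μ := P) (fun _ => (1 : ℝ))
      (Eventually.of_forall fun M : κ → ℕ => (hmeas M T hT).aestronglyMeasurable)
      (Eventually.of_forall fun M : κ → ℕ => Eventually.of_forall fun ω => by
        rw [Real.norm_eq_abs]
        exact abs_avg_le_of_le zero_le_one fun m => hb T hT1 m _) (integrable_const _) hL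
    simp only [hint _ T hT hT1, hc'] at h1
    have h2 : Cvg fun m => c m * (C * T (k m)) := ⟨_, h1⟩
    refine (h2.smul C⁻¹).congr fun m => ?_
    rw [mul_left_comm C⁻¹ (c m), ← mul_assoc C⁻¹ C, inv_mul_cancel₀ hC, one_mul]
  refine ⟨key Real.cos Real.measurable_cos Real.abs_cos_le_one ?_ hcos,
    key Real.sin Real.measurable_sin Real.abs_sin_le_one ?_ hsin⟩
  · filter_upwards [h] with ω hω using hω.1
  · filter_upwards [h] with ω hω using hω.2

variable {V X : Type} [AddCommGroup V] [Module ℝ V] {mX : MeasurableSpace X} {μ : Measure X}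
  [IsProbabilityMeasure μ] {d : ℕ} {J : Type} [Fintype J] [DecidableEq J]

theorem gauss_recouple (g : GF V X μ) (act : MAct (Fin d → ℤ) X μ) (S : (Fin d → ℤ) → V →ₗ[ℝ] V)
    (hS : ∀ w v x, g.G (S w v) x = g.G v (act.S w x))
    (hSadd : ∀ w w' v, S (w + w') v = S w (S w' v))
    (hB : ∀ w u v, g.B (S w u) (S w v) = g.B u v)
    (q : J → κ → PV d) (h : J → V) (c : (κ → ℕ) → ℝ) (hc : ∀ m, |c m| ≤ 1)
    (hdec : ∀ᵐ ω ∂(Measure.pi fun _ : J ⊕ (J × J) => μ), CSw c fun m => g.GC (aG S q h m) ω) :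
    ∀ᵐ x ∂μ, CSw c fun m : κ → ℕ => ∑ j, g.G (h j) (act.S (ev (q j) m) x) := by
  have hQS : ∀ w v, g.Q (S w v) = g.Q v := fun w v => hB w v v
  set cst : ℝ := Real.sqrt (Fintype.card J) with hcst
  set σ : ℝ := Real.sqrt (1 / 2) with hσ
  have hcst2 : cst ^ 2 = (Fintype.card J : ℝ) := Real.sq_sqrt (by positivity)
  have hσ2 : σ ^ 2 = 1 / 2 := Real.sq_sqrt (by norm_num)
  -- the coupled system
  set v : (κ → ℕ) → V := fun m => ∑ j, S (ev (q j) m) (h j) with hv
  set b : (κ → ℕ) → (J × J) ⊕ (J × J) → V := fun m => Sum.elim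
    (fun p => σ • (S (ev (q p.1) m) (h p.1) - S (ev (q p.2) m) (h p.2)))
    (fun p => σ • (S (ev (q p.2) m - ev (q p.1) m) (h p.2) + h p.1)) with hb
  have hlaw : (Measure.pi fun _ : J ⊕ (J × J) => μ).map (fun ω m => g.GC (aG S q h m) ω) =
      (μ.prod (Measure.pi fun _ : (J × J) ⊕ (J × J) => μ)).map
        (fun p m => g.G (v m) p.1 + g.GC (b m) p.2) := by
    refine law_eq (fun m => g.measurable_GC _)
      (fun m => ((g.meas _).comp measurable_fst).add ((g.measurable_GC _).comp measurable_snd)) ?_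
    intro s t
    have e1 : ∀ ω, ∑ m ∈ s, t m * g.GC (aG S q h m) ω =
        g.GC (fun c => ∑ m ∈ s, t m • aG S q h m c) ω :=
      fun ω => g.GC_sum s t (aG S q h) ω
    have e2 : ∀ p : X × ((J × J) ⊕ (J × J) → X),
        ∑ m ∈ s, t m * (g.G (v m) p.1 + g.GC (b m) p.2) =
          g.G (∑ m ∈ s, t m • v m) p.1 + g.GC (fun c => ∑ m ∈ s, t m • b m c) p.2 := by
      intro p
      rw [← g.GC_sum, g.sum]
      simp only [g.smul, mul_add, Finset.sum_add_distrib]
    simp only [e1, e2]
    rw [g.char_GC, g.char_prod]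
    congr 3
    -- the quadratic forms agree
    set U : J → V := fun j => ∑ m ∈ s, t m • S (ev (q j) m) (h j) with hU
    have f1 : ∀ j, (∑ m ∈ s, t m • aG S q h m (Sum.inl j)) = cst • U j := by
      intro j
      simp only [aG, Sum.elim_inl, hU, Finset.smul_sum]
      exact Finset.sum_congr rfl fun m _ => smul_comm _ _ _
    have f2 : ∀ p : J × J, (∑ m ∈ s, t m • b m (Sum.inl p)) = σ • (U p.1 - U p.2) := by
      intro p
      simp only [hb, Sum.elim_inl, hU, ← Finset.sum_sub_distrib, Finset.smul_sum, ← smul_sub]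
      exact Finset.sum_congr rfl fun m _ => smul_comm _ _ _
    have f3 : (∑ m ∈ s, t m • v m) = ∑ j, U j := by
      simp only [hv, hU, Finset.smul_sum]
      rw [Finset.sum_comm]
    have f4 : ∀ p : J × J, (∑ m ∈ s, t m • aG S q h m (Sum.inr p)) =
        ∑ m ∈ s, t m • b m (Sum.inr p) := by
      intro p
      rfl
    rw [Fintype.sum_sum_type, Fintype.sum_sum_type, f3]
    simp only [f1, f2, f4, g.Q_smul, hcst2, hσ2]
    rw [Fintype.sum_prod_type (f := fun p : J × J => 1 / 2 * g.Q (U p.1 - U p.2))]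
    have h3 := g.lagrange U
    simp only [← Finset.mul_sum] at h3 ⊢
    rw [← add_assoc, h3]
  have hcoup := ae_transfer (fun m => g.measurable_GC _)
    (fun m => ((g.meas _).comp measurable_fst).add ((g.measurable_GC _).comp measurable_snd))
    hlaw (measurableSet_CSw c) hdec
  -- integrate out the copies
  have hfub : ∀ᵐ x ∂μ, ∀ᵐ ω ∂(Measure.pi fun _ : (J × J) ⊕ (J × J) => μ),
      CSw c fun m => g.G (v m) x + g.GC (b m) ω := Measure.ae_ae_of_ae_prod hcoup
  have hconst : ∀ m, ∑ c, g.Q (b m c) = ∑ p : J × J, (g.Q (h p.1) + g.Q (h p.2)) := by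
    intro m
    rw [Fintype.sum_sum_type, ← Finset.sum_add_distrib]
    refine Finset.sum_congr rfl fun p _ => ?_
    simp only [hb, Sum.elim_inl, Sum.elim_inr]
    rw [g.Q_smul, g.Q_smul, hσ2, ← hQS (ev (q p.1) m)
      (S (ev (q p.2) m - ev (q p.1) m) (h p.2) + h p.1), map_add, ← hSadd,
      add_sub_cancel, g.Q_add, g.Q_sub, hQS, hQS,
      g.Bsymm (S (ev (q p.2) m) (h p.2)) (S (ev (q p.1) m) (h p.1))]
    ring
  filter_upwards [hfub] with x hx
  have h1 := CSw_of_ae_prod (P := Measure.pi fun _ : (J × J) ⊕ (J × J) => μ) hc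
    (k := fun m => g.G (v m) x) (r := fun m ω => g.GC (b m) ω) (fun m => g.measurable_GC _)
    (C := Real.exp (-(∑ p : J × J, (g.Q (h p.1) + g.Q (h p.2))) / 2)) (Real.exp_pos _).ne'
    (fun m => by rw [← hconst m]; exact (g.integral_cos_sin (b m) _).1)
    (fun m => by rw [← hconst m]; exact (g.integral_cos_sin (b m) _).2) hx
  have h2 : (fun m : κ → ℕ => g.G (v m) x) =
      fun m : κ → ℕ => ∑ j, g.G (h j) (act.S (ev (q j) m) x) := by
    funext m
    simp only [hv, g.sum, hS]
  rwa [h2] at h1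

end Pool.Agent.Lib.Pf720po
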