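import Pool.Agent.Lib.Pf720po.Color
import Pool.Agent.Lib.Pf720po.Recouple

/-!
# The core theorem
-/

set_option autoImplicit false
set_option linter.unusedSectionVars false

open MeasureTheory Filter Topology ProbabilityTheory
open scoped ENNReal

namespace Pool.Agent.Lib.Pf720po

open Pool.Agent.Lib.Pf720ae Pool.Agent.Lib.Pf720gs
open Pool.Agent.Lib.Pf720pp (PV ev)

section mix

variable {Y : Type} {mY : MeasurableSpace Y} {A : Type} [Fintype A]

lemma measurable_mix {u : A → Y → ℝ} (hu : ∀ a, Measurable (u a)) {σ : A → Y → Y}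
    (hσ : ∀ a, Measurable (σ a)) : Measurable (mix u σ) :=
  measurable_const.add (Finset.measurable_fun_sum _ fun a _ =>
    ((hu a).comp (hσ a)).sub measurable_const)

lemma finite_range_mix {u : A → Y → ℝ} (hu : ∀ a, (Set.range (u a)).Finite) (σ : A → Y → Y) :
    (Set.range (mix u σ)).Finite := by
  have h1 : {v : A → ℝ | ∀ a, v a ∈ Set.range (u a)}.Finite := Set.Finite.pi' hu
  refine (h1.image fun v : A → ℝ => 1 + ∑ a, (v a - 1)).subset ?_
  rintro _ ⟨y, rfl⟩
  exact ⟨fun a => u a (σ a y), fun a => ⟨_, rfl⟩, rfl⟩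

end mix

lemma measurable_mf {X Y : Type} {mX : MeasurableSpace X} {mY : MeasurableSpace Y}
    {N : X → Measure Y} (hN : Measurable N) {u : Y → ℝ} (hu : Measurable u)
    (hf : (Set.range u).Finite) : Measurable (mf N u) := by
  unfold mf
  refine Real.measurable_exp.comp (measurable_integral_fin_real hN
    (Real.measurable_log.comp hu) ?_)
  refine (hf.image Real.log).subset ?_
  rintro _ ⟨y, rfl⟩
  exact ⟨u y, ⟨y, rfl⟩, rfl⟩

variable {V X Y : Type} [AddCommGroup V] [Module ℝ V] {mX : MeasurableSpace X}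
  {mY : MeasurableSpace Y} {μ : Measure X}
  [IsProbabilityMeasure μ] {κ : Type} [Fintype κ] [DecidableEq κ] {d : ℕ} {J : Type} [Fintype J]
  [DecidableEq J]

section aux

variable {A : Type} [Fintype A] {B : Set Y} {u : A → Y → ℝ}

lemma lift_nonneg (hu : ∀ a, Amp (1 / (2 * ((Fintype.card A : ℝ) + 1))) B (u a)) (a : A) (y : Y) :
    0 ≤ lift (Fintype.card A) (u a) y := by
  have hA1 : (0 : ℝ) < (Fintype.card A : ℝ) + 1 := by positivity
  have h1 := (hu a).lb y
  unfold lift
  have h2 : ((Fintype.card A : ℝ) + 1) * (u a y - 1) ≥ -(1 / 2) := by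
    have h3 : u a y - 1 ≥ -(1 / (2 * ((Fintype.card A : ℝ) + 1))) := by linarith
    calc ((Fintype.card A : ℝ) + 1) * (u a y - 1)
        ≥ ((Fintype.card A : ℝ) + 1) * -(1 / (2 * ((Fintype.card A : ℝ) + 1))) :=
          mul_le_mul_of_nonneg_left h3 hA1.le
      _ = -(1 / 2) := by field_simp
  linarith

lemma lift_le_one (hu : ∀ a, Amp (1 / (2 * ((Fintype.card A : ℝ) + 1))) B (u a)) (a : A) (y : Y) :
    lift (Fintype.card A) (u a) y ≤ 1 := by
  have hA1 : (0 : ℝ) < (Fintype.card A : ℝ) + 1 := by positivity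
  have h1 := (hu a).ub y
  unfold lift
  have h2 : ((Fintype.card A : ℝ) + 1) * (u a y - 1) ≤ 0 :=
    mul_nonpos_of_nonneg_of_nonpos hA1.le (by linarith)
  linarith

lemma measurable_lift (hu : ∀ a, Amp (1 / (2 * ((Fintype.card A : ℝ) + 1))) B (u a)) (a : A) :
    Measurable (lift (Fintype.card A) (u a)) :=
  measurable_const.add (((hu a).meas.sub measurable_const).const_mul _)

lemma finite_range_lift (hu : ∀ a, Amp (1 / (2 * ((Fintype.card A : ℝ) + 1))) B (u a)) (a : A) :
    (Set.range (lift (Fintype.card A) (u a))).Finite := by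
  refine ((hu a).fin.image fun t => 1 + ((Fintype.card A : ℝ) + 1) * (t - 1)).subset ?_
  rintro _ ⟨y, rfl⟩
  exact ⟨u a y, ⟨y, rfl⟩, rfl⟩

lemma mix_nonneg (hu : ∀ a, Amp (1 / (2 * ((Fintype.card A : ℝ) + 1))) B (u a))
    (σ : A → Y → Y) (y : Y) : 0 ≤ mix u σ y := by
  unfold mix
  have h1 : ∑ a : A, (u a (σ a y) - 1) ≥
      ∑ _a : A, -(1 / (2 * ((Fintype.card A : ℝ) + 1))) :=
    Finset.sum_le_sum fun a _ => by
      have := (hu a).lb (σ a y)
      linarith
  rw [Finset.sum_const, Finset.card_univ, nsmul_eq_mul] at h1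
  have h2 : (Fintype.card A : ℝ) * -(1 / (2 * ((Fintype.card A : ℝ) + 1))) ≥ -1 := by
    rw [mul_neg, ge_iff_le, neg_le_neg_iff, mul_one_div, div_le_one (by positivity)]
    linarith
  linarith

lemma mix_le_one (hu : ∀ a, Amp (1 / (2 * ((Fintype.card A : ℝ) + 1))) B (u a))
    (σ : A → Y → Y) (y : Y) : mix u σ y ≤ 1 := by
  unfold mix
  have h1 : ∑ a : A, (u a (σ a y) - 1) ≤ 0 :=
    Finset.sum_nonpos fun a _ => by
      have := (hu a).ub (σ a y)
      linarith
  linarith

end aux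

/-- the decoupled weights -/
noncomputable def wD (N : X → Measure Y) {ν : Measure Y} (R : MAct (Fin d → ℤ) Y ν) {A : Type}
    [Fintype A] (q' : A → κ → PV d) (u : A → Y → ℝ) (ω' : A → X) (m : κ → ℕ) : ℝ :=
  ∏ a, mf N (fun y => lift (Fintype.card A) (u a) (R.S (ev (q' a) m) y)) (ω' a)

/-- the decoupled system -/
theorem core_dec (g : GF V X μ) (act : MAct (Fin d → ℤ) X μ) (S : (Fin d → ℤ) → V →ₗ[ℝ] V)
    (hS : ∀ w v x, g.G (S w v) x = g.G v (act.S w x))
    {ν : Measure Y} {N : X → Measure Y} (hN : IsPoisson μ ν N) (R : MAct (Fin d → ℤ) Y ν)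
    (hNR : ∀ w x, N (act.S w x) = (N x).map (R.S w))
    (q : J → κ → PV d) (h : J → V)
    {A : Type} [Fintype A] [DecidableEq A] {B : Set Y}
    (q' : A → κ → PV d) (u : A → Y → ℝ)
    (hu : ∀ a, Amp (1 / (2 * ((Fintype.card A : ℝ) + 1))) B (u a)) :
    ∀ᵐ p ∂((Measure.pi fun _ : J ⊕ (J × J) => μ).prod (Measure.pi fun _ : A => μ)),
      CSw (wD N R q' u p.2) (fun m => g.GC (aG S q h m) p.1) := by
  let DG : J ⊕ (J × J) → κ → PV d := Sum.elim q (fun p l => q p.2 l - q p.1 l)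
  have hDr : ∀ (p : J × J) (m : κ → ℕ), ev (DG (Sum.inr p)) m = ev (q p.2) m - ev (q p.1) m :=
    fun p m => ev_sub _ _ _
  let D : (J ⊕ (J × J)) ⊕ A → κ → PV d := Sum.elim DG q'
  let base : J ⊕ (J × J) → V := Sum.elim (fun j => Real.sqrt (Fintype.card J) • h j)
    (fun p => Real.sqrt (1 / 2) • h p.2)
  let exf : J ⊕ (J × J) → V := Sum.elim (fun _ => 0) (fun p => Real.sqrt (1 / 2) • h p.1)
  have e1 : ∀ (m : κ → ℕ) (ω : J ⊕ (J × J) → X), g.GC (aG S q h m) ω =
      g.GC base (fun c => act.S (ev (DG c) m) (ω c)) + g.GC exf ω := by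
    intro m ω
    unfold GF.GC
    rw [← Finset.sum_add_distrib]
    refine Finset.sum_congr rfl fun c _ => ?_
    rcases c with j | p
    · simp only [aG, base, exf, Sum.elim_inl, DG]
      rw [g.smul, hS, g.smul, g.zero, add_zero]
    · simp only [aG, base, exf, Sum.elim_inr, hDr]
      rw [g.smul, g.add, hS, g.smul, g.smul, mul_add]
  let W : ((J ⊕ (J × J)) ⊕ A → X) → ℝ := fun ω =>
    ∏ a, mf N (lift (Fintype.card A) (u a)) (ω (Sum.inr a))
  have hWm : Measurable W := Finset.measurable_fun_prod _ fun a _ =>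
    (measurable_mf hN.1 (measurable_lift hu a) (finite_range_lift hu a)).comp
      (measurable_pi_apply _)
  have hW0 : ∀ ω, 0 ≤ W ω := fun ω => Finset.prod_nonneg fun a _ => (mf_pos _ _ _).le
  have hW1 : ∀ ω, W ω ≤ 1 := fun ω => Finset.prod_le_one (fun a _ => (mf_pos _ _ _).le)
    fun a _ => mf_le_one N (lift_nonneg hu a) (lift_le_one hu a) _
  let Gb : ((J ⊕ (J × J)) ⊕ A → X) → ℝ := fun ω => g.GC base (fun c => ω (Sum.inl c))
  have hGbm : Measurable Gb := (g.measurable_GC base).comp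
    (measurable_pi_iff.2 fun c => measurable_pi_apply _)
  have hpc := pz (κ := κ) act D (F := fun ω => W ω * Real.cos (Gb ω))
    (hWm.mul (Real.measurable_cos.comp hGbm)) (fun ω => by
      rw [abs_mul, abs_of_nonneg (hW0 ω)]
      exact mul_le_one₀ (hW1 ω) (abs_nonneg _) (Real.abs_cos_le_one _))
  have hps := pz (κ := κ) act D (F := fun ω => W ω * Real.sin (Gb ω))
    (hWm.mul (Real.measurable_sin.comp hGbm)) (fun ω => by
      rw [abs_mul, abs_of_nonneg (hW0 ω)]
      exact mul_le_one₀ (hW1 ω) (abs_nonneg _) (Real.abs_sin_le_one _))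
  have hWw : ∀ (ω : (J ⊕ (J × J)) ⊕ A → X) (m : κ → ℕ), W (fun c => act.S (ev (D c) m) (ω c)) =
      wD N R q' u (fun a => ω (Sum.inr a)) m := by
    intro ω m
    refine Finset.prod_congr rfl fun a _ => ?_
    exact mf_map (R.mp _).measurable (hNR _) (measurable_lift hu a) _
  have hdec : ∀ᵐ ω ∂(Measure.pi fun _ : (J ⊕ (J × J)) ⊕ A => μ),
      CSw (wD N R q' u fun a => ω (Sum.inr a))
        (fun m => g.GC (aG S q h m) (fun c => ω (Sum.inl c))) := by
    filter_upwards [hpc, hps] with ω hc hs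
    have hGG : ∀ m : κ → ℕ, Gb (fun c => act.S (ev (D c) m) (ω c)) =
        g.GC base (fun c => act.S (ev (DG c) m) (ω (Sum.inl c))) := fun m => rfl
    constructor
    · refine ((hc.smul (Real.cos (g.GC exf fun c => ω (Sum.inl c)))).add
        (hs.smul (-Real.sin (g.GC exf fun c => ω (Sum.inl c))))).congr fun m => ?_
      show _ = wD N R q' u _ m * Real.cos (g.GC (aG S q h m) fun c => ω (Sum.inl c))
      rw [e1, Real.cos_add, hWw, hGG]
      ring
    · refine ((hs.smul (Real.cos (g.GC exf fun c => ω (Sum.inl c)))).add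
        (hc.smul (Real.sin (g.GC exf fun c => ω (Sum.inl c))))).congr fun m => ?_
      show _ = wD N R q' u _ m * Real.sin (g.GC (aG S q h m) fun c => ω (Sum.inl c))
      rw [e1, Real.sin_add, hWw, hGG]
      ring
  exact (measurePreserving_sumPiEquivProdPi_symm
    (fun _ : (J ⊕ (J × J)) ⊕ A => μ)).quasiMeasurePreserving.ae hdec

/-- the recolored weights -/
noncomputable def wM (N : X → Measure Y) {ν : Measure Y} (R : MAct (Fin d → ℤ) Y ν) {A : Type}
    [Fintype A] (q' : A → κ → PV d) (u : A → Y → ℝ) (x : X) (m : κ → ℕ) : ℝ :=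
  mf N (mix u (fun a => R.S (ev (q' a) m))) x

lemma measurable_wM {N : X → Measure Y} (hN : Measurable N) {ν : Measure Y}
    (R : MAct (Fin d → ℤ) Y ν) {A : Type} [Fintype A] {B : Set Y}
    (q' : A → κ → PV d) {u : A → Y → ℝ}
    (hu : ∀ a, Amp (1 / (2 * ((Fintype.card A : ℝ) + 1))) B (u a)) :
    Measurable (wM N R q' u) :=
  measurable_pi_iff.2 fun m => measurable_mf hN
    (measurable_mix (fun a => (hu a).meas) (fun a => (R.mp _).measurable))
    (finite_range_mix (fun a => (hu a).fin) _)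

lemma abs_wM_le {N : X → Measure Y} {ν : Measure Y}
    (R : MAct (Fin d → ℤ) Y ν) {A : Type} [Fintype A] {B : Set Y}
    (q' : A → κ → PV d) {u : A → Y → ℝ}
    (hu : ∀ a, Amp (1 / (2 * ((Fintype.card A : ℝ) + 1))) B (u a)) (x : X) (m : κ → ℕ) :
    |wM N R q' u x m| ≤ 1 := by
  unfold wM
  rw [abs_of_nonneg (mf_pos _ _ _).le]
  exact mf_le_one N (mix_nonneg hu _) (mix_le_one hu _) x

/-- after recoloring -/
theorem core_rec (g : GF V X μ) (act : MAct (Fin d → ℤ) X μ) (S : (Fin d → ℤ) → V →ₗ[ℝ] V)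
    (hS : ∀ w v x, g.G (S w v) x = g.G v (act.S w x))
    {ν : Measure Y} {N : X → Measure Y} (hN : IsPoisson μ ν N) (R : MAct (Fin d → ℤ) Y ν)
    (hNR : ∀ w x, N (act.S w x) = (N x).map (R.S w))
    (q : J → κ → PV d) (h : J → V)
    {A : Type} [Fintype A] [DecidableEq A] {B : Set Y} (hB : MeasurableSet B) (hνB : ν B < ⊤)
    (q' : A → κ → PV d) (u : A → Y → ℝ)
    (hu : ∀ a, Amp (1 / (2 * ((Fintype.card A : ℝ) + 1))) B (u a)) :
    ∀ᵐ x ∂μ, ∀ᵐ ω ∂(Measure.pi fun _ : J ⊕ (J × J) => μ),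
      CSw (wM N R q' u x) (fun m => g.GC (aG S q h m) ω) := by
  have hdec3 : ∀ᵐ ω ∂(Measure.pi fun _ : J ⊕ (J × J) => μ), ∀ᵐ ω' ∂(Measure.pi fun _ : A => μ),
      CSw (wD N R q' u ω') (fun m => g.GC (aG S q h m) ω) :=
    Measure.ae_ae_of_ae_prod (core_dec g act S hS hN R hNR q h q' u hu)
  have hstep3 : ∀ᵐ ω ∂(Measure.pi fun _ : J ⊕ (J × J) => μ), ∀ᵐ x ∂μ,
      CSw (wM N R q' u x) (fun m => g.GC (aG S q h m) ω) := by
    filter_upwards [hdec3] with ω hω
    have h1 := poisson_step (κ := κ) hN R hB hνB hu (fun a m => ev (q' a) m)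
      (fun m => Real.cos (g.GC (aG S q h m) ω)) (fun m => Real.abs_cos_le_one _)
      (by filter_upwards [hω] with ω' hω'
          exact hω'.1.congr fun m => mul_comm _ _)
    have h2 := poisson_step (κ := κ) hN R hB hνB hu (fun a m => ev (q' a) m)
      (fun m => Real.sin (g.GC (aG S q h m) ω)) (fun m => Real.abs_sin_le_one _)
      (by filter_upwards [hω] with ω' hω'
          exact hω'.2.congr fun m => mul_comm _ _)
    filter_upwards [h1, h2] with x hx1 hx2
    exact ⟨hx1.congr fun m => mul_comm _ _, hx2.congr fun m => mul_comm _ _⟩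
  have hkm : Measurable fun ω : J ⊕ (J × J) → X => fun m : κ → ℕ => g.GC (aG S q h m) ω :=
    measurable_pi_iff.2 fun m => g.measurable_GC _
  have hM : Measurable (fun p : X × (J ⊕ (J × J) → X) =>
      ((wM N R q' u p.1, fun m : κ → ℕ => g.GC (aG S q h m) p.2) :
        ((κ → ℕ) → ℝ) × ((κ → ℕ) → ℝ))) :=
    ((measurable_wM hN.1 R q' hu).comp measurable_fst).prodMk (hkm.comp measurable_snd)
  have hMS := hM (measurableSet_CSw_prod (κ := κ))
  exact (Measure.ae_ae_comm (p := fun (x : X) (ω : J ⊕ (J × J) → X) =>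
    CSw (wM N R q' u x) (fun m : κ → ℕ => g.GC (aG S q h m) ω)) hMS).2 hstep3

/-- using independence -/
lemma ae_of_indep {T₁ T₂ : Type} [MeasurableSpace T₁] [MeasurableSpace T₂] {F : X → T₁} {G : X → T₂}
    (hF : Measurable F) (hG : Measurable G) (hind : IndepFun F G μ) {E : Set (T₁ × T₂)}
    (hE : MeasurableSet E) (h : ∀ᵐ x ∂μ, ∀ᵐ x' ∂μ, (F x, G x') ∈ E) :
    ∀ᵐ x ∂μ, (F x, G x) ∈ E := by
  have hmap := (indepFun_iff_map_prod_eq_prod_map_map hF.aemeasurable hG.aemeasurable).1 hind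
  have hprob1 : IsProbabilityMeasure (μ.map F) := Measure.isProbabilityMeasure_map hF.aemeasurable
  have hprob2 : IsProbabilityMeasure (μ.map G) := Measure.isProbabilityMeasure_map hG.aemeasurable
  have h1 : ∀ᵐ p ∂((μ.map F).prod (μ.map G)), p ∈ E := by
    rw [Measure.ae_prod_mem_iff_ae_ae_mem hE]
    have hE' : MeasurableSet {c : T₁ | ∀ᵐ k ∂(μ.map G), (c, k) ∈ E} := by
      have h2 := measurable_measure_prodMk_left (ν := μ.map G) hE.compl
      have h3 : {c : T₁ | ∀ᵐ k ∂(μ.map G), (c, k) ∈ E} =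
          (fun c => (μ.map G) (Prod.mk c ⁻¹' Eᶜ)) ⁻¹' {0} := rfl
      rw [h3]
      exact h2 (measurableSet_singleton 0)
    rw [ae_map_iff hF.aemeasurable hE']
    filter_upwards [h] with x hx
    rw [ae_map_iff hG.aemeasurable (measurable_prodMk_left hE)]
    exact hx
  rw [← hmap] at h1
  exact (ae_map_iff (hF.prodMk hG).aemeasurable hE).1 h1

theorem core (g : GF V X μ) (act : MAct (Fin d → ℤ) X μ) (S : (Fin d → ℤ) → V →ₗ[ℝ] V)
    (hS : ∀ w v x, g.G (S w v) x = g.G v (act.S w x))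
    (hSadd : ∀ w w' v, S (w + w') v = S w (S w' v))
    (hBi : ∀ w u v, g.B (S w u) (S w v) = g.B u v)
    {ν : Measure Y} {N : X → Measure Y} (hN : IsPoisson μ ν N) (R : MAct (Fin d → ℤ) Y ν)
    (hNR : ∀ w x, N (act.S w x) = (N x).map (R.S w))
    (hind : Indep (⨆ v, MeasurableSpace.comap (g.G v) (borel ℝ))
      (MeasurableSpace.comap N inferInstance) μ)
    (q : J → κ → PV d) (h : J → V)
    {A : Type} [Fintype A] [DecidableEq A] {B : Set Y} (hB : MeasurableSet B) (hνB : ν B < ⊤)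
    (q' : A → κ → PV d) (u : A → Y → ℝ)
    (hu : ∀ a, Amp (1 / (2 * ((Fintype.card A : ℝ) + 1))) B (u a)) :
    ∀ᵐ x ∂μ, CSw (fun m : κ → ℕ => mf N (mix u (fun a => R.S (ev (q' a) m))) x)
      (fun m => ∑ j, g.G (h j) (act.S (ev (q j) m) x)) := by
  have hstep4 := core_rec g act S hS hN R hNR q h hB hνB q' u hu
  have hk'v : ∀ x (m : κ → ℕ), ∑ j, g.G (h j) (act.S (ev (q j) m) x) =
      g.G (∑ j, S (ev (q j) m) (h j)) x := by
    intro x m
    simp only [g.sum, hS]
  have hk'v' : ∀ m : κ → ℕ, (fun x => ∑ j, g.G (h j) (act.S (ev (q j) m) x)) =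
      g.G (∑ j, S (ev (q j) m) (h j)) := fun m => funext fun x => hk'v x m
  have hk'm : Measurable fun x => fun m : κ → ℕ => ∑ j, g.G (h j) (act.S (ev (q j) m) x) := by
    refine measurable_pi_iff.2 fun m => ?_
    rw [hk'v' m]
    exact g.meas _
  have hstep5 : ∀ᵐ x ∂μ, ∀ᵐ x' ∂μ, CSw (wM N R q' u x)
      (fun m => ∑ j, g.G (h j) (act.S (ev (q j) m) x')) := by
    filter_upwards [hstep4] with x hx
    exact gauss_recouple g act S hS hSadd hBi q h (wM N R q' u x) (abs_wM_le R q' hu x) hx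
  -- independence
  have hindf : IndepFun (wM N R q' u)
      (fun x => fun m : κ → ℕ => ∑ j, g.G (h j) (act.S (ev (q j) m) x)) μ := by
    have hle1 : MeasurableSpace.comap (wM N R q' u) MeasurableSpace.pi ≤
        MeasurableSpace.comap N inferInstance := by
      have hcomp : wM N R q' u = wM (fun η : Measure Y => η) R q' u ∘ N := rfl
      rw [hcomp, ← MeasurableSpace.comap_comp]
      exact MeasurableSpace.comap_mono (measurable_wM measurable_id R q' hu).comap_le
    have hle2 : MeasurableSpace.comap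
        (fun x => fun m : κ → ℕ => ∑ j, g.G (h j) (act.S (ev (q j) m) x)) MeasurableSpace.pi ≤
        ⨆ v, MeasurableSpace.comap (g.G v) (borel ℝ) := by
      unfold MeasurableSpace.pi
      rw [MeasurableSpace.comap_iSup]
      refine iSup_le fun m => ?_
      rw [MeasurableSpace.comap_comp]
      have e3 : ((fun b : (κ → ℕ) → ℝ => b m) ∘
          fun x => fun m : κ → ℕ => ∑ j, g.G (h j) (act.S (ev (q j) m) x)) =
          g.G (∑ j, S (ev (q j) m) (h j)) := hk'v' m
      rw [e3, BorelSpace.measurable_eq (α := ℝ)]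
      exact le_iSup (fun v => MeasurableSpace.comap (g.G v) (borel ℝ)) _
    rw [IndepFun_iff_Indep]
    exact (indep_of_indep_of_le_right (indep_of_indep_of_le_left hind hle2) hle1).symm
  exact ae_of_indep (measurable_wM hN.1 R q' hu) hk'm hindf measurableSet_CSw_prod hstep5

end Pool.Agent.Lib.Pf720po
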