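import Pool.Agent.Lib.Pf720po.Base

/-!
# Functions orthogonal to the exponentials of a process
-/

set_option autoImplicit false
set_option linter.unusedSectionVars false

open MeasureTheory Filter Topology ProbabilityTheory
open scoped ENNReal

namespace Pool.Agent.Lib.Pf720po

open Pool.Agent.Lib.Pf720ae Pool.Agent.Lib.Pf720gs

/-- If `φ` is orthogonal to all exponentials of the process `K` then its integral vanishes over all
sets measurable with respect to `K`. -/
theorem setIntegral_eq_zero_of_char {Ω ι : Type} {mΩ : MeasurableSpace Ω} {P : Measure Ω}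
    {K : ι → Ω → ℝ} (hK : ∀ i, Measurable (K i)) {φ : Ω → ℝ} (hφ : Integrable φ P)
    (h : ∀ (s : Finset ι) (t : ι → ℝ),
      ∫ ω, (φ ω : ℂ) * Complex.exp (((∑ i ∈ s, t i * K i ω : ℝ) : ℂ) * Complex.I) ∂P = 0)
    {D : Set Ω} (hD : MeasurableSet[⨆ i, MeasurableSpace.comap (K i) (borel ℝ)] D) :
    ∫ ω in D, φ ω ∂P = 0 := by
  set P₁ : Measure Ω := P.withDensity fun x => ENNReal.ofReal (φ x) with hP₁
  set P₂ : Measure Ω := P.withDensity fun x => ENNReal.ofReal (-φ x) with hP₂
  have hf1 : IsFiniteMeasure P₁ := isFiniteMeasure_withDensity_ofReal hφ.2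
  have hf2 : IsFiniteMeasure P₂ := isFiniteMeasure_withDensity_ofReal hφ.neg.2
  have hlaw : P₁.map (fun x i => K i x) = P₂.map (fun x i => K i x) := by
    refine law_eq hK hK fun s t => ?_
    have hm : Measurable fun x => Complex.exp (((∑ i ∈ s, t i * K i x : ℝ) : ℂ) * Complex.I) := by
      have h1 : Measurable fun x => ∑ i ∈ s, t i * K i x :=
        Finset.measurable_fun_sum _ fun i _ => (hK i).const_mul _
      fun_prop
    have hb : ∀ x, ‖Complex.exp (((∑ i ∈ s, t i * K i x : ℝ) : ℂ) * Complex.I)‖ ≤ 1 :=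
      fun x => by rw [Complex.norm_exp_ofReal_mul_I]
    have hpos : Integrable (fun x => max (φ x) 0) P := hφ.pos_part
    have hneg : Integrable (fun x => max (-φ x) 0) P := hφ.neg_part
    have i1 : ∫ x, Complex.exp (((∑ i ∈ s, t i * K i x : ℝ) : ℂ) * Complex.I) ∂P₁ =
        ∫ x, ((max (φ x) 0 : ℝ) : ℂ) *
          Complex.exp (((∑ i ∈ s, t i * K i x : ℝ) : ℂ) * Complex.I) ∂P := by
      rw [hP₁, integral_withDensity_eq_integral_toReal_smul₀ hφ.1.aemeasurable.ennreal_ofReal
        (Eventually.of_forall fun x => ENNReal.ofReal_lt_top)]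
      refine integral_congr_ae (Eventually.of_forall fun x => ?_)
      simp only
      rw [ENNReal.toReal_ofReal', Complex.real_smul]
    have i2 : ∫ x, Complex.exp (((∑ i ∈ s, t i * K i x : ℝ) : ℂ) * Complex.I) ∂P₂ =
        ∫ x, ((max (-φ x) 0 : ℝ) : ℂ) *
          Complex.exp (((∑ i ∈ s, t i * K i x : ℝ) : ℂ) * Complex.I) ∂P := by
      have hn : AEMeasurable (fun x => ENNReal.ofReal (-φ x)) P :=
        hφ.1.aemeasurable.neg.ennreal_ofReal
      rw [hP₂, integral_withDensity_eq_integral_toReal_smul₀ hn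
        (Eventually.of_forall fun x => ENNReal.ofReal_lt_top)]
      refine integral_congr_ae (Eventually.of_forall fun x => ?_)
      simp only
      rw [ENNReal.toReal_ofReal', Complex.real_smul]
    rw [i1, i2, ← sub_eq_zero, ← integral_sub]
    · rw [← h s t]
      refine integral_congr_ae (Eventually.of_forall fun x => ?_)
      simp only
      rw [← sub_mul, ← Complex.ofReal_sub]
      congr 2
      rcases le_total 0 (φ x) with h | h
      · rw [max_eq_left h, max_eq_right (by linarith), sub_zero]
      · rw [max_eq_right h, max_eq_left (by linarith), zero_sub, neg_neg]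
    · exact (hpos.ofReal (𝕜 := ℂ)).mul_bdd (c := 1) hm.aestronglyMeasurable
        (Eventually.of_forall hb)
    · exact (hneg.ofReal (𝕜 := ℂ)).mul_bdd (c := 1) hm.aestronglyMeasurable
        (Eventually.of_forall hb)
  have hmeas : Measurable fun x i => K i x := measurable_pi_iff.2 hK
  have hDm : MeasurableSet D := by
    refine (iSup_le fun i => ?_ :
      (⨆ i, MeasurableSpace.comap (K i) (borel ℝ)) ≤ mΩ) D hD
    rw [← BorelSpace.measurable_eq (α := ℝ)]
    exact (hK i).comap_le
  have hD' := hD
  have e : (⨆ i, MeasurableSpace.comap (K i) (borel ℝ)) =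
      MeasurableSpace.comap (fun x i => K i x) MeasurableSpace.pi := by
    unfold MeasurableSpace.pi
    rw [MeasurableSpace.comap_iSup]
    refine iSup_congr fun v => ?_
    rw [MeasurableSpace.comap_comp]
    rw [← BorelSpace.measurable_eq (α := ℝ)]
    rfl
  rw [e] at hD'
  obtain ⟨E, hE, hED⟩ := hD'
  have h1 : P₁ D = P₂ D := by
    rw [← hED, ← Measure.map_apply hmeas hE, hlaw, Measure.map_apply hmeas hE]
  rw [hP₁, hP₂, withDensity_apply _ hDm, withDensity_apply _ hDm] at h1
  rw [integral_eq_lintegral_pos_part_sub_lintegral_neg_part hφ.integrableOn, h1, sub_self]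

end Pool.Agent.Lib.Pf720po
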