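import Pool.Agent.Lib.Pf720po.Char
import Pool.Agent.Lib.Pf720po.Orth0

/-!
# The exponentials of small amplitude are total
-/

set_option autoImplicit false
set_option linter.unusedSectionVars false

open MeasureTheory Filter Topology ProbabilityTheory
open scoped ENNReal NNReal

namespace Pool.Agent.Lib.Pf720po

open Pool.Agent.Lib.Pf720ae Pool.Agent.Lib.Pf720gs

theorem coeff_zero {ψ : ℕ → ℂ} (hψ : Summable fun k => ‖ψ k‖) {ε : ℝ} (hε : 0 < ε)
    (hε1 : ε ≤ 1 / 2) (h : ∀ z : ℝ, 1 - ε ≤ z → z < 1 → ∑' k, ψ k * (z : ℂ) ^ k = 0) (k : ℕ) :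
    ψ k = 0 := by
  have hr : (((1 : ℝ≥0) : ℝ≥0∞)) ≤ (FormalMultilinearSeries.ofScalars ℂ ψ).radius := by
    refine FormalMultilinearSeries.le_radius_of_summable_norm _ ?_
    simpa [FormalMultilinearSeries.ofScalars_norm] using hψ
  have hr' : (1 : ℝ≥0∞) ≤ (FormalMultilinearSeries.ofScalars ℂ ψ).radius := by simpa using hr
  have h0 : 0 < (FormalMultilinearSeries.ofScalars ℂ ψ).radius := lt_of_lt_of_le (by simp) hr'
  have hf := (FormalMultilinearSeries.ofScalars ℂ ψ).hasFPowerSeriesOnBall h0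
  have hf1 := hf.mono (r' := 1) (by simp) hr'
  have hAn := hf1.analyticOnNhd
  have hsum : ∀ z : ℂ, (FormalMultilinearSeries.ofScalars ℂ ψ).sum z = ∑' k, ψ k * z ^ k := by
    intro z
    have := FormalMultilinearSeries.ofScalars_sum_eq (E := ℂ) ψ z
    unfold FormalMultilinearSeries.ofScalarsSum at this
    rw [this]
    simp
  have hball : Metric.eball (0 : ℂ) 1 = Metric.ball (0 : ℂ) 1 := by
    rw [← ENNReal.ofReal_one, Metric.eball_ofReal]
  have hpre : IsPreconnected (Metric.eball (0 : ℂ) 1) := by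
    rw [hball]
    exact (convex_ball (0 : ℂ) 1).isPreconnected
  have hz0 : (((1 - ε / 2 : ℝ)) : ℂ) ∈ Metric.eball (0 : ℂ) 1 := by
    rw [hball, Metric.mem_ball, dist_zero_right, Complex.norm_real, Real.norm_eq_abs, abs_lt]
    constructor <;> linarith
  have hfreq : ∃ᶠ z in 𝓝[≠] (((1 - ε / 2 : ℝ)) : ℂ),
      (FormalMultilinearSeries.ofScalars ℂ ψ).sum z = 0 := by
    have ht : Tendsto (fun t : ℝ => (t : ℂ)) (𝓝[≠] (1 - ε / 2)) (𝓝[≠] (((1 - ε / 2 : ℝ)) : ℂ)) := by
      refine tendsto_nhdsWithin_of_tendsto_nhds_of_eventually_within _ ?_ ?_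
      · exact (Complex.continuous_ofReal.tendsto _).mono_left nhdsWithin_le_nhds
      · filter_upwards [self_mem_nhdsWithin] with t ht
        intro h
        exact ht (Complex.ofReal_injective h)
    refine ht.frequently (Eventually.frequently ?_)
    have : Set.Ioo (1 - ε) 1 ∈ 𝓝 (1 - ε / 2) := Ioo_mem_nhds (by linarith) (by linarith)
    filter_upwards [mem_nhdsWithin_of_mem_nhds this] with t ht
    rw [hsum]
    exact h t ht.1.le ht.2
  have hE := hAn.eqOn_zero_of_preconnected_of_frequently_eq_zero hpre hz0 hfreq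
  have hat : HasFPowerSeriesAt (0 : ℂ → ℂ) (FormalMultilinearSeries.ofScalars ℂ ψ) 0 := by
    refine hf.hasFPowerSeriesAt.congr ?_
    filter_upwards [Metric.eball_mem_nhds (0 : ℂ) (by simp : (0 : ℝ≥0∞) < 1)] with z hz
    exact hE hz
  have hz := hat.eq_zero
  rw [FormalMultilinearSeries.ofScalars_series_eq_zero] at hz
  exact congrFun hz k

namespace DensAux

section var

variable {X : Type} {mX : MeasurableSpace X} {μ : Measure X}

lemma hasSum_split {G : X → ℂ} (hG : Integrable G μ) {K : X → ℕ} (hK : Measurable K) {w : ℂ}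
    (hw : ‖w‖ ≤ 1) :
    ∫ x, G x * w ^ (K x) ∂μ = ∑' k, (∫ x in K ⁻¹' {k}, G x ∂μ) * w ^ k := by
  have hm : Measurable fun x => w ^ (K x) :=
    (measurable_from_top (f := fun k : ℕ => w ^ k)).comp hK
  have hint : Integrable (fun x => G x * w ^ (K x)) μ :=
    hG.mul_bdd (c := 1) hm.aestronglyMeasurable (Eventually.of_forall fun x => by
      rw [norm_pow]; exact pow_le_one₀ (norm_nonneg _) hw)
  have hU : (⋃ k : ℕ, K ⁻¹' {k}) = Set.univ := by
    ext x; simp
  have h1 := integral_iUnion (μ := μ) (s := fun k : ℕ => K ⁻¹' {k}) (f := fun x => G x * w ^ (K x))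
    (fun k => hK (measurableSet_singleton k))
    (fun i j hij => Disjoint.preimage _ (by simpa using hij)) (by rw [hU]; exact hint.integrableOn)
  rw [hU, setIntegral_univ] at h1
  rw [h1]
  refine tsum_congr fun k => ?_
  rw [← integral_mul_const]
  refine setIntegral_congr_fun (hK (measurableSet_singleton k)) fun x hx => ?_
  have : K x = k := hx
  simp only [this]

lemma summable_split {G : X → ℂ} (hG : Integrable G μ) {K : X → ℕ} (hK : Measurable K) :
    Summable fun k : ℕ => ‖∫ x in K ⁻¹' {k}, G x ∂μ‖ := by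
  have hU : (⋃ k : ℕ, K ⁻¹' {k}) = Set.univ := by
    ext x; simp
  have h1 := hasSum_integral_iUnion (μ := μ) (s := fun k : ℕ => K ⁻¹' {k}) (f := fun x => ‖G x‖)
    (fun k => hK (measurableSet_singleton k))
    (fun i j hij => Disjoint.preimage _ (by simpa using hij))
    (by rw [hU]; exact hG.norm.integrableOn)
  refine Summable.of_nonneg_of_le (fun k => norm_nonneg _) (fun k => ?_) h1.summable
  exact norm_integral_le_integral_norm _

lemma one_var {G : X → ℂ} (hG : Integrable G μ) {K : X → ℕ} (hK : Measurable K) {ε : ℝ}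
    (hε : 0 < ε) (hε1 : ε ≤ 1 / 2)
    (h : ∀ z : ℝ, 1 - ε ≤ z → z ≤ 1 → ∫ x, G x * (z : ℂ) ^ (K x) ∂μ = 0) {w : ℂ}
    (hw : ‖w‖ ≤ 1) : ∫ x, G x * w ^ (K x) ∂μ = 0 := by
  rw [hasSum_split hG hK hw]
  have h0 : ∀ k : ℕ, ∫ x in K ⁻¹' {k}, G x ∂μ = 0 := by
    refine coeff_zero (summable_split hG hK) hε hε1 fun z hz hz1 => ?_
    rw [← hasSum_split hG hK (by
      rw [Complex.norm_real, Real.norm_eq_abs, abs_le]; constructor <;> linarith)]
    exact h z hz hz1.le
  simp [h0]

lemma measurable_pow_nat {K : X → ℕ} (hK : Measurable K) (w : ℂ) :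
    Measurable fun x => w ^ (K x) :=
  (measurable_from_top (f := fun k : ℕ => w ^ k)).comp hK

lemma multi {ι : Type} [DecidableEq ι] {K : ι → X → ℕ} (hK : ∀ i, Measurable (K i)) {ε : ℝ}
    (hε : 0 < ε) (hε1 : ε ≤ 1 / 2) (F : Finset ι) : ∀ {G : X → ℂ}, Integrable G μ →
    (∀ z : ι → ℝ, (∀ i, 1 - ε ≤ z i) → (∀ i, z i ≤ 1) →
      ∫ x, G x * ∏ i ∈ F, (z i : ℂ) ^ (K i x) ∂μ = 0) →
    ∀ {w : ι → ℂ}, (∀ i, ‖w i‖ ≤ 1) → ∫ x, G x * ∏ i ∈ F, w i ^ (K i x) ∂μ = 0 := by
  induction F using Finset.induction_on with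
  | empty =>
    intro G hG h w hw
    simpa using h (fun _ => 1) (fun _ => by linarith) (fun _ => le_rfl)
  | insert a F ha ih =>
    intro G hG h w hw
    have hbd : ∀ v : ι → ℂ, (∀ i, ‖v i‖ ≤ 1) → ∀ x, ‖∏ i ∈ F, v i ^ (K i x)‖ ≤ 1 := by
      intro v hv x
      rw [norm_prod]
      refine Finset.prod_le_one (fun i _ => norm_nonneg _) fun i _ => ?_
      rw [norm_pow]
      exact pow_le_one₀ (norm_nonneg _) (hv i)
    have hG' : Integrable (fun x => G x * w a ^ (K a x)) μ :=
      hG.mul_bdd (c := 1) (measurable_pow_nat (hK a) _).aestronglyMeasurable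
        (Eventually.of_forall fun x => by
          rw [norm_pow]; exact pow_le_one₀ (norm_nonneg _) (hw a))
    have key : ∀ z : ι → ℝ, (∀ i, 1 - ε ≤ z i) → (∀ i, z i ≤ 1) →
        ∫ x, (G x * w a ^ (K a x)) * ∏ i ∈ F, (z i : ℂ) ^ (K i x) ∂μ = 0 := by
      intro z hz hz1
      have hzn : ∀ i, ‖(z i : ℂ)‖ ≤ 1 := by
        intro i
        have := hz i
        have := hz1 i
        rw [Complex.norm_real, Real.norm_eq_abs, abs_le]
        constructor <;> linarith
      have hm : Measurable fun x => ∏ i ∈ F, (z i : ℂ) ^ (K i x) :=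
        Finset.measurable_fun_prod _ fun i _ => measurable_pow_nat (hK i) _
      have hG2 : Integrable (fun x => G x * ∏ i ∈ F, (z i : ℂ) ^ (K i x)) μ :=
        hG.mul_bdd (c := 1) hm.aestronglyMeasurable
          (Eventually.of_forall fun x => hbd (fun i => (z i : ℂ)) hzn x)
      have := one_var hG2 (hK a) hε hε1 (fun y hy hy1 => ?_) (hw a)
      · rw [← this]
        refine integral_congr_ae (Eventually.of_forall fun x => ?_)
        simp only
        ring
      · have h2 := h (Function.update z a y) (fun i => ?_) (fun i => ?_)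
        · rw [← h2]
          refine integral_congr_ae (Eventually.of_forall fun x => ?_)
          simp only
          rw [Finset.prod_insert ha, Function.update_self]
          have : ∏ i ∈ F, ((Function.update z a y i : ℝ) : ℂ) ^ (K i x) =
              ∏ i ∈ F, (z i : ℂ) ^ (K i x) := by
            refine Finset.prod_congr rfl fun i hi => ?_
            rw [Function.update_of_ne (ne_of_mem_of_not_mem hi ha)]
          rw [this]
          ring
        · by_cases hi : i = a
          · subst hi; rwa [Function.update_self]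
          · rw [Function.update_of_ne hi]; exact hz i
        · by_cases hi : i = a
          · subst hi; rwa [Function.update_self]
          · rw [Function.update_of_ne hi]; exact hz1 i
    have := ih hG' key hw
    rw [← this]
    refine integral_congr_ae (Eventually.of_forall fun x => ?_)
    simp only
    rw [Finset.prod_insert ha]
    ring

end var

section app

variable {X Y : Type} {mX : MeasurableSpace X} {mY : MeasurableSpace Y}

lemma integral_comp_fin {m : Measure Y} {h : Y → ℝ} (hh : Measurable h) {F : Finset ℝ}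
    (hF : ∀ y, h y = 0 ∨ h y ∈ F) (hm : ∀ c ∈ F, m (h ⁻¹' {c}) < ⊤) {f : ℝ → ℝ}
    (f0 : 0 ∉ F) (f1 : f 0 = 0) : ∫ y, f (h y) ∂m = ∑ c ∈ F, f c * m.real (h ⁻¹' {c}) := by
  have h1 : ∀ y, f (h y) = ∑ c ∈ F, (h ⁻¹' {c}).indicator (fun _ => f c) y := by
    intro y
    rcases hF y with h0 | h0
    · rw [h0, f1]
      symm
      refine Finset.sum_eq_zero fun c hc => ?_
      rw [Set.indicator_of_notMem]
      intro hy
      have hy' : h y = c := hy
      rw [h0] at hy'
      exact f0 (hy' ▸ hc)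
    · rw [Finset.sum_eq_single_of_mem (h y) h0]
      · rw [Set.indicator_of_mem]
        exact rfl
      · intro c _ hc
        rw [Set.indicator_of_notMem]
        intro hy
        exact hc (show c = h y from (show h y = c from hy).symm)
  simp only [h1]
  rw [integral_finsetSum]
  · refine Finset.sum_congr rfl fun c hc => ?_
    rw [integral_indicator_const _ (hh (measurableSet_singleton c)), smul_eq_mul, mul_comm]
  · intro c hc
    exact (integrable_indicator_iff (hh (measurableSet_singleton c))).2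
      (integrableOn_const (hm c hc).ne)

variable {μ : Measure X} [IsProbabilityMeasure μ] {ν : Measure Y} {N : X → Measure Y}

lemma char_zero (hN : IsPoisson μ ν N) {B : Set Y} (hνB : ν B < ⊤) {ε : ℝ} (hε : 0 < ε)
    (hε1 : ε ≤ 1 / 2) {G : X → ℂ} (hG : Integrable G μ)
    (hz : ∀ u : Y → ℝ, Amp ε B u → ∫ x, G x * ((mf N u x : ℝ) : ℂ) ∂μ = 0) {h : Y → ℝ}
    (hh : Measurable h) (hf : (Set.range h).Finite) (hs : Function.support h ⊆ B) :
    ∫ x, G x * Complex.exp (((∫ y, h y ∂(N x) : ℝ) : ℂ) * Complex.I) ∂μ = 0 := by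
  classical
  obtain ⟨F, hFdef⟩ : ∃ F : Finset ℝ, F = hf.toFinset.erase 0 := ⟨_, rfl⟩
  have hF : ∀ y, h y = 0 ∨ h y ∈ F := by
    intro y
    by_cases h0 : h y = 0
    · exact Or.inl h0
    · right
      rw [hFdef, Finset.mem_erase]
      exact ⟨h0, hf.mem_toFinset.2 ⟨y, rfl⟩⟩
  have hF0 : (0 : ℝ) ∉ F := by
    rw [hFdef]; exact Finset.notMem_erase _ _
  obtain ⟨K, hKdef⟩ : ∃ K : ℝ → X → ℕ, K = fun c x => ⌊(N x (h ⁻¹' {c})).toReal⌋₊ := ⟨_, rfl⟩
  have hK : ∀ c, Measurable (K c) := by
    intro c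
    rw [hKdef]
    exact Nat.measurable_floor.comp
      (((Measure.measurable_coe (hh (measurableSet_singleton c))).comp hN.1).ennreal_toReal)
  have hae : ∀ᵐ x ∂μ, ∀ c ∈ F, N x (h ⁻¹' {c}) = K c x := by
    refine (ae_ball_iff F.countable_toSet).2 fun c hc => ?_
    have hνA : ν (h ⁻¹' {c}) < ⊤ := by
      refine (measure_mono ?_).trans_lt hνB
      intro y hy
      refine hs ?_
      rw [Function.mem_support]
      have hy' : h y = c := hy
      rw [hy']
      exact ne_of_mem_of_not_mem hc hF0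
    filter_upwards [hN.exists_nat (hh (measurableSet_singleton c)) hνA] with x hx
    obtain ⟨k, hk⟩ := hx
    rw [hKdef]
    simp only
    rw [hk]
    simp
  have hreal : ∀ x, (∀ c ∈ F, N x (h ⁻¹' {c}) = K c x) → ∀ f : ℝ → ℝ, f 0 = 0 →
      ∫ y, f (h y) ∂(N x) = ∑ c ∈ F, f c * K c x := by
    intro x hx f f0
    rw [integral_comp_fin hh hF (fun c hc => by rw [hx c hc]; exact ENNReal.natCast_lt_top _)
      hF0 f0]
    refine Finset.sum_congr rfl fun c hc => ?_
    rw [measureReal_def, hx c hc, ENNReal.toReal_natCast]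
  have key := multi (μ := μ) hK hε hε1 F hG (fun z hz0 hz1 => ?_)
    (w := fun c => Complex.exp ((c : ℂ) * Complex.I))
    (fun c => by rw [Complex.norm_exp_ofReal_mul_I])
  · rw [← key]
    refine integral_congr_ae ?_
    filter_upwards [hae] with x hx
    have h1 := hreal x hx (fun c => c) rfl
    rw [h1]
    congr 1
    rw [Complex.ofReal_sum, Finset.sum_mul, Complex.exp_sum]
    refine Finset.prod_congr rfl fun c hc => ?_
    rw [← Complex.exp_nat_mul]
    congr 1
    push_cast
    ring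
  · obtain ⟨f, hfdef⟩ : ∃ f : ℝ → ℝ, f = fun c => if c ∈ F then z c else 1 := ⟨_, rfl⟩
    have hfm : Measurable f := by
      refine (measurable_const (a := (1 : ℝ))).measurable_of_countable_ne ?_
      refine F.countable_toSet.mono fun c hc => ?_
      by_contra hcF
      refine hc ?_
      rw [hfdef]
      simp only
      rw [if_neg (by simpa using hcF)]
    have hfl : ∀ c, 1 - ε ≤ f c := by
      intro c
      rw [hfdef]
      simp only
      split_ifs
      · exact hz0 c
      · linarith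
    have hfu : ∀ c, f c ≤ 1 := by
      intro c
      rw [hfdef]
      simp only
      split_ifs
      · exact hz1 c
      · exact le_rfl
    have hf00 : f 0 = 1 := by
      rw [hfdef]
      simp only
      rw [if_neg hF0]
    have hamp : Amp ε B (fun y => f (h y)) := by
      refine ⟨hfm.comp hh, (hf.image f).subset ?_, fun y => hfl _, fun y => hfu _, fun y hy => ?_⟩
      · rintro _ ⟨y, rfl⟩
        exact ⟨h y, ⟨y, rfl⟩, rfl⟩
      · have : h y = 0 := by
          by_contra h0
          exact hy (hs h0)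
        rw [this, hf00]
    have h1 := hz _ hamp
    rw [← h1]
    refine integral_congr_ae ?_
    filter_upwards [hae] with x hx
    congr 1
    have h2 := hreal x hx (fun c => Real.log (f c)) (by rw [hf00, Real.log_one])
    unfold mf
    rw [h2, Real.exp_sum, Complex.ofReal_prod]
    refine Finset.prod_congr rfl fun c hc => ?_
    have hfc : f c = z c := by
      rw [hfdef]
      simp only
      rw [if_pos hc]
    have hpos : 0 < z c := by
      have := hz0 c
      linarith
    rw [hfc, mul_comm, Real.exp_nat_mul, Real.exp_log hpos, Complex.ofReal_pow]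

/-- the class of test functions -/
def Tst {Z : Type} [MeasurableSpace Z] (B : ℕ → Set Z) (h : Z → ℝ) : Prop :=
  Measurable h ∧ (Set.range h).Finite ∧ ∃ r, Function.support h ⊆ B r

lemma Tst.zero {B : ℕ → Set Y} : Tst B (fun _ => (0 : ℝ)) := by
  refine ⟨measurable_const, (Set.finite_singleton (0 : ℝ)).subset ?_, 0, ?_⟩
  · rintro _ ⟨y, rfl⟩; rfl
  · intro y hy
    exact absurd rfl hy

lemma Tst.add {B : ℕ → Set Y} (hB : Monotone B) {h k : Y → ℝ} (hh : Tst B h) (hk : Tst B k) :
    Tst B (fun y => h y + k y) := by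
  obtain ⟨h1, h2, r, h3⟩ := hh
  obtain ⟨k1, k2, s, k3⟩ := hk
  refine ⟨h1.add k1, (h2.image2 (fun a b => a + b) k2).subset ?_, max r s, ?_⟩
  · rintro _ ⟨y, rfl⟩
    exact ⟨h y, ⟨y, rfl⟩, k y, ⟨y, rfl⟩, rfl⟩
  · intro y hy
    by_cases h0 : h y = 0
    · have : k y ≠ 0 := by
        intro k0
        refine hy ?_
        simp only
        rw [h0, k0, add_zero]
      exact hB (le_max_right r s) (k3 this)
    · exact hB (le_max_left r s) (h3 h0)

lemma Tst.smul {B : ℕ → Set Y} (c : ℝ) {h : Y → ℝ} (hh : Tst B h) :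
    Tst B (fun y => c * h y) := by
  obtain ⟨h1, h2, r, h3⟩ := hh
  refine ⟨h1.const_mul c, (h2.image (fun a => c * a)).subset ?_, r, ?_⟩
  · rintro _ ⟨y, rfl⟩
    exact ⟨h y, ⟨y, rfl⟩, rfl⟩
  · intro y hy
    refine h3 fun h0 => hy ?_
    simp only
    rw [h0, mul_zero]

lemma Tst.sum {B : ℕ → Set Y} (hB : Monotone B) {ι : Type} (s : Finset ι) {h : ι → Y → ℝ}
    (hh : ∀ i, Tst B (h i)) (t : ι → ℝ) : Tst B (fun y => ∑ i ∈ s, t i * h i y) := by
  classical
  induction s using Finset.induction_on with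
  | empty => simpa using Tst.zero (B := B)
  | insert a s ha ih =>
    simp only [Finset.sum_insert ha]
    exact ((hh a).smul (t a)).add hB ih

lemma Tst.integrable {B : ℕ → Set Y} {h : Y → ℝ} (hh : Tst B h) {m : Measure Y}
    (hm : ∀ r, m (B r) < ⊤) : Integrable h m := by
  obtain ⟨h1, h2, r, h3⟩ := hh
  rw [← integrableOn_iff_integrable_of_support_subset h3]
  obtain ⟨C, hC⟩ := (h2.image (fun a : ℝ => ‖a‖)).bddAbove
  refine Measure.integrableOn_of_bounded (M := C) (hm r).ne h1.aestronglyMeasurable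
    (Eventually.of_forall fun y => hC ⟨h y, ⟨y, rfl⟩, rfl⟩)

end app

end DensAux

variable {V X Y : Type} [AddCommGroup V] [Module ℝ V] {mX : MeasurableSpace X}
  {mY : MeasurableSpace Y} {μ : Measure X} [IsProbabilityMeasure μ]

/-- the Gaussian variables and the integrals of simple functions supported in some `B r` -/
noncomputable def KP (g : GF V X μ) (N : X → Measure Y) (B : ℕ → Set Y) (ν : Measure Y) :
    V ⊕ {h : Y → ℝ // Simp ν h ∧ ∃ r, Function.support h ⊆ B r} → X → ℝ :=
  Sum.elim g.G (fun h x => ∫ y, h.1 y ∂(N x))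

theorem ae_zero_of_orth (g : GF V X μ) {ν : Measure Y} {N : X → Measure Y}
    (hN : IsPoisson μ ν N) {B : ℕ → Set Y} (hBmono : Monotone B)
    (hB : ∀ r, MeasurableSet (B r)) (hνB : ∀ r, ν (B r) < ⊤)
    (hgen : ∀ D : Set X, MeasurableSet D →
      ∃ D', MeasurableSet[⨆ i, MeasurableSpace.comap (KP g N B ν i) (borel ℝ)] D' ∧ D =ᵐ[μ] D')
    {ε : ℝ} (hε : 0 < ε) (hε1 : ε ≤ 1 / 2) {φ : X → ℝ} (hφ : Integrable φ μ)
    (hc : ∀ (v : V) (r : ℕ) (u : Y → ℝ), Amp ε (B r) u →
      ∫ x, φ x * (Real.cos (g.G v x) * mf N u x) ∂μ = 0)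
    (hs : ∀ (v : V) (r : ℕ) (u : Y → ℝ), Amp ε (B r) u →
      ∫ x, φ x * (Real.sin (g.G v x) * mf N u x) ∂μ = 0) :
    φ =ᵐ[μ] 0 := by
  classical
  -- complex form
  have hint : ∀ v, Integrable (fun x => (φ x : ℂ) * Complex.exp ((g.G v x : ℂ) * Complex.I)) μ := by
    intro v
    have hm : Measurable fun x => Complex.exp ((g.G v x : ℂ) * Complex.I) := by
      have := g.meas v
      fun_prop
    refine (hφ.ofReal (𝕜 := ℂ)).mul_bdd (c := 1) hm.aestronglyMeasurable ?_
    exact Eventually.of_forall fun x => by rw [Complex.norm_exp_ofReal_mul_I]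
  have hcx : ∀ (v : V) (r : ℕ) (u : Y → ℝ), Amp ε (B r) u →
      ∫ x, ((φ x : ℂ) * Complex.exp ((g.G v x : ℂ) * Complex.I)) * ((mf N u x : ℝ) : ℂ) ∂μ = 0 := by
    intro v r u hu
    have hmm : Measurable fun x => mf N u x := by
      unfold mf
      refine Real.measurable_exp.comp (measurable_integral_fin_real hN.1
        (Real.measurable_log.comp hu.meas) ((hu.fin.image Real.log).subset ?_))
      rintro _ ⟨y, rfl⟩
      exact ⟨u y, ⟨y, rfl⟩, rfl⟩
    have hu0 : ∀ y, 0 ≤ u y := fun y => by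
      have := hu.lb y
      linarith
    have hint2 : Integrable (fun x => ((φ x : ℂ) * Complex.exp ((g.G v x : ℂ) * Complex.I)) *
        ((mf N u x : ℝ) : ℂ)) μ := by
      refine (hint v).mul_bdd (c := 1) (Complex.measurable_ofReal.comp hmm).aestronglyMeasurable ?_
      refine Eventually.of_forall fun x => ?_
      rw [Complex.norm_real, Real.norm_eq_abs, abs_of_pos (mf_pos N u x)]
      exact mf_le_one N hu0 hu.ub x
    have e : ∀ x, ((φ x : ℂ) * Complex.exp ((g.G v x : ℂ) * Complex.I)) * ((mf N u x : ℝ) : ℂ) =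
        ((φ x * mf N u x : ℝ) : ℂ) * Complex.exp ((g.G v x : ℂ) * Complex.I) := by
      intro x
      push_cast
      ring
    apply Complex.ext
    · rw [← Complex.reCLM_apply, ← ContinuousLinearMap.integral_comp_comm _ hint2]
      simp only [Complex.reCLM_apply, e, Complex.re_ofReal_mul, Complex.exp_ofReal_mul_I_re,
        Complex.zero_re]
      rw [← hc v r u hu]
      refine integral_congr_ae (Eventually.of_forall fun x => ?_)
      simp only
      ring
    · rw [← Complex.imCLM_apply, ← ContinuousLinearMap.integral_comp_comm _ hint2]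
      simp only [Complex.imCLM_apply, e, Complex.im_ofReal_mul, Complex.exp_ofReal_mul_I_im,
        Complex.zero_im]
      rw [← hs v r u hu]
      refine integral_congr_ae (Eventually.of_forall fun x => ?_)
      simp only
      ring
  -- all the test functions
  have hchar : ∀ (v : V) (h : Y → ℝ), DensAux.Tst B h →
      ∫ x, (φ x : ℂ) * Complex.exp ((((g.G v x + ∫ y, h y ∂(N x) : ℝ)) : ℂ) * Complex.I) ∂μ = 0 := by
    rintro v h ⟨h1, h2, r, h3⟩
    rw [← DensAux.char_zero hN (hνB r) hε hε1 (hint v) (hcx v r) h1 h2 h3]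
    refine integral_congr_ae (Eventually.of_forall fun x => ?_)
    simp only
    rw [Complex.ofReal_add, add_mul, Complex.exp_add, mul_assoc]
  -- measurability of the process
  have hK : ∀ i, Measurable (KP g N B ν i) := by
    rintro (v | h)
    · exact g.meas v
    · exact measurable_integral_fin_real hN.1 h.2.1.meas h.2.1.fin
  have hfin : ∀ᵐ x ∂μ, ∀ r, N x (B r) < ⊤ :=
    ae_all_iff.2 fun r => hN.ae_lt_top (hB r) (hνB r)
  have hset : ∀ D' : Set X,
      MeasurableSet[⨆ i, MeasurableSpace.comap (KP g N B ν i) (borel ℝ)] D' →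
      ∫ x in D', φ x ∂μ = 0 := by
    intro D' hD'
    refine setIntegral_eq_zero_of_char hK hφ (fun s t => ?_) hD'
    obtain ⟨vp, hvp⟩ : ∃ vp : V ⊕ {h : Y → ℝ // Simp ν h ∧ ∃ r, Function.support h ⊆ B r} → V,
      vp = Sum.elim (fun v => v) (fun _ => 0) := ⟨_, rfl⟩
    obtain ⟨hp, hhp⟩ : ∃ hp : V ⊕ {h : Y → ℝ // Simp ν h ∧ ∃ r, Function.support h ⊆ B r} →
      Y → ℝ, hp = Sum.elim (fun _ _ => 0) (fun h => h.1) := ⟨_, rfl⟩
    have hT : ∀ i, DensAux.Tst B (hp i) := by
      rintro (v | h)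
      · rw [hhp]; exact DensAux.Tst.zero
      · rw [hhp]; exact ⟨h.2.1.meas, h.2.1.fin, h.2.2⟩
    have hKP : ∀ i x, KP g N B ν i x = g.G (vp i) x + ∫ y, hp i y ∂(N x) := by
      rintro (v | h) x
      · rw [hvp, hhp]
        simp [KP]
      · rw [hvp, hhp]
        simp [KP, g.zero]
    rw [← hchar (∑ i ∈ s, t i • vp i) (fun y => ∑ i ∈ s, t i * hp i y) (DensAux.Tst.sum hBmono s hT t)]
    refine integral_congr_ae ?_
    filter_upwards [hfin] with x hx
    congr 4
    rw [g.sum, integral_finsetSum _ (fun i _ => ((hT i).integrable hx).const_mul _),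
      ← Finset.sum_add_distrib]
    refine Finset.sum_congr rfl fun i _ => ?_
    rw [hKP, g.smul, integral_const_mul, mul_add]
  refine Integrable.ae_eq_zero_of_forall_setIntegral_eq_zero hφ fun D hD _ => ?_
  obtain ⟨D', hD', hDD'⟩ := hgen D hD
  rw [setIntegral_congr_set hDD']
  exact hset D' hD'

end Pool.Agent.Lib.Pf720po
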