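import Pool.Agent.Lib.Pf720po.Core
import Pool.Agent.Lib.Pf720po.Coll

/-!
# Averages of products of exponentials of a Gaussian and a Poisson process

MODULE Expo (uses `core` of Core.lean, `coll_zero` of Coll.lean, `IsPoisson.ae_lt_top` of Char.lean and Base.lean;
the imports are black boxes).

Proof. Let `r j j'` be the equivalence relation `∀ l i, (q j l i - q j' l i).natDegree = 0` on `J`, `A` the
quotient (Fintype and DecidableEq by `classical`), `π : J → A`, `rep a = a.out`, and
`c j = ev (fun l => q j l - q (rep (π j)) l) 0`; since all these polynomials are constant,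
`ev (q j) m = c j + ev (q (rep (π j))) m` for all `m`. Put `B' = ⋃ j, (R.S (c j))⁻¹' B` (measurable, finite
measure) and `U a y = ∏_{j, π j = a} u j (R.S (c j) y)`, a product of at most `n = card J` functions with values
in `[1 - ε, 1]`, `ε = 1/(2(n+1)^2)`, equal to `1` off `B'`: `U a ∈ Amp (n ε) B' ⊆ Amp (1/(2(card A + 1))) B'`
(`card A ≤ n`; `∏ (1 - ε) ≥ 1 - n ε`, e.g. `one_add_mul_le_pow` / induction).
`core` with `q' a = q (rep a)` and `U`: for a.e. `x`,
`CSw (fun m => mf N (mix U (fun a => R.S (ev (q (rep a)) m))) x) (fun m => ∑ j, g.G (h j) (act.S (ev (q j) m) x))`.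
By `coll_zero` (for the finitely many pairs `j, j'` with `¬ r j j'`) for a.e. `x`
`avg M (fun m => ∑_{¬ r j j'} 1[N x ((R.S (ev (q j) m))⁻¹' B ∩ (R.S (ev (q j') m))⁻¹' B) ≠ 0]) → 0`.
By `ae_lt_top`, for a.e. `x` all the sets `(R.S (ev (q j) m))⁻¹' B` (`j`, `m` countable) have finite `N x`
measure. Fix such an `x` and `m` without collision (all those indicators `0`). Then
`∏ j, mf N (u j) (act.S (ev (q j) m) x) = ∏ j, mf N (u j ∘ R.S (ev (q j) m)) x` (`mf_map`)
`= exp (∫ ∑ j, log (u j (R.S (ev (q j) m) y)) dN x)` (`Real.exp_sum`, `integral_finset_sum`; the functions are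
bounded, measurable and vanish off sets of finite measure), and for `N x`-a.e. `y` (off the collision sets)
`∑ j, log (u j (R.S (ev (q j) m) y)) = log (mix U (fun a => R.S (ev (q (rep a)) m)) y)`: all `j` with
`R.S (ev (q j) m) y ∈ B` lie in one class `a₀`, so `U a (R.S (ev (q (rep a)) m) y) = 1` for `a ≠ a₀` and
`= ∏ j, u j (R.S (ev (q j) m) y)` for `a = a₀` (`U a (R.S (ev (q (rep a)) m) y) = ∏_{π j = a} u j (R.S (ev (q j) m) y)`).
So the two weights (both in `[0, 1]`) coincide off the collision times, and the difference of the weighted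
averages is at most `avg M (sum of the indicators) → 0`; this transfers the convergence.
-/

set_option autoImplicit false
set_option linter.unusedSectionVars false

open MeasureTheory Filter Topology ProbabilityTheory
open scoped ENNReal

namespace Pool.Agent.Lib.Pf720po

open Pool.Agent.Lib.Pf720ae Pool.Agent.Lib.Pf720gs
open Pool.Agent.Lib.Pf720pp (PV ev)

namespace ExpoAux

/-- algebra -/
lemma mix_prod {J A : Type} [Fintype J] [DecidableEq J] [Fintype A] [DecidableEq A] (π : J → A)
    (v : J → ℝ) (h : ∀ j j', π j ≠ π j' → v j = 1 ∨ v j' = 1) :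
    1 + ∑ a, ((∏ j ∈ Finset.univ.filter (fun j => π j = a), v j) - 1) = ∏ j, v j := by
  by_cases h1 : ∀ j, v j = 1
  · have h2 : ∀ a, (∏ j ∈ Finset.univ.filter (fun j => π j = a), v j) - 1 = 0 := fun a => by
      rw [Finset.prod_eq_one fun j _ => h1 j, sub_self]
    rw [Finset.sum_congr rfl fun a _ => h2 a, Finset.sum_const_zero, add_zero,
      Finset.prod_eq_one fun j _ => h1 j]
  · push Not at h1
    obtain ⟨j₀, hj₀⟩ := h1
    have h2 : ∀ j, π j ≠ π j₀ → v j = 1 := fun j hj => (h j j₀ hj).resolve_right hj₀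
    rw [Finset.sum_eq_single (π j₀)]
    · have h3 : ∏ j ∈ Finset.univ.filter (fun j => π j = π j₀), v j = ∏ j, v j := by
        refine Finset.prod_subset (Finset.filter_subset _ _) fun j _ hj => ?_
        refine h2 j fun hj' => hj ?_
        rw [Finset.mem_filter]
        exact ⟨Finset.mem_univ _, hj'⟩
      rw [h3]; ring
    · intro a _ ha
      rw [Finset.prod_eq_one, sub_self]
      intro j hj
      rw [Finset.mem_filter] at hj
      exact h2 j (by rw [hj.2]; exact ha)
    · intro h; exact absurd (Finset.mem_univ _) h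

lemma prod_lb {J : Type} (s : Finset J) {v : J → ℝ} {ε : ℝ} (hε : 0 ≤ ε) (hε1 : ε ≤ 1)
    (h0 : ∀ j, 1 - ε ≤ v j) (h1 : ∀ j, v j ≤ 1) :
    1 - s.card * ε ≤ ∏ j ∈ s, v j := by
  classical
  induction s using Finset.induction_on with
  | empty => simp
  | insert a s ha ih =>
    rw [Finset.prod_insert ha, Finset.card_insert_of_notMem ha]
    push_cast
    have h2 : 0 ≤ ∏ j ∈ s, v j := Finset.prod_nonneg fun j _ => by have := h0 j; linarith
    have h3 : ∏ j ∈ s, v j ≤ 1 :=
      Finset.prod_le_one (fun j _ => by have := h0 j; linarith) fun j _ => h1 j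
    have h4 := mul_le_mul_of_nonneg_right (h0 a) h2
    have h5 := mul_le_mul_of_nonneg_left h3 hε
    linarith

lemma ev_const {κ : Type} [Fintype κ] {d : ℕ} {p p' : κ → PV d}
    (h : ∀ l i, (p l i - p' l i).natDegree = 0) (m : κ → ℕ) :
    ev p m = ev (fun l => p l - p' l) 0 + ev p' m := by
  funext i
  simp only [ev, Pi.add_apply, Pi.sub_apply, Pi.zero_apply]
  rw [← Finset.sum_add_distrib]
  refine Finset.sum_congr rfl fun l _ => ?_
  obtain ⟨c, hc⟩ := Polynomial.natDegree_eq_zero.1 (h l i)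
  have h1 : ∀ t : ℤ, (p l i - p' l i).eval t = c := fun t => by
    rw [← hc, Polynomial.eval_C]
  have h2 := h1 (m l : ℤ)
  rw [h1, ← h2, Polynomial.eval_sub]
  ring

lemma integrable_log {Y : Type} {mY : MeasurableSpace Y} {P : Measure Y} {σ : Y → Y}
    (hσ : Measurable σ) {B : Set Y} (hB : MeasurableSet B) {ε : ℝ} (hε : ε < 1) {u : Y → ℝ}
    (hu : Amp ε B u) (hfin : P (σ ⁻¹' B) < ⊤) : Integrable (fun y => Real.log (u (σ y))) P := by
  have hm : Measurable fun y => Real.log (u (σ y)) := Real.measurable_log.comp (hu.meas.comp hσ)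
  have hsub : Function.support (fun y => Real.log (u (σ y))) ⊆ σ ⁻¹' B := by
    intro y hy
    by_contra hyB
    exact hy (by simp only [hu.off _ hyB, Real.log_one])
  rw [← integrableOn_iff_integrable_of_support_subset hsub]
  haveI : IsFiniteMeasure (P.restrict (σ ⁻¹' B)) := ⟨by rw [Measure.restrict_apply_univ]; exact hfin⟩
  refine Integrable.of_bound hm.aestronglyMeasurable (-Real.log (1 - ε))
    (Eventually.of_forall fun y => ?_)
  have h0 : 0 < 1 - ε := by linarith
  have h1 := Real.log_le_log h0 (hu.lb (σ y))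
  have h2 : Real.log (u (σ y)) ≤ 0 := Real.log_nonpos (hu.pos hε _).le (hu.ub _)
  rw [Real.norm_eq_abs, abs_of_nonpos h2]
  linarith

lemma weight_eq {J A Y : Type} [Fintype J] [DecidableEq J] [Fintype A] [DecidableEq A]
    {mY : MeasurableSpace Y} (P : Measure Y) (π : J → A) {σ : J → Y → Y}
    (hσ : ∀ j, Measurable (σ j)) {B : Set Y} (hB : MeasurableSet B)
    {ε : ℝ} (hε : ε < 1) {u : J → Y → ℝ} (hu : ∀ j, Amp ε B (u j))
    (hfin : ∀ j, P (σ j ⁻¹' B) < ⊤)
    (hcol : ∀ j j', π j ≠ π j' → P (σ j ⁻¹' B ∩ σ j' ⁻¹' B) = 0) :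
    ∏ j, Real.exp (∫ y, Real.log (u j (σ j y)) ∂P) =
      Real.exp (∫ y, Real.log (1 + ∑ a,
        ((∏ j ∈ Finset.univ.filter (fun j => π j = a), u j (σ j y)) - 1)) ∂P) := by
  rw [← Real.exp_sum, ← integral_finsetSum _ fun j _ => integrable_log (hσ j) hB hε (hu j) (hfin j)]
  congr 1
  refine integral_congr_ae ?_
  have h1 : ∀ᵐ y ∂P, ∀ j j', π j ≠ π j' → ¬ (y ∈ σ j ⁻¹' B ∩ σ j' ⁻¹' B) := by
    rw [ae_all_iff]
    intro j
    rw [ae_all_iff]
    intro j'
    by_cases hjj : π j = π j'
    · exact Eventually.of_forall fun y h => absurd hjj h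
    · filter_upwards [measure_eq_zero_iff_ae_notMem.1 (hcol j j' hjj)] with y hy _ using hy
  filter_upwards [h1] with y hy
  rw [mix_prod π (fun j => u j (σ j y)), Real.log_prod]
  · intro j _
    exact ((hu j).pos hε _).ne'
  · intro j j' hjj'
    by_contra hc
    push Not at hc
    exact hy j j' hjj' ⟨by_contra fun h => hc.1 ((hu j).off _ h),
      by_contra fun h => hc.2 ((hu j').off _ h)⟩

lemma avg_fsum {κ : Type} [Fintype κ] [DecidableEq κ] {ι : Type} (s : Finset ι)
    (M : κ → ℕ) (f : ι → (κ → ℕ) → ℝ) :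
    avg M (fun m => ∑ i ∈ s, f i m) = ∑ i ∈ s, avg M (f i) := by
  unfold avg
  rw [Finset.sum_comm, Finset.mul_sum]

lemma Cvg_of_close {κ : Type} [Fintype κ] [DecidableEq κ] {w w' c : (κ → ℕ) → ℝ}
    (hw : ∀ m, |w m - w' m| ≤ c m) (hc : Tendsto (fun M => avg M c) atTop (𝓝 0))
    (h : Cvg w') : Cvg w := by
  obtain ⟨L, hL⟩ := h
  refine ⟨L, ?_⟩
  have h1 : Tendsto (fun M => avg M fun m => w m - w' m) atTop (𝓝 0) := by
    refine squeeze_zero_norm (fun M => ?_) hc
    exact (abs_avg_le M _).trans (avg_mono M hw)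
  have h2 := h1.add hL
  rw [zero_add] at h2
  refine h2.congr fun M => ?_
  rw [avg_sub]; ring

lemma amp_U {J A Y : Type} [Fintype J] [DecidableEq J] [Fintype A] [DecidableEq A]
    {mY : MeasurableSpace Y} (π : J → A) (hπ : Fintype.card A ≤ Fintype.card J) {τ : J → Y → Y}
    (hτ : ∀ j, Measurable (τ j)) {B : Set Y} {u : J → Y → ℝ}
    (hu : ∀ j, Amp (1 / (2 * ((Fintype.card J : ℝ) + 1) ^ 2)) B (u j)) (a : A) :
    Amp (1 / (2 * ((Fintype.card A : ℝ) + 1))) (⋃ j, τ j ⁻¹' B)
      (fun y => ∏ j ∈ Finset.univ.filter (fun j => π j = a), u j (τ j y)) := by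
  have hn : (0 : ℝ) ≤ Fintype.card J := Nat.cast_nonneg _
  have hε : (0 : ℝ) ≤ 1 / (2 * ((Fintype.card J : ℝ) + 1) ^ 2) := by positivity
  have hε1 : 1 / (2 * ((Fintype.card J : ℝ) + 1) ^ 2) ≤ 1 := by
    rw [div_le_one (by positivity)]
    nlinarith
  refine ⟨?_, ?_, ?_, ?_, ?_⟩
  · exact Finset.measurable_fun_prod _ fun j _ => (hu j).meas.comp (hτ j)
  · have h1 : (Set.pi Set.univ fun j => Set.range (u j)).Finite :=
      Set.Finite.pi fun j => (hu j).fin
    refine (h1.image fun v => ∏ j ∈ Finset.univ.filter (fun j => π j = a), v j).subset ?_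
    rintro _ ⟨y, rfl⟩
    exact ⟨fun j => u j (τ j y), fun j _ => ⟨τ j y, rfl⟩, rfl⟩
  · intro y
    have h1 := prod_lb (Finset.univ.filter (fun j => π j = a)) (v := fun j => u j (τ j y)) hε hε1
      (fun j => (hu j).lb _) (fun j => (hu j).ub _)
    refine le_trans ?_ h1
    have h2 : ((Finset.univ.filter (fun j => π j = a)).card : ℝ) ≤ Fintype.card J := by
      exact_mod_cast Finset.card_le_univ _
    have h3 := mul_le_mul_of_nonneg_right h2 hε
    have h4 : (Fintype.card J : ℝ) * (1 / (2 * ((Fintype.card J : ℝ) + 1) ^ 2)) ≤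
        1 / (2 * ((Fintype.card J : ℝ) + 1)) := by
      rw [mul_one_div, div_le_div_iff₀ (by positivity) (by positivity)]
      nlinarith
    have h5 : 1 / (2 * ((Fintype.card J : ℝ) + 1)) ≤ 1 / (2 * ((Fintype.card A : ℝ) + 1)) := by
      have : (Fintype.card A : ℝ) ≤ Fintype.card J := by exact_mod_cast hπ
      exact one_div_le_one_div_of_le (by positivity) (by linarith)
    linarith
  · intro y
    exact Finset.prod_le_one (fun j _ => by have := (hu j).lb (τ j y); linarith)
      fun j _ => (hu j).ub _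
  · intro y hy
    refine Finset.prod_eq_one fun j _ => (hu j).off _ fun h => hy ?_
    exact Set.mem_iUnion.2 ⟨j, h⟩

lemma mix_mem {A Y : Type} [Fintype A] {mY : MeasurableSpace Y} {B : Set Y} {U : A → Y → ℝ}
    (hU : ∀ a, Amp (1 / (2 * ((Fintype.card A : ℝ) + 1))) B (U a)) (σ : A → Y → Y) (y : Y) :
    0 ≤ mix U σ y ∧ mix U σ y ≤ 1 := by
  unfold mix
  constructor
  · have h1 : ∑ a : A, (-(1 / (2 * ((Fintype.card A : ℝ) + 1)))) ≤ ∑ a, (U a (σ a y) - 1) :=
      Finset.sum_le_sum fun a _ => by have := (hU a).lb (σ a y); linarith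
    rw [Finset.sum_const, Finset.card_univ, nsmul_eq_mul] at h1
    have h2 : (Fintype.card A : ℝ) * (1 / (2 * ((Fintype.card A : ℝ) + 1))) ≤ 1 := by
      rw [mul_one_div, div_le_one (by positivity)]
      have : (0 : ℝ) ≤ Fintype.card A := Nat.cast_nonneg _
      linarith
    linarith
  · have h1 : ∑ a, (U a (σ a y) - 1) ≤ 0 :=
      Finset.sum_nonpos fun a _ => by have := (hU a).ub (σ a y); linarith
    linarith

end ExpoAux

open ExpoAux

variable {V X Y : Type} [AddCommGroup V] [Module ℝ V] {mX : MeasurableSpace X}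
  {mY : MeasurableSpace Y} {μ : Measure X}
  [IsProbabilityMeasure μ] {κ : Type} [Fintype κ] [DecidableEq κ] {d : ℕ} {J : Type} [Fintype J]
  [DecidableEq J]

theorem ExpoAux.exp_cvg_aux (g : GF V X μ) (act : MAct (Fin d → ℤ) X μ) (S : (Fin d → ℤ) → V →ₗ[ℝ] V)
    (hS : ∀ w v x, g.G (S w v) x = g.G v (act.S w x))
    (hSadd : ∀ w w' v, S (w + w') v = S w (S w' v))
    (hBi : ∀ w u v, g.B (S w u) (S w v) = g.B u v)
    {ν : Measure Y} {N : X → Measure Y} (hN : IsPoisson μ ν N) (R : MAct (Fin d → ℤ) Y ν)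
    (hNR : ∀ w x, N (act.S w x) = (N x).map (R.S w))
    (hind : Indep (⨆ v, MeasurableSpace.comap (g.G v) (borel ℝ))
      (MeasurableSpace.comap N inferInstance) μ)
    {B : Set Y} (hB : MeasurableSet B) (hνB : ν B < ⊤) (hret : Ret R B)
    (q : J → κ → PV d) (h : J → V) (u : J → Y → ℝ)
    (hu : ∀ j, Amp (1 / (2 * ((Fintype.card J : ℝ) + 1) ^ 2)) B (u j)) 
    {A : Type} [Fintype A] [DecidableEq A] (π : J → A) (rep : A → J)
    (hπ : ∀ a, π (rep a) = a) (hrep : ∀ j l i, (q j l i - q (rep (π j)) l i).natDegree = 0)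
    (hne : ∀ j j', π j ≠ π j' → ∃ l i, 0 < (q j' l i - q j l i).natDegree) :
    ∀ᵐ x ∂μ, CSw (fun m : κ → ℕ => ∏ j, mf N (u j) (act.S (ev (q j) m) x))
      (fun m => ∑ j, g.G (h j) (act.S (ev (q j) m) x)) := by
  have hcardA : Fintype.card A ≤ Fintype.card J :=
    Fintype.card_le_of_surjective π fun a => ⟨rep a, hπ a⟩
  have hev : ∀ j m, ev (q j) m = ev (fun l => q j l - q (rep (π j)) l) 0 + ev (q (rep (π j))) m :=
    fun j m => ev_const (hrep j) m
  set c : J → Fin d → ℤ := fun j => ev (fun l => q j l - q (rep (π j)) l) 0 with hc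
  have hε1 : 1 / (2 * ((Fintype.card J : ℝ) + 1) ^ 2) < 1 := by
    have hn : (0 : ℝ) ≤ Fintype.card J := Nat.cast_nonneg _
    rw [div_lt_one (by positivity)]
    nlinarith
  have hB'm : MeasurableSet (⋃ j, (R.S (c j)) ⁻¹' B) :=
    MeasurableSet.iUnion fun j => (R.mp (c j)).measurable hB
  have hνw : ∀ w, ν (R.S w ⁻¹' B) < ⊤ := fun w => by
    rw [(R.mp w).measure_preimage hB.nullMeasurableSet]; exact hνB
  have hνB' : ν (⋃ j, (R.S (c j)) ⁻¹' B) < ⊤ := by
    refine (measure_iUnion_fintype_le ν _).trans_lt ?_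
    exact ENNReal.sum_lt_top.2 fun j _ => hνw _
  set U : A → Y → ℝ := fun a y =>
    ∏ j ∈ Finset.univ.filter (fun j => π j = a), u j (R.S (c j) y) with hU
  have hUA : ∀ a, Amp (1 / (2 * ((Fintype.card A : ℝ) + 1))) (⋃ j, (R.S (c j)) ⁻¹' B) (U a) :=
    fun a => amp_U π hcardA (fun j => (R.mp (c j)).measurable) hu a
  have hcore := core g act S hS hSadd hBi hN R hNR hind q h hB'm hνB' (fun a => q (rep a)) U hUA
  have hcoll : ∀ᵐ x ∂μ, ∀ j j', π j ≠ π j' → Tendsto (fun M : κ → ℕ => avg M fun m =>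
      if N x ((R.S (ev (q j) m)) ⁻¹' B ∩ (R.S (ev (q j') m)) ⁻¹' B) = 0 then (0 : ℝ) else 1)
      atTop (𝓝 0) := by
    rw [ae_all_iff]
    intro j
    rw [ae_all_iff]
    intro j'
    by_cases hjj : π j = π j'
    · exact Eventually.of_forall fun x h => absurd hjj h
    · filter_upwards [coll_zero hN act R hNR hB hνB hret (q j) (q j') (hne j j' hjj)]
        with x hx _ using hx
  have hfin : ∀ᵐ x ∂μ, ∀ j m, N x (R.S (ev (q j) m) ⁻¹' B) < ⊤ := by
    rw [ae_all_iff]
    intro j
    rw [ae_all_iff]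
    intro m
    exact hN.ae_lt_top ((R.mp _).measurable hB) (hνw _)
  filter_upwards [hcore, hcoll, hfin] with x hx1 hx2 hx3
  set ind : J → J → (κ → ℕ) → ℝ := fun j j' m => if π j = π j' then 0 else
    (if N x ((R.S (ev (q j) m)) ⁻¹' B ∩ (R.S (ev (q j') m)) ⁻¹' B) = 0 then (0 : ℝ) else 1)
    with hind'
  set coll : (κ → ℕ) → ℝ := fun m => ∑ j, ∑ j', ind j j' m with hcolldef
  have hind0 : ∀ j j' m, 0 ≤ ind j j' m := by
    intro j j' m
    simp only [hind']
    split_ifs <;> norm_num
  have hcoll0 : Tendsto (fun M => avg M coll) atTop (𝓝 0) := by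
    have h1 : ∀ j j', Tendsto (fun M => avg M (ind j j')) atTop (𝓝 0) := by
      intro j j'
      by_cases hjj : π j = π j'
      · have h2 : ind j j' = fun _ => (0 : ℝ) := by
          funext m
          simp only [hind', if_pos hjj]
        rw [h2]
        have h3 : ∀ M : κ → ℕ, avg M (fun _ => (0 : ℝ)) = 0 := fun M => by simp [avg]
        simp only [h3]
        exact tendsto_const_nhds
      · have h2 := hx2 j j' hjj
        simpa only [hind', if_neg hjj] using h2
    have h2 : Tendsto (fun M => ∑ j, ∑ j', avg M (ind j j')) atTop (𝓝 (∑ _j : J, ∑ _j' : J, (0 : ℝ))) :=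
      tendsto_finsetSum _ fun j _ => tendsto_finsetSum _ fun j' _ => h1 j j'
    simp only [Finset.sum_const_zero] at h2
    refine h2.congr fun M => ?_
    rw [hcolldef, avg_fsum]
    exact Finset.sum_congr rfl fun j _ => (avg_fsum _ M _).symm
  have hw : ∀ m, |(∏ j, mf N (u j) (act.S (ev (q j) m) x)) -
      mf N (mix U fun a => R.S (ev (q (rep a)) m)) x| ≤ coll m := by
    intro m
    by_cases hcm : ∀ j j', π j ≠ π j' →
        N x ((R.S (ev (q j) m)) ⁻¹' B ∩ (R.S (ev (q j') m)) ⁻¹' B) = 0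
    · have h1 : ∏ j, mf N (u j) (act.S (ev (q j) m) x) =
          ∏ j, Real.exp (∫ y, Real.log (u j (R.S (ev (q j) m) y)) ∂(N x)) := by
        refine Finset.prod_congr rfl fun j _ => ?_
        rw [mf_map (R.mp _).measurable (fun x => hNR (ev (q j) m) x) (hu j).meas]
        rfl
      have h2 := weight_eq (N x) π (σ := fun j => R.S (ev (q j) m))
        (fun j => (R.mp _).measurable) hB hε1 hu (fun j => hx3 j m) hcm
      have h3 : mf N (mix U fun a => R.S (ev (q (rep a)) m)) x =
          Real.exp (∫ y, Real.log (1 + ∑ a,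
            ((∏ j ∈ Finset.univ.filter (fun j => π j = a), u j (R.S (ev (q j) m) y)) - 1)) ∂(N x)) := by
        unfold mf mix
        congr 1
        refine integral_congr_ae (Eventually.of_forall fun y => ?_)
        simp only [hU]
        congr 2
        refine Finset.sum_congr rfl fun a _ => ?_
        congr 1
        refine Finset.prod_congr rfl fun j hj => ?_
        rw [Finset.mem_filter] at hj
        rw [← R.add, ← hj.2, ← hev j m]
      rw [h1, h2, h3, sub_self, abs_zero]
      exact Finset.sum_nonneg fun j _ => Finset.sum_nonneg fun j' _ => hind0 j j' m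
    · push Not at hcm
      obtain ⟨j, j', hjj, hne'⟩ := hcm
      have h1 : (1 : ℝ) ≤ coll m := by
        have h2 : ind j j' m = 1 := by
          simp only [hind', if_neg hjj, if_neg hne']
        calc (1 : ℝ) = ind j j' m := h2.symm
          _ ≤ ∑ j', ind j j' m :=
            Finset.single_le_sum (f := fun j' => ind j j' m) (fun j' _ => hind0 j j' m)
              (Finset.mem_univ j')
          _ ≤ ∑ j, ∑ j', ind j j' m :=
            Finset.single_le_sum (f := fun j => ∑ j', ind j j' m)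
              (fun j _ => Finset.sum_nonneg fun j' _ => hind0 j j' m) (Finset.mem_univ j)
      refine le_trans ?_ h1
      have h3 : 0 ≤ ∏ j, mf N (u j) (act.S (ev (q j) m) x) :=
        Finset.prod_nonneg fun j _ => (mf_pos N _ _).le
      have h4 : ∏ j, mf N (u j) (act.S (ev (q j) m) x) ≤ 1 :=
        Finset.prod_le_one (fun j _ => (mf_pos N _ _).le) fun j _ =>
          mf_le_one N (fun y => by have := (hu j).pos hε1 y; exact this.le) (hu j).ub _
      have h5 := mf_pos N (mix U fun a => R.S (ev (q (rep a)) m)) x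
      have h6 : mf N (mix U fun a => R.S (ev (q (rep a)) m)) x ≤ 1 :=
        mf_le_one N (fun y => (mix_mem hUA _ y).1) (fun y => (mix_mem hUA _ y).2) _
      rw [abs_le]
      constructor <;> linarith
  have hfac : ∀ (a b c e : ℝ), |c| ≤ 1 → |a - b| ≤ e → |a * c - b * c| ≤ e := by
    intro a b c e hc1 hab
    rw [← sub_mul, abs_mul]
    calc |a - b| * |c| ≤ |a - b| * 1 := mul_le_mul_of_nonneg_left hc1 (abs_nonneg _)
      _ ≤ e := by rw [mul_one]; exact hab
  exact ⟨Cvg_of_close (fun m => hfac _ _ _ _ (Real.abs_cos_le_one _) (hw m)) hcoll0 hx1.1,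
    Cvg_of_close (fun m => hfac _ _ _ _ (Real.abs_sin_le_one _) (hw m)) hcoll0 hx1.2⟩

theorem exp_cvg (g : GF V X μ) (act : MAct (Fin d → ℤ) X μ) (S : (Fin d → ℤ) → V →ₗ[ℝ] V)
    (hS : ∀ w v x, g.G (S w v) x = g.G v (act.S w x))
    (hSadd : ∀ w w' v, S (w + w') v = S w (S w' v))
    (hBi : ∀ w u v, g.B (S w u) (S w v) = g.B u v)
    {ν : Measure Y} {N : X → Measure Y} (hN : IsPoisson μ ν N) (R : MAct (Fin d → ℤ) Y ν)
    (hNR : ∀ w x, N (act.S w x) = (N x).map (R.S w))
    (hind : Indep (⨆ v, MeasurableSpace.comap (g.G v) (borel ℝ))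
      (MeasurableSpace.comap N inferInstance) μ)
    {B : Set Y} (hB : MeasurableSet B) (hνB : ν B < ⊤) (hret : Ret R B)
    (q : J → κ → PV d) (h : J → V) (u : J → Y → ℝ)
    (hu : ∀ j, Amp (1 / (2 * ((Fintype.card J : ℝ) + 1) ^ 2)) B (u j)) :
    ∀ᵐ x ∂μ, CSw (fun m : κ → ℕ => ∏ j, mf N (u j) (act.S (ev (q j) m) x))
      (fun m => ∑ j, g.G (h j) (act.S (ev (q j) m) x)) := by
  classical
  let r : Setoid J :=
    { r := fun j j' => ∀ l i, (q j l i - q j' l i).natDegree = 0
      iseqv := ⟨fun j l i => by rw [sub_self, Polynomial.natDegree_zero],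
        fun {j j'} h l i => by rw [Polynomial.natDegree_sub]; exact h l i,
        fun {j j' j''} h h' l i => by
          have e : q j l i - q j'' l i = (q j l i - q j' l i) + (q j' l i - q j'' l i) := by ring
          rw [e]
          refine Nat.le_zero.1 ((Polynomial.natDegree_add_le _ _).trans ?_)
          rw [h l i, h' l i]
          exact le_rfl⟩ }
  haveI : Finite (Quotient r) := Quotient.finite r
  letI : Fintype (Quotient r) := Fintype.ofFinite _
  have hout : ∀ a : Quotient r, Quotient.mk r a.out = a := fun a => Quotient.out_eq a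
  refine ExpoAux.exp_cvg_aux g act S hS hSadd hBi hN R hNR hind hB hνB hret q h u hu
    (A := Quotient r) (Quotient.mk r) (fun a => a.out) hout ?_ ?_
  · intro j
    exact Quotient.exact (hout (Quotient.mk r j)).symm
  · intro j j' hjj
    by_contra hc
    push Not at hc
    refine hjj (Quotient.sound ?_)
    intro l i
    rw [Polynomial.natDegree_sub]
    exact Nat.le_zero.1 (hc l i)

end Pool.Agent.Lib.Pf720po
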