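import Pool.Agent.Lib.Pf720po.Char
import Pool.Agent.Lib.Pf720po.Dens

/-!
# The σ-algebra generated by a Poisson random measure, modulo null sets
-/

set_option autoImplicit false
set_option linter.unusedSectionVars false

open MeasureTheory Filter Topology ProbabilityTheory
open scoped ENNReal

namespace Pool.Agent.Lib.Pf720po

open Pool.Agent.Lib.Pf720ae Pool.Agent.Lib.Pf720gs

variable {V X Y : Type} [AddCommGroup V] [Module ℝ V] {mX : MeasurableSpace X}
  {mY : MeasurableSpace Y} {μ : Measure X} [IsProbabilityMeasure μ]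

theorem gen_KP (g : GF V X μ) {ν : Measure Y} {N : X → Measure Y}
    (hN : IsPoisson μ ν N) {B : ℕ → Set Y} (hBmono : Monotone B)
    (hB : ∀ r, MeasurableSet (B r)) (hνB : ∀ r, ν (B r) < ⊤) (hBU : ⋃ r, B r = Set.univ)
    {D : Set X} (hD : MeasurableSet[(⨆ v, MeasurableSpace.comap (g.G v) (borel ℝ)) ⊔
      MeasurableSpace.comap N inferInstance] D) :
    ∃ D', MeasurableSet[⨆ i, MeasurableSpace.comap (KP g N B ν i) (borel ℝ)] D' ∧
      D =ᵐ[μ] D' := by
  classical
  set m : MeasurableSpace X := ⨆ i, MeasurableSpace.comap (KP g N B ν i) (borel ℝ) with hm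
  have hle : m ≤ eventuallyMeasurableSpace m (ae μ) := fun s hs => ⟨s, hs, EventuallyEq.rfl⟩
  have h1 : (⨆ v, MeasurableSpace.comap (g.G v) (borel ℝ)) ≤ m :=
    iSup_le fun v => le_iSup (fun i => MeasurableSpace.comap (KP g N B ν i) (borel ℝ)) (Sum.inl v)
  have h2 : MeasurableSpace.comap N inferInstance ≤ eventuallyMeasurableSpace m (ae μ) := by
    refine @Measurable.comap_le _ _ (eventuallyMeasurableSpace m (ae μ)) _ _ ?_
    refine @Measure.measurable_of_measurable_coe Y X mY (eventuallyMeasurableSpace m (ae μ)) N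
      fun A hA => ?_
    -- the indicator functions
    have hT : ∀ r, Simp ν (Set.indicator (A ∩ B r) (fun _ : Y => (1 : ℝ))) ∧
        ∃ s, Function.support (Set.indicator (A ∩ B r) (fun _ : Y => (1 : ℝ))) ⊆ B s := by
      intro r
      have hsup : Function.support (Set.indicator (A ∩ B r) (fun _ : Y => (1 : ℝ))) ⊆ B r := by
        intro y hy
        by_contra h
        exact hy (Set.indicator_of_notMem (fun h' => h h'.2) _)
      refine ⟨⟨measurable_const.indicator (hA.inter (hB r)), ?_, ?_⟩, r, hsup⟩
      · refine (Set.toFinite ({0, 1} : Set ℝ)).subset ?_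
        rintro _ ⟨y, rfl⟩
        by_cases hy : y ∈ A ∩ B r
        · rw [Set.indicator_of_mem hy]; simp
        · rw [Set.indicator_of_notMem hy]; simp
      · exact (measure_mono hsup).trans_lt (hνB r)
    set F : X → ℝ≥0∞ := fun x => ⨆ r : ℕ,
      ENNReal.ofReal (∫ y, Set.indicator (A ∩ B r) (fun _ : Y => (1 : ℝ)) y ∂(N x)) with hF
    have hFm : Measurable[m] F := by
      refine Measurable.iSup (mδ := m) fun r => ?_
      refine ENNReal.measurable_ofReal.comp ?_
      exact measurable_iSup_comap (KP g N B ν) (Sum.inr ⟨_, hT r⟩)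
    have hae : ∀ᵐ x ∂μ, N x A = F x := by
      have hfin : ∀ᵐ x ∂μ, ∀ r, N x (A ∩ B r) < ⊤ := by
        rw [ae_all_iff]
        intro r
        exact hN.ae_lt_top (hA.inter (hB r)) ((measure_mono Set.inter_subset_right).trans_lt (hνB r))
      filter_upwards [hfin] with x hx
      have h3 : A = ⋃ r, A ∩ B r := by
        rw [← Set.inter_iUnion, hBU, Set.inter_univ]
      have h4 : N x A = ⨆ r, N x (A ∩ B r) := by
        conv_lhs => rw [h3]
        exact Monotone.measure_iUnion fun r s hrs => Set.inter_subset_inter_right _ (hBmono hrs)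
      rw [h4, hF]
      refine iSup_congr fun r => ?_
      rw [integral_indicator (hA.inter (hB r))]
      simp only [integral_const, smul_eq_mul, mul_one]
      rw [measureReal_restrict_apply_univ, Measure.real, ENNReal.ofReal_toReal (hx r).ne]
    intro E hE
    refine ⟨F ⁻¹' E, hFm hE, ?_⟩
    filter_upwards [hae] with x hx
    show (N x A ∈ E) = (F x ∈ E)
    rw [hx]
  exact (sup_le (h1.trans hle) h2) D hD

end Pool.Agent.Lib.Pf720po
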