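import Pool.Agent.Lib.Pf720po.Mixed
import Pool.Agent.Lib.Pf720po.Gen

/-!
# Gaussian and Poisson factors of actions of `ℤ^d`, polynomial exponents
-/

set_option autoImplicit false
set_option linter.unusedSectionVars false

open MeasureTheory Filter Topology ProbabilityTheory
open scoped ENNReal

namespace Pool.Agent.Lib.Pf720po

open Pool.Agent.Lib.Pf720ae Pool.Agent.Lib.Pf720pi Pool.Agent.Lib.Pf720gs
open Pool.Agent.Lib.Pf720pp (PV ev PolR PolC polC_of_polR unc)

section equivariance

variable {X Y : Type} {mY : MeasurableSpace Y}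

lemma N_inv {N : X → Measure Y} {T : Equiv.Perm X} {R : Equiv.Perm Y} (hR : Measurable R)
    (hR' : Measurable R.symm) (h : ∀ x, N (T x) = (N x).map R) (x : X) :
    N (T⁻¹ x) = (N x).map (R⁻¹ : Equiv.Perm Y) := by
  have h1 := h (T⁻¹ x)
  have e0 : T (T⁻¹ x) = x := T.apply_symm_apply x
  rw [e0] at h1
  rw [h1]
  show N (T⁻¹ x) = ((N (T⁻¹ x)).map R).map R.symm
  rw [Measure.map_map hR' hR]
  have : (R.symm ∘ R : Y → Y) = id := by
    funext y
    simp
  rw [this, Measure.map_id]

lemma N_pow {N : X → Measure Y} {T : Equiv.Perm X} {R : Equiv.Perm Y} (hR : Measurable R)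
    (h : ∀ x, N (T x) = (N x).map R) (n : ℕ) (x : X) :
    Measurable ((R ^ n : Equiv.Perm Y) : Y → Y) ∧
    N ((T ^ n : Equiv.Perm X) x) = (N x).map ((R ^ n : Equiv.Perm Y) : Y → Y) := by
  induction n generalizing x with
  | zero =>
    refine ⟨measurable_id, ?_⟩
    show N x = (N x).map id
    rw [Measure.map_id]
  | succ n ih =>
    have hm : Measurable ((R ^ (n + 1) : Equiv.Perm Y) : Y → Y) := by
      rw [pow_succ]
      exact (ih x).1.comp hR
    refine ⟨hm, ?_⟩
    rw [pow_succ, Equiv.Perm.mul_apply, (ih (T x)).2, h, Measure.map_map (ih x).1 hR]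
    rfl

lemma N_zpow {N : X → Measure Y} {T : Equiv.Perm X} {R : Equiv.Perm Y} (hR : Measurable R)
    (hR' : Measurable R.symm) (h : ∀ x, N (T x) = (N x).map R) (z : ℤ) (x : X) :
    Measurable ((R ^ z : Equiv.Perm Y) : Y → Y) ∧
    N ((T ^ z : Equiv.Perm X) x) = (N x).map ((R ^ z : Equiv.Perm Y) : Y → Y) := by
  cases z with
  | ofNat n =>
    have h1 := N_pow hR h n x
    rw [Int.ofNat_eq_natCast, zpow_natCast, zpow_natCast]
    exact h1
  | negSucc n =>
    have h1 := N_pow (N := N) (T := T⁻¹) (R := R⁻¹) hR' (N_inv hR hR' h) (n + 1) x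
    rw [zpow_negSucc, zpow_negSucc, ← inv_pow, ← inv_pow]
    exact h1

lemma N_pw {N : X → Measure Y} {d : ℕ} (T : Fin d → Equiv.Perm X) (R : Fin d → Equiv.Perm Y)
    (hR : ∀ i, Measurable (R i) ∧ Measurable (R i).symm)
    (h : ∀ i x, N (T i x) = (N x).map (R i)) (w : Fin d → ℤ) (x : X) :
    Measurable (pw R w : Y → Y) ∧ N (pw T w x) = (N x).map (pw R w : Y → Y) := by
  unfold pw
  induction d with
  | zero =>
    simp only [List.ofFn_zero, List.prod_nil]
    refine ⟨measurable_id, ?_⟩
    show N x = (N x).map id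
    rw [Measure.map_id]
  | succ d ih =>
    have h0 := ih (fun i => T i.succ) (fun i => R i.succ) (fun i => hR _) (fun i => h _)
      (fun i => w i.succ)
    have h1 := N_zpow (hR 0).1 (hR 0).2 (h 0) (w 0)
      ((List.ofFn fun i : Fin d => T i.succ ^ w i.succ).prod x)
    simp only [List.ofFn_succ, List.prod_cons, Equiv.Perm.mul_apply]
    refine ⟨h1.1.comp h0.1, ?_⟩
    rw [h1.2, h0.2, Measure.map_map h1.1 h0.1]
    rfl

lemma mp_zpow' {ν : Measure Y} {T : Equiv.Perm Y} (h1 : Measurable T) (h2 : Measurable T.symm)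
    (h3 : MeasurePreserving T ν ν) (z : ℤ) :
    MeasurePreserving ((T ^ z : Equiv.Perm Y) : Y → Y) ν ν := by
  have h4 : MeasurePreserving T.symm ν ν := by
    refine ⟨h2, ?_⟩
    conv_lhs => rw [← h3.map_eq]
    rw [Measure.map_map h2 h1]
    simp
  have hn : ∀ (S : Equiv.Perm Y), MeasurePreserving S ν ν → ∀ n : ℕ,
      MeasurePreserving ((S ^ n : Equiv.Perm Y) : Y → Y) ν ν := by
    intro S hS n
    induction n with
    | zero => exact MeasurePreserving.id ν
    | succ n ih =>
      rw [pow_succ]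
      exact ih.comp hS
  cases z with
  | ofNat n => exact hn T h3 n
  | negSucc n =>
    rw [zpow_negSucc, ← inv_pow]
    exact hn T⁻¹ h4 (n + 1)

lemma mp_pw' {ν : Measure Y} {d : ℕ} (T : Fin d → Equiv.Perm Y)
    (hT : ∀ i, Measurable (T i) ∧ Measurable (T i).symm ∧ MeasurePreserving (T i) ν ν)
    (γ : Fin d → ℤ) : MeasurePreserving (pw T γ) ν ν := by
  unfold pw
  induction d with
  | zero =>
    simp only [List.ofFn_zero, List.prod_nil]
    exact MeasurePreserving.id ν
  | succ d ih =>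
    rw [List.ofFn_succ, List.prod_cons]
    exact (mp_zpow' (hT 0).1 (hT 0).2.1 (hT 0).2.2 _).comp
      (ih (fun i => T i.succ) (fun i => hT _) (fun i => γ i.succ))

/-- the action of `ℤ^d` generated by commuting measure preserving maps, arbitrary measures -/
def permActS {ν : Measure Y} {d : ℕ} (T : Fin d → Equiv.Perm Y)
    (hT : ∀ i, Measurable (T i) ∧ Measurable (T i).symm ∧ MeasurePreserving (T i) ν ν)
    (hc : ∀ i j, T i * T j = T j * T i) : MAct (Fin d → ℤ) Y ν where
  S γ := pw T γ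
  zero x := by rw [pw_zero]; rfl
  add a b x := by rw [pw_add T hc]; rfl
  mp γ := mp_pw' T hT γ

end equivariance

lemma isPoisson_trim {X Y : Type} (m : MeasurableSpace X) {mX : MeasurableSpace X}
    {mY : MeasurableSpace Y} {μ : Measure X} {ν : Measure Y} {N : X → Measure Y}
    (hN : IsPoisson μ ν N) (hm : m ≤ mX) (hNm : Measurable[m] N) :
    @IsPoisson X Y m _ (μ.trim hm) ν N := by
  refine ⟨hNm, fun n B hB hνB hd k => ?_⟩
  have hs : MeasurableSet[m] {x | ∀ i, N x (B i) = k i} := by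
    have h1 : {x | ∀ i, N x (B i) = k i} = ⋂ i, {x | N x (B i) = k i} := by
      ext x
      simp
    rw [h1]
    refine @MeasurableSet.iInter X (Fin n) m _ _ fun i => ?_
    have h2 : Measurable[m] fun x => N x (B i) := (Measure.measurable_coe (hB i)).comp hNm
    exact h2 (measurableSet_singleton _)
  rw [← hN.2 n B hB hνB hd k]
  unfold Measure.real
  rw [trim_measurableSet_eq hm hs]

lemma indep_trim {X : Type} (m : MeasurableSpace X) {mX : MeasurableSpace X} {μ : Measure X}
    (hm : m ≤ mX) {m₁ m₂ : MeasurableSpace X} (h₁ : m₁ ≤ m) (h₂ : m₂ ≤ m)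
    (h : Indep m₁ m₂ μ) : @Indep X m₁ m₂ m (μ.trim hm) := by
  rw [@Indep_iff X m₁ m₂ m (μ.trim hm)]
  intro s t hs ht
  rw [trim_measurableSet_eq hm (@MeasurableSet.inter X m _ _ (h₁ _ hs) (h₂ _ ht)),
    trim_measurableSet_eq hm (h₁ _ hs), trim_measurableSet_eq hm (h₂ _ ht)]
  exact (Indep_iff m₁ m₂ μ).1 h s t hs ht

lemma poisson_trimP {V X Y : Type} [AddCommGroup V] [Module ℝ V] (m : MeasurableSpace X)
    {mX : MeasurableSpace X} {mY : MeasurableSpace Y} {μ : Measure X} [IsProbabilityMeasure μ]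
    {d : ℕ}
    (g : GF V X μ) (act : MAct (Fin d → ℤ) X μ) (S : (Fin d → ℤ) → V →ₗ[ℝ] V)
    (hS : ∀ w v x, g.G (S w v) x = g.G v (act.S w x))
    (hSadd : ∀ w w' v, S (w + w') v = S w (S w' v))
    (hBi : ∀ w u v, g.B (S w u) (S w v) = g.B u v)
    {ν : Measure Y} {N : X → Measure Y} (hN : IsPoisson μ ν N) (R : MAct (Fin d → ℤ) Y ν)
    (hNR : ∀ w x, N (act.S w x) = (N x).map (R.S w))
    (hind : Indep (⨆ v, MeasurableSpace.comap (g.G v) (borel ℝ))
      (MeasurableSpace.comap N inferInstance) μ)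
    {B : ℕ → Set Y} (hBmono : Monotone B)
    (hB : ∀ r, MeasurableSet (B r)) (hνB : ∀ r, ν (B r) < ⊤) (hBU : ⋃ r, B r = Set.univ)
    (hret : ∀ r, Ret R (B r))
    (hm : m = (⨆ v, MeasurableSpace.comap (g.G v) (borel ℝ)) ⊔
      MeasurableSpace.comap N inferInstance) (hmX : m ≤ mX)
    (hact : ∀ w, Measurable[m, m] (act.S w)) (K : Set ℕ) (Q : Set (PV d)) :
    @PolR X m (μ.trim hmX) d K Q act.S m := by
  intro κ _ _ J _ _ q F _ _ hFm hF1
  have hle1 : (⨆ v, MeasurableSpace.comap (g.G v) (borel ℝ)) ≤ m := by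
    rw [hm]
    exact le_sup_left
  have hle2 : MeasurableSpace.comap N inferInstance ≤ m := by
    rw [hm]
    exact le_sup_right
  have hgm : ∀ v, Measurable[m] (g.G v) := fun v =>
    (measurable_iSup_comap g.G v).mono hle1 le_rfl
  have hNm : Measurable[m] N := by
    rw [measurable_iff_comap_le]
    exact hle2
  have : @IsProbabilityMeasure X m (μ.trim hmX) := by
    refine @IsProbabilityMeasure.mk X m _ ?_
    rw [trim_measurableSet_eq hmX (@MeasurableSet.univ X m)]
    exact measure_univ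
  have hN' := isPoisson_trim m hN hmX hNm
  refine @realN V X Y _ _ m mY (μ.trim hmX) _ κ _ _ d J _ _ (g.trim m hmX hgm)
    (trimAct m act hmX hact) S hS hSadd hBi ν N hN' R hNR
    (indep_trim m hmX hle1 hle2 hind) B hBmono hB hνB hret ?_ q F hFm hF1
  intro D hD
  refine @gen_KP V X Y _ _ m mY (μ.trim hmX) _ (g.trim m hmX hgm) ν N hN' B hBmono hB hνB hBU D ?_
  have hD' : MeasurableSet[(⨆ v, MeasurableSpace.comap (g.G v) (borel ℝ)) ⊔
      MeasurableSpace.comap N inferInstance] D := by
    rw [← hm]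
    exact hD
  exact hD'

/-- Gaussian and Poisson factors -/
theorem poisson_polC {X Y : Type} {mX : MeasurableSpace X} {mY : MeasurableSpace Y}
    {μ : Measure X} [IsProbabilityMeasure μ]
    {d : ℕ} (T : Fin d → Equiv.Perm X)
    (hT : ∀ i, Measurable (T i) ∧ Measurable (T i).symm ∧ MeasurePreserving (T i) μ μ)
    (hcomm : ∀ i i', T i * T i' = T i' * T i) {I : Type} (ξ : I → X → ℝ)
    (hξm : ∀ i, Measurable (ξ i))
    (hξ : IsGaussianProcess (fun (p : I × (Fin d → ℤ)) x => ξ p.1 (pw T p.2 x)) μ)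
    {ν : Measure Y} (R : Fin d → Equiv.Perm Y)
    (hR : ∀ i, Measurable (R i) ∧ Measurable (R i).symm ∧ MeasurePreserving (R i) ν ν)
    (hRcomm : ∀ i i', R i * R i' = R i' * R i)
    {N : X → Measure Y} (hN : IsPoisson μ ν N) (hNT : ∀ i x, N (T i x) = (N x).map (R i))
    (hind : Indep (⨆ p : I × (Fin d → ℤ),
      MeasurableSpace.comap (fun x => ξ p.1 (pw T p.2 x)) (borel ℝ))
      (MeasurableSpace.comap N inferInstance) μ)
    {B : ℕ → Set Y} (hBmono : Monotone B)
    (hB : ∀ r, MeasurableSet (B r)) (hνB : ∀ r, ν (B r) < ⊤) (hBU : ⋃ r, B r = Set.univ)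
    (hret : ∀ r, Ret (permActS R hR hRcomm) (B r))
    (K : Set ℕ) (Q : Set (PV d)) :
    PolC μ T K Q ((⨆ p : I × (Fin d → ℤ),
      MeasurableSpace.comap (fun x => ξ p.1 (pw T p.2 x)) (borel ℝ)) ⊔
      MeasurableSpace.comap N inferInstance) := by
  set ζ : I × (Fin d → ℤ) → X → ℝ := fun p x => ξ p.1 (pw T p.2 x) with hζ
  have hζm : ∀ p, Measurable (ζ p) := fun p => (hξm _).comp (mp_pw T hT _).measurable
  set act : MAct (Fin d → ℤ) X μ := permAct T hT hcomm with hactdef
  set g : GF ((I × (Fin d → ℤ)) →₀ ℝ) X μ := fam hζm hξ with hg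
  set S : (Fin d → ℤ) → ((I × (Fin d → ℤ)) →₀ ℝ) →ₗ[ℝ] ((I × (Fin d → ℤ)) →₀ ℝ) :=
    fun w => Finsupp.lmapDomain ℝ ℝ (fun p => (p.1, p.2 + w)) with hSdef
  have hζS : ∀ (p : I × (Fin d → ℤ)) w x, ζ (p.1, p.2 + w) x = ζ p (act.S w x) := by
    intro p w x
    simp only [hζ, hactdef, permAct]
    rw [pw_add T hcomm]
    rfl
  have hlcS : ∀ w v x, lc ζ (S w v) x = lc ζ v (act.S w x) := by
    intro w v x
    induction v using Finsupp.induction_linear with
    | zero => simp [lc]
    | add u v hu hv => rw [map_add, lc_add, lc_add, hu, hv]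
    | single p c =>
      have e : (Finsupp.single p c : (I × (Fin d → ℤ)) →₀ ℝ) = c • Finsupp.single p 1 := by
        rw [Finsupp.smul_single, smul_eq_mul, mul_one]
      have e2 : S w (Finsupp.single p 1) = Finsupp.single (p.1, p.2 + w) 1 := by
        simp only [hSdef, Finsupp.lmapDomain_apply, Finsupp.mapDomain_single]
      rw [e, map_smul, lc_smul, lc_smul, e2, lc_single, lc_single, hζS]
  have hS : ∀ w v x, g.G (S w v) x = g.G v (act.S w x) := by
    intro w v x
    show lc ζ (S w v) x - ∫ z, lc ζ (S w v) z ∂μ = lc ζ v (act.S w x) - ∫ z, lc ζ v z ∂μ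
    rw [hlcS]
    simp only [hlcS]
    rw [act.integral_comp w (measurable_lc hζm v)]
  have hSadd : ∀ w w' v, S (w + w') v = S w (S w' v) := by
    intro w w' v
    simp only [hSdef, Finsupp.lmapDomain_apply]
    rw [← Finsupp.mapDomain_comp]
    congr 1
    funext p
    simp only [Function.comp]
    rw [add_assoc, add_comm w' w]
  have hBi : ∀ w u v, g.B (S w u) (S w v) = g.B u v := by
    intro w u v
    show ∫ x, g.G (S w u) x * g.G (S w v) x ∂μ = ∫ x, g.G u x * g.G v x ∂μ
    simp only [hS]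
    exact act.integral_comp w (f := fun x => g.G u x * g.G v x) ((g.meas u).mul (g.meas v))
  have hNR : ∀ w x, N (act.S w x) = (N x).map ((permActS R hR hRcomm).S w) := fun w x =>
    (N_pw T R (fun i => ⟨(hR i).1, (hR i).2.1⟩) hNT w x).2
  -- the generated σ-algebras
  have hgen : (⨆ v, MeasurableSpace.comap (g.G v) (borel ℝ)) =
      ⨆ p : I × (Fin d → ℤ), MeasurableSpace.comap (ζ p) (borel ℝ) := by
    refine le_antisymm (iSup_le fun v => ?_) (iSup_le fun p => ?_)
    · refine comap_le_of_measurable ?_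
      have e : g.G v = fun x => (∑ p ∈ v.support, v p * ζ p x) - ∫ z, lc ζ v z ∂μ := by
        funext x
        show lc ζ v x - ∫ z, lc ζ v z ∂μ = _
        rw [lc_eq_sum]
      rw [e]
      refine Measurable.sub_const ?_ _
      exact Finset.measurable_fun_sum _ fun p _ => (measurable_iSup_comap ζ p).const_mul _
    · have e : ζ p = fun x => g.G (Finsupp.single p 1) x + ∫ z, ζ p z ∂μ := by
        funext x
        show ζ p x = (lc ζ (Finsupp.single p 1) x - ∫ z, lc ζ (Finsupp.single p 1) z ∂μ) + _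
        simp only [lc_single]
        ring
      refine comap_le_of_measurable ?_
      rw [e]
      exact (measurable_iSup_comap g.G _).add_const _
  rw [← hgen]
  rw [← hgen] at hind
  have hmX : (⨆ v, MeasurableSpace.comap (g.G v) (borel ℝ)) ⊔
      MeasurableSpace.comap N inferInstance ≤ mX :=
    sup_le (iSup_le fun v => comap_le_of_measurable (g.meas v)) hN.1.comap_le
  have hact : ∀ w, Measurable[(⨆ v, MeasurableSpace.comap (g.G v) (borel ℝ)) ⊔
      MeasurableSpace.comap N inferInstance, (⨆ v, MeasurableSpace.comap (g.G v) (borel ℝ)) ⊔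
      MeasurableSpace.comap N inferInstance] (act.S w) := by
    intro w
    rw [measurable_iff_comap_le, MeasurableSpace.comap_sup, MeasurableSpace.comap_iSup]
    refine sup_le (iSup_le fun v => ?_) ?_
    · rw [MeasurableSpace.comap_comp]
      have e : g.G v ∘ act.S w = g.G (S w v) := by
        funext x
        exact (hS w v x).symm
      rw [e]
      exact (le_iSup (fun v => MeasurableSpace.comap (g.G v) (borel ℝ)) (S w v)).trans
        le_sup_left
    · rw [MeasurableSpace.comap_comp]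
      have e : N ∘ act.S w = (fun η : Measure Y => η.map ((permActS R hR hRcomm).S w)) ∘ N := by
        funext x
        exact hNR w x
      rw [e, ← MeasurableSpace.comap_comp]
      exact (MeasurableSpace.comap_mono
        (Measure.measurable_map _ ((permActS R hR hRcomm).mp w).measurable).comap_le).trans
        le_sup_right
  -- convergence for the generated σ-algebra
  have hRR := poisson_trimP _ g act S hS hSadd hBi hN (permActS R hR hRcomm) hNR hind hBmono hB hνB
    hBU hret rfl hmX hact K (unc '' Q)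
  have hprob : @IsProbabilityMeasure X _ (μ.trim hmX) := by
    refine @IsProbabilityMeasure.mk X _ _ ?_
    rw [trim_measurableSet_eq hmX (@MeasurableSet.univ X _)]
    exact measure_univ
  have hT' : ∀ i, Measurable[(⨆ v, MeasurableSpace.comap (g.G v) (borel ℝ)) ⊔
      MeasurableSpace.comap N inferInstance, (⨆ v, MeasurableSpace.comap (g.G v) (borel ℝ)) ⊔
      MeasurableSpace.comap N inferInstance] (T i) ∧
      Measurable[(⨆ v, MeasurableSpace.comap (g.G v) (borel ℝ)) ⊔
      MeasurableSpace.comap N inferInstance, (⨆ v, MeasurableSpace.comap (g.G v) (borel ℝ)) ⊔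
      MeasurableSpace.comap N inferInstance] (T i).symm := by
    intro i
    have h1 := hact (Pi.single i 1)
    have h2 := hact (Pi.single i (-1))
    simp only [hactdef, permAct, pw_single, zpow_one, zpow_neg] at h1 h2
    exact ⟨h1, h2⟩
  have hC := @polC_of_polR X _ (μ.trim hmX) hprob d T (fun i => ⟨(hT' i).1, (hT' i).2,
    mp_trim _ hmX (hT i).2.2 (hT' i).1⟩) hcomm K Q hRR
  exact polC_of_trim _ T hT K Q hmX hC

end Pool.Agent.Lib.Pf720po
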