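import Pool.Agent.Lib.Pf720po.Base

/-!
# Kronecker's lemma in several variables

MODULE Kron (needs only `avg`, `box`, `mem_box` of Pf720ae/Avg.lean and Mathlib).

* `tendsto_avg_zero`: for `M` with all `M l > 0`,
  `avg M a = ∑' m, (a m / ∏ l, (m l + 1)) * (∏ l, (m l + 1) / M l) * 1[m ∈ box M]`. The terms are bounded by
  `a m / ∏ l, (m l + 1)` (for `m ∈ box M`, `m l + 1 ≤ M l`), and for fixed `m` they tend to `0` as
  `M → ∞` in `κ → ℕ` if `κ` is nonempty (`(m l + 1) / M l → 0` for one `l`, the other factors `≤ 1`):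
  `tendsto_tsum_of_dominated_convergence`. (`[Nonempty κ]`.)
* `ae_summable`: `∫⁻ ∑' m, f m x / ∏ (m l + 1) dμ = ∑' m, (∫⁻ f m) / ∏ (m l + 1) < ⊤` (`lintegral_tsum`), so
  the sum is finite a.e. (`ae_lt_top`).
-/

set_option autoImplicit false
set_option linter.unusedSectionVars false

open MeasureTheory Filter Topology ProbabilityTheory
open scoped ENNReal

namespace Pool.Agent.Lib.Pf720po

open Pool.Agent.Lib.Pf720ae

variable {κ : Type} [Fintype κ] [DecidableEq κ]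

namespace KronAux

/-- the summand -/
noncomputable def F (a : (κ → ℕ) → ℝ) (M m : κ → ℕ) : ℝ :=
  if m ∈ box M then a m * (∏ l, (M l : ℝ))⁻¹ else 0

theorem avg_eq (a : (κ → ℕ) → ℝ) (M : κ → ℕ) : avg M a = ∑' m, F a M m := by
  rw [tsum_eq_sum (s := box M) (fun m hm => by unfold F; rw [if_neg hm])]
  unfold avg
  rw [Finset.mul_sum]
  refine Finset.sum_congr rfl fun m hm => ?_
  unfold F
  rw [if_pos hm, mul_comm]

theorem prod_pos' (m : κ → ℕ) : 0 < ∏ l, ((m l : ℝ) + 1) :=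
  Finset.prod_pos fun l _ => by positivity

theorem F_bound {a : (κ → ℕ) → ℝ} (ha : ∀ m, 0 ≤ a m) (M m : κ → ℕ) :
    ‖F a M m‖ ≤ a m / ∏ l, ((m l : ℝ) + 1) := by
  unfold F
  split_ifs with h
  · rw [Real.norm_of_nonneg (mul_nonneg (ha m) (inv_prod_nonneg M)), div_eq_mul_inv]
    refine mul_le_mul_of_nonneg_left ?_ (ha m)
    refine inv_anti₀ (prod_pos' m) ?_
    refine Finset.prod_le_prod (fun l _ => by positivity) fun l _ => ?_
    have := mem_box.1 h l
    exact_mod_cast this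
  · rw [norm_zero]
    exact div_nonneg (ha m) (prod_pos' m).le

theorem tendsto_prod [Nonempty κ] :
    Tendsto (fun M : κ → ℕ => ∏ l, (M l : ℝ)) atTop atTop := by
  obtain ⟨l₀⟩ := (inferInstance : Nonempty κ)
  have h1 : Tendsto (fun M : κ → ℕ => (M l₀ : ℝ)) atTop atTop :=
    tendsto_natCast_atTop_atTop.comp
      (tendsto_atTop.2 fun N => (eventually_ge_atTop (fun _ : κ => N)).mono fun M hM => hM l₀)
  refine tendsto_atTop_mono' atTop ?_ h1
  filter_upwards [eventually_ge_atTop (fun _ : κ => 1)] with M hM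
  rw [← Finset.mul_prod_erase _ _ (Finset.mem_univ l₀)]
  have h2 : (1 : ℝ) ≤ ∏ l ∈ Finset.univ.erase l₀, (M l : ℝ) := by
    have : ∀ l ∈ Finset.univ.erase l₀, (1 : ℝ) ≤ (M l : ℝ) := fun l _ => by exact_mod_cast hM l
    calc (1 : ℝ) = ∏ l ∈ Finset.univ.erase l₀, (1 : ℝ) := by simp
      _ ≤ _ := Finset.prod_le_prod (fun _ _ => zero_le_one) this
  exact le_mul_of_one_le_right (by positivity) h2

end KronAux

open KronAux

theorem tendsto_avg_zero [Nonempty κ] {a : (κ → ℕ) → ℝ} (ha : ∀ m, 0 ≤ a m)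
    (hs : Summable fun m : κ → ℕ => a m / ∏ l, ((m l : ℝ) + 1)) :
    Tendsto (fun M : κ → ℕ => avg M a) atTop (𝓝 0) := by
  have h := tendsto_tsum_of_dominated_convergence (f := fun M m => F a M m) (g := fun _ => (0 : ℝ))
    (𝓕 := (atTop : Filter (κ → ℕ))) hs ?_ (Eventually.of_forall fun M m => F_bound ha M m)
  · rw [tsum_zero] at h
    refine h.congr fun M => ?_
    rw [avg_eq]
  · intro m
    have h1 : Tendsto (fun M : κ → ℕ => a m * (∏ l, (M l : ℝ))⁻¹) atTop (𝓝 0) := by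
      have := (tendsto_inv_atTop_zero.comp (tendsto_prod (κ := κ))).const_mul (a m)
      rw [mul_zero] at this
      exact this
    refine squeeze_zero_norm (fun M => ?_) h1
    unfold F
    split_ifs
    · rw [Real.norm_of_nonneg (mul_nonneg (ha m) (inv_prod_nonneg M))]
    · rw [norm_zero]
      exact mul_nonneg (ha m) (inv_prod_nonneg M)

theorem ae_summable {X : Type} {mX : MeasurableSpace X} {μ : Measure X}
    {f : (κ → ℕ) → X → ℝ≥0∞} (hf : ∀ m, Measurable (f m)) {b : (κ → ℕ) → ℝ} (hb : ∀ m, 0 ≤ b m)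
    (hfb : ∀ m, ∫⁻ x, f m x ∂μ ≤ ENNReal.ofReal (b m))
    (hs : Summable fun m : κ → ℕ => b m / ∏ l, ((m l : ℝ) + 1)) :
    ∀ᵐ x ∂μ, (∀ m, f m x < ⊤) ∧
      Summable fun m : κ → ℕ => (f m x).toReal / ∏ l, ((m l : ℝ) + 1) := by
  have hw : ∀ m : κ → ℕ, 0 < (∏ l, ((m l : ℝ) + 1))⁻¹ := fun m => inv_pos.2 (prod_pos' m)
  have h1 : ∫⁻ x, ∑' m, ENNReal.ofReal (∏ l, ((m l : ℝ) + 1))⁻¹ * f m x ∂μ < ⊤ := by
    rw [lintegral_tsum fun m => ((hf m).const_mul _).aemeasurable]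
    have h2 : ∑' m : κ → ℕ, ∫⁻ x, ENNReal.ofReal (∏ l, ((m l : ℝ) + 1))⁻¹ * f m x ∂μ ≤
        ∑' m : κ → ℕ, ENNReal.ofReal (b m / ∏ l, ((m l : ℝ) + 1)) := by
      refine ENNReal.tsum_le_tsum fun m => ?_
      rw [lintegral_const_mul _ (hf m), div_eq_mul_inv, mul_comm (b m),
        ENNReal.ofReal_mul (hw m).le]
      exact mul_le_mul_right (hfb m) _
    refine h2.trans_lt ?_
    exact hs.tsum_ofReal_lt_top
  have h3 : Measurable fun x => ∑' m, ENNReal.ofReal (∏ l, ((m l : ℝ) + 1))⁻¹ * f m x :=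
    Measurable.tsum fun m => (hf m).const_mul _
  filter_upwards [ae_lt_top h3 h1.ne] with x hx
  constructor
  · intro m
    have h4 : ENNReal.ofReal (∏ l, ((m l : ℝ) + 1))⁻¹ * f m x < ⊤ :=
      (ENNReal.le_tsum m).trans_lt hx
    by_contra h5
    rw [not_lt, top_le_iff] at h5
    rw [h5, ENNReal.mul_top (ENNReal.ofReal_pos.2 (hw m)).ne'] at h4
    exact lt_irrefl _ h4
  · have h4 := ENNReal.summable_toReal hx.ne
    refine h4.congr fun m => ?_
    rw [ENNReal.toReal_mul, ENNReal.toReal_ofReal (hw m).le, div_eq_mul_inv, mul_comm]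

end Pool.Agent.Lib.Pf720po
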