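import Pool.Agent.Lib.Pf720po.Expo
import Pool.Agent.Lib.Pf720po.Dens

/-!
# Bounded functions of a Gaussian and a Poisson process
-/

set_option autoImplicit false
set_option linter.unusedSectionVars false

open Finset MeasureTheory Filter Topology ProbabilityTheory
open scoped ENNReal ComplexConjugate

namespace Pool.Agent.Lib.Pf720po

open Pool.Agent.Lib.Pf720ae Pool.Agent.Lib.Pf720gs
open Pool.Agent.Lib.Pf720pp (PV ev)

variable {V X Y : Type} [AddCommGroup V] [Module ℝ V] {mX : MeasurableSpace X}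
  {mY : MeasurableSpace Y} {μ : Measure X}
  [IsProbabilityMeasure μ] {κ : Type} [Fintype κ] [DecidableEq κ] {d : ℕ} {J : Type} [Fintype J]
  [DecidableEq J]

/-- some of the functions are exponentials, the others are real and bounded -/
theorem mixedN (g : GF V X μ) (act : MAct (Fin d → ℤ) X μ) (S : (Fin d → ℤ) → V →ₗ[ℝ] V)
    (hS : ∀ w v x, g.G (S w v) x = g.G v (act.S w x))
    (hSadd : ∀ w w' v, S (w + w') v = S w (S w' v))
    (hBi : ∀ w u v, g.B (S w u) (S w v) = g.B u v)
    {ν : Measure Y} {N : X → Measure Y} (hN : IsPoisson μ ν N) (R : MAct (Fin d → ℤ) Y ν)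
    (hNR : ∀ w x, N (act.S w x) = (N x).map (R.S w))
    (hind : Indep (⨆ v, MeasurableSpace.comap (g.G v) (borel ℝ))
      (MeasurableSpace.comap N inferInstance) μ)
    {B : ℕ → Set Y} (hBmono : Monotone B)
    (hB : ∀ r, MeasurableSet (B r)) (hνB : ∀ r, ν (B r) < ⊤) (hret : ∀ r, Ret R (B r))
    (hgen : ∀ D : Set X, MeasurableSet D →
      ∃ D', MeasurableSet[⨆ i, MeasurableSpace.comap (KP g N B ν i) (borel ℝ)] D' ∧ D =ᵐ[μ] D')
    (q : J → κ → PV d) (s : Finset J) (f : J → X → ℂ)
    (hfs : ∀ j ∈ s, ∃ F : X → ℝ, Measurable F ∧ (∀ x, |F x| ≤ 1) ∧ ∀ x, f j x = F x)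
    (hfc : ∀ j ∉ s, ∃ (v : V) (r : ℕ) (u : Y → ℝ),
      Amp (1 / (2 * ((Fintype.card J : ℝ) + 1) ^ 2)) (B r) u ∧
      ∀ x, f j x = ex g v x * (mf N u x : ℂ)) :
    ∀ᵐ x ∂μ, Cvg (fun m : κ → ℕ => (∏ j, f j (act.S (ev (q j) m) x)).re) ∧
      Cvg (fun m : κ → ℕ => (∏ j, f j (act.S (ev (q j) m) x)).im) := by
  have hJ1 : (1 : ℝ) ≤ ((Fintype.card J : ℝ) + 1) ^ 2 := by
    have : (0 : ℝ) ≤ (Fintype.card J : ℝ) := Nat.cast_nonneg _
    nlinarith
  have hε : (0 : ℝ) < 1 / (2 * ((Fintype.card J : ℝ) + 1) ^ 2) := by positivity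
  have hε1 : 1 / (2 * ((Fintype.card J : ℝ) + 1) ^ 2) ≤ (1 : ℝ) / 2 := by
    rw [div_le_div_iff₀ (by positivity) (by norm_num)]
    linarith
  have hAmp0 : ∀ {B' : Set Y} {u : Y → ℝ}, Amp (1 / (2 * ((Fintype.card J : ℝ) + 1) ^ 2)) B' u →
      ∀ y, 0 ≤ u y := fun h y => by
    have := h.lb y
    linarith
  have hmf1 : ∀ {B' : Set Y} {u : Y → ℝ}, Amp (1 / (2 * ((Fintype.card J : ℝ) + 1) ^ 2)) B' u →
      ∀ x, |mf N u x| ≤ 1 := fun h x => by
    rw [abs_of_nonneg (mf_pos _ _ _).le]
    exact mf_le_one N (hAmp0 h) h.ub x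
  induction s using Finset.induction_on generalizing f with
  | empty =>
    choose v r u hu hv using fun j => hfc j (Finset.notMem_empty j)
    obtain ⟨r₀, hr₀⟩ : ∃ r₀, ∀ j, r j ≤ r₀ :=
      ⟨Finset.univ.sup r, fun j => Finset.le_sup (f := r) (Finset.mem_univ j)⟩
    have h1 := exp_cvg (κ := κ) g act S hS hSadd hBi hN R hNR hind (hB r₀) (hνB r₀) (hret r₀) q v u
      (fun j => (hu j).mono le_rfl (hBmono (hr₀ j)))
    filter_upwards [h1] with x hx
    have e : ∀ m : κ → ℕ, ∏ j, f j (act.S (ev (q j) m) x) =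
        ((∏ j, mf N (u j) (act.S (ev (q j) m) x) : ℝ) : ℂ) *
        Complex.exp (((∑ j, g.G (v j) (act.S (ev (q j) m) x) : ℝ) : ℂ) * Complex.I) := by
      intro m
      push_cast
      rw [Finset.sum_mul, Complex.exp_sum, ← Finset.prod_mul_distrib]
      refine Finset.prod_congr rfl fun j _ => ?_
      rw [hv j, mul_comm]
      rfl
    constructor
    · refine hx.1.congr fun m => ?_
      rw [e, Complex.re_ofReal_mul, Complex.exp_ofReal_mul_I_re]
    · refine hx.2.congr fun m => ?_
      rw [e, Complex.im_ofReal_mul, Complex.exp_ofReal_mul_I_im]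
  | insert a s ha ih =>
    obtain ⟨F, hFm, hF1, hF⟩ := hfs a (Finset.mem_insert_self _ _)
    have hf1 : ∀ j x, ‖f j x‖ ≤ 1 := by
      intro j x
      by_cases hj : j ∈ insert a s
      · obtain ⟨F', -, hF'1, hF'⟩ := hfs j hj
        rw [hF', Complex.norm_real]
        exact hF'1 x
      · obtain ⟨v, r, u, hu, hv⟩ := hfc j hj
        rw [hv, norm_mul, norm_ex, one_mul, Complex.norm_real]
        exact hmf1 hu x
    set Rm : X → (κ → ℕ) → ℂ := fun x m =>
      ∏ j ∈ Finset.univ.erase a, f j (act.S (ev (q j) m) x) with hRm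
    have hR1 : ∀ x m, ‖Rm x m‖ ≤ 1 := fun x m => norm_prod_le_one _ _ fun j => hf1 j _
    -- replace the function `a` by an exponential
    have hchar : ∀ (v : V) (r : ℕ) (u : Y → ℝ),
        Amp (1 / (2 * ((Fintype.card J : ℝ) + 1) ^ 2)) (B r) u → ∀ᵐ x ∂μ,
        Cvg (fun m : κ → ℕ => (ex g v (act.S (ev (q a) m) x) *
          (mf N u (act.S (ev (q a) m) x) : ℂ) * Rm x m).re) ∧
        Cvg (fun m : κ → ℕ => (ex g v (act.S (ev (q a) m) x) *
          (mf N u (act.S (ev (q a) m) x) : ℂ) * Rm x m).im) := by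
      intro v r u hu
      have h1 := ih (Function.update f a (fun x => ex g v x * (mf N u x : ℂ))) (by
        intro j hj
        have hja : j ≠ a := fun h => ha (h ▸ hj)
        rw [Function.update_of_ne hja]
        exact hfs j (Finset.mem_insert_of_mem hj)) (by
        intro j hj
        by_cases hja : j = a
        · subst hja
          exact ⟨v, r, u, hu, fun x => by rw [Function.update_self]⟩
        · rw [Function.update_of_ne hja]
          exact hfc j fun h => (Finset.mem_insert.1 h).elim hja hj)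
      have h2 : ∀ x (m : κ → ℕ), ∏ j, (Function.update f a (fun x => ex g v x * (mf N u x : ℂ))) j
          (act.S (ev (q j) m) x) = ex g v (act.S (ev (q a) m) x) *
            (mf N u (act.S (ev (q a) m) x) : ℂ) * Rm x m := by
        intro x m
        rw [← Finset.mul_prod_erase Finset.univ _ (Finset.mem_univ a), Function.update_self]
        congr 1
        refine Finset.prod_congr rfl fun j hj => ?_
        rw [Function.update_of_ne (Finset.ne_of_mem_erase hj)]
      simp only [h2] at h1
      exact h1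
    set Wt : X → Set ((κ → ℕ) → ℝ) := fun x => {fun m => (Rm x m).re, fun m => (Rm x m).im}
      with hWt
    have hWt1 : ∀ x, ∀ w ∈ Wt x, ∀ m, |w m| ≤ 1 := by
      rintro x w (rfl | rfl) m
      · exact (Complex.abs_re_le_norm _).trans (hR1 x m)
      · exact (Complex.abs_im_le_norm _).trans (hR1 x m)
    set U : (κ → ℕ) → X → X := fun m x => act.S (ev (q a) m) x with hU
    have hMax : MaxBd μ U := maxBd_poly (κ := κ) act.zero act.add act.mp (q a)
    have hUmp : ∀ m, MeasurePreserving (U m) μ μ := fun m => act.mp _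
    have hgood : ∀ (b : Bool) (v : V) (r : ℕ) (u : Y → ℝ),
        Amp (1 / (2 * ((Fintype.card J : ℝ) + 1) ^ 2)) (B r) u →
        Cv μ U Wt (fun x => prt g b v x * mf N u x) := by
      intro b v r u hu
      filter_upwards [hchar v r u hu, hchar (-v) r u hu] with x h1 h2
      have e1 := (h1.1.add h2.1).smul (1 / 2)
      have e2 := (h2.1.add (h1.1.smul (-1))).smul (1 / 2)
      have e3 := (h1.2.add h2.2).smul (1 / 2)
      have e4 := (h1.2.add (h2.2.smul (-1))).smul (1 / 2)
      rintro w (rfl | rfl)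
      · cases b
        · refine e4.congr fun m => ?_
          simp only [Complex.mul_im, Complex.mul_re, Complex.ofReal_re, Complex.ofReal_im,
            ex_re, ex_im, G_neg, Real.cos_neg, Real.sin_neg, hU, prt]
          simp only [Bool.false_eq_true, if_false]
          ring
        · refine e1.congr fun m => ?_
          simp only [Complex.mul_re, Complex.mul_im, Complex.ofReal_re, Complex.ofReal_im,
            ex_re, ex_im, G_neg, Real.cos_neg, Real.sin_neg, hU, prt]
          simp only [if_true]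
          ring
      · cases b
        · refine e2.congr fun m => ?_
          simp only [Complex.mul_re, Complex.mul_im, Complex.ofReal_re, Complex.ofReal_im,
            ex_re, ex_im, G_neg, Real.cos_neg, Real.sin_neg, hU, prt]
          simp only [Bool.false_eq_true, if_false]
          ring
        · refine e3.congr fun m => ?_
          simp only [Complex.mul_im, Complex.mul_re, Complex.ofReal_re, Complex.ofReal_im,
            ex_re, ex_im, G_neg, Real.cos_neg, Real.sin_neg, hU, prt]
          simp only [if_true]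
          ring
    have hFL : MemLp F 2 μ := MemLp.of_bound hFm.aestronglyMeasurable 1
      (Eventually.of_forall fun x => by simpa using hF1 x)
    have hmain : Cv μ U Wt F := by
      refine principle_max hMax hUmp hWt1 (fun φ hφm hφL hφ => ?_) F hFL
      have hφ1 : Integrable φ μ := hφL.integrable one_le_two
      have hm : ∀ (b : Bool) (v : V) (r : ℕ) (u : Y → ℝ),
          Amp (1 / (2 * ((Fintype.card J : ℝ) + 1) ^ 2)) (B r) u →
          Measurable (fun x => prt g b v x * mf N u x) ∧
          ∀ x, |prt g b v x * mf N u x| ≤ 1 := by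
        intro b v r u hu
        refine ⟨(measurable_prt g b v).mul (measurable_mf hN.1 hu.meas hu.fin), fun x => ?_⟩
        rw [abs_mul]
        exact mul_le_one₀ (abs_prt_le g b v x) (abs_nonneg _) (hmf1 hu x)
      have hzero : φ =ᵐ[μ] 0 := by
        refine ae_zero_of_orth g hN hBmono hB hνB hgen hε hε1 hφ1 (fun v r u hu => ?_)
          (fun v r u hu => ?_)
        · have := hφ _ (hm true v r u hu).1 (hm true v r u hu).2 (hgood true v r u hu)
          simpa [prt] using this
        · have := hφ _ (hm false v r u hu).1 (hm false v r u hu).2 (hgood false v r u hu)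
          simpa [prt] using this
      exact Cv.congr hUmp hzero.symm Cv.zero
    have hprod : ∀ x (m : κ → ℕ), ∏ j, f j (act.S (ev (q j) m) x) =
        (F (act.S (ev (q a) m) x) : ℂ) * Rm x m := by
      intro x m
      rw [← Finset.mul_prod_erase Finset.univ _ (Finset.mem_univ a), hF]
    filter_upwards [hmain] with x hx
    constructor
    · refine (hx _ (Set.mem_insert _ _)).congr fun m => ?_
      rw [hprod, Complex.re_ofReal_mul]
    · refine (hx _ (Set.mem_insert_of_mem _ rfl)).congr fun m => ?_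
      rw [hprod, Complex.im_ofReal_mul]

theorem realN (g : GF V X μ) (act : MAct (Fin d → ℤ) X μ) (S : (Fin d → ℤ) → V →ₗ[ℝ] V)
    (hS : ∀ w v x, g.G (S w v) x = g.G v (act.S w x))
    (hSadd : ∀ w w' v, S (w + w') v = S w (S w' v))
    (hBi : ∀ w u v, g.B (S w u) (S w v) = g.B u v)
    {ν : Measure Y} {N : X → Measure Y} (hN : IsPoisson μ ν N) (R : MAct (Fin d → ℤ) Y ν)
    (hNR : ∀ w x, N (act.S w x) = (N x).map (R.S w))
    (hind : Indep (⨆ v, MeasurableSpace.comap (g.G v) (borel ℝ))
      (MeasurableSpace.comap N inferInstance) μ)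
    {B : ℕ → Set Y} (hBmono : Monotone B)
    (hB : ∀ r, MeasurableSet (B r)) (hνB : ∀ r, ν (B r) < ⊤) (hret : ∀ r, Ret R (B r))
    (hgen : ∀ D : Set X, MeasurableSet D →
      ∃ D', MeasurableSet[⨆ i, MeasurableSpace.comap (KP g N B ν i) (borel ℝ)] D' ∧ D =ᵐ[μ] D')
    (q : J → κ → PV d) (F : J → X → ℝ) (hFm : ∀ j, Measurable (F j))
    (hF1 : ∀ j x, |F j x| ≤ 1) :
    ∀ᵐ x ∂μ, Cvg fun m : κ → ℕ => ∏ j, F j (act.S (ev (q j) m) x) := by
  have h1 := mixedN (κ := κ) g act S hS hSadd hBi hN R hNR hind hBmono hB hνB hret hgen q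
    Finset.univ (fun j x => (F j x : ℂ)) (fun j _ => ⟨F j, hFm j, hF1 j, fun x => rfl⟩)
    (fun j hj => absurd (Finset.mem_univ j) hj)
  filter_upwards [h1] with x hx
  refine hx.1.congr fun m => ?_
  rw [← Complex.ofReal_prod, Complex.ofReal_re]

end Pool.Agent.Lib.Pf720po
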